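import Mathlib

set_option autoImplicit false

namespace F95

theorem lower_card_symmDiff {α : Type} [DecidableEq α] (A C : Finset α) :
    (symmDiff A C).card + 2 * (A ∩ C).card = A.card + C.card := by
  have h1 : (symmDiff A C).card = (A \ C).card + (C \ A).card := by
    rw [symmDiff_def, Finset.sup_eq_union, Finset.card_union_of_disjoint]
    exact disjoint_sdiff_sdiff
  have h2 := Finset.card_sdiff_add_card_inter A C
  have h3 := Finset.card_sdiff_add_card_inter C A
  rw [Finset.inter_comm C A] at h3
  omega

/-- the odd subsets -/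
def lowerOdd (n : ℕ) : Finset (Finset (Fin n)) := Finset.univ.filter (fun R => Odd R.card)

theorem lower_half {n : ℕ} (B : Finset (Fin n)) (hB : B.Nonempty) (hB' : B ≠ Finset.univ) :
    2 * ((lowerOdd n).filter (fun R => Odd (B ∩ R).card)).card = (lowerOdd n).card := by
  obtain ⟨b, hb⟩ := hB
  obtain ⟨c, hc⟩ : ∃ c, c ∉ B := by
    by_contra h
    push Not at h
    exact hB' (Finset.eq_univ_iff_forall.2 h)
  have hbc : b ≠ c := fun h => hc (h ▸ hb)
  have hcard : ({b, c} : Finset (Fin n)).card = 2 := Finset.card_pair hbc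
  have hinv : ∀ R : Finset (Fin n), symmDiff (symmDiff R {b, c}) {b, c} = R := fun R => by
    rw [symmDiff_assoc, symmDiff_self, symmDiff_bot]
  have h1 : ∀ R : Finset (Fin n), Odd (symmDiff R {b, c}).card ↔ Odd R.card := by
    intro R
    have h := lower_card_symmDiff R {b, c}
    rw [hcard] at h
    rw [Nat.odd_iff, Nat.odd_iff]
    omega
  have hBbc : B ∩ {b, c} = {b} := by
    ext x
    simp only [Finset.mem_inter, Finset.mem_insert, Finset.mem_singleton]
    constructor
    · rintro ⟨hx, rfl | rfl⟩
      · rfl
      · exact absurd hx hc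
    · rintro rfl
      exact ⟨hb, Or.inl rfl⟩
  have h2 : ∀ R : Finset (Fin n), Odd (B ∩ symmDiff R {b, c}).card ↔ ¬ Odd (B ∩ R).card := by
    intro R
    have h3 : B ∩ symmDiff R {b, c} = symmDiff (B ∩ R) {b} := by
      rw [← hBbc]
      exact inf_symmDiff_distrib_left B R {b, c}
    have h := lower_card_symmDiff (B ∩ R) {b}
    rw [h3, Nat.odd_iff, Nat.odd_iff]
    rw [Finset.card_singleton] at h
    omega
  have h3 := Finset.card_filter_add_card_filter_not (s := lowerOdd n)
    (fun R => Odd (B ∩ R).card)
  have h4 : ((lowerOdd n).filter (fun R => Odd (B ∩ R).card)).card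
      = ((lowerOdd n).filter (fun R => ¬ Odd (B ∩ R).card)).card := by
    refine Finset.card_bij' (fun R _ => symmDiff R {b, c}) (fun R _ => symmDiff R {b, c})
      ?_ ?_ ?_ ?_
    · intro R hR
      simp only [lowerOdd, Finset.mem_filter, Finset.mem_univ, true_and] at hR ⊢
      exact ⟨(h1 R).2 hR.1, fun h => (h2 R).1 h hR.2⟩
    · intro R hR
      simp only [lowerOdd, Finset.mem_filter, Finset.mem_univ, true_and] at hR ⊢
      exact ⟨(h1 R).2 hR.1, (h2 R).2 hR.2⟩
    · intro R _
      exact hinv R
    · intro R _
      exact hinv R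
  omega

/-- TASK. Half of the odd subsets of Fin n meet a nonempty proper subset B in an odd number of
points; product over the coordinates. Alon-Bohman-Holzman-Kleitman lower bound for odd n: count
pairs (R, j) with R : Fin d -> odd subsets of Fin n, |P j i n R i| odd for all i: at most (in fact
exactly) k * (2^(n-2))^d; at least one j for each R since the product of the |R i| is odd and equals
the sum over j of the product of the |P j i n R i|. So k * 2^((n-2)d) ≥ 2^((n-1)d). -/
theorem lower_bound {n d k : ℕ} (hn : Odd n) (hn3 : 3 ≤ n) (P : Fin k → Fin d → Finset (Fin n))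
    (h1 : ∀ j i, Odd (P j i).card ∧ P j i ≠ Finset.univ)
    (h2 : ∀ x : Fin d → Fin n, ∃! j, ∀ i, x i ∈ P j i) : 2 ^ d ≤ k := by
  classical
  have hne : ∀ B : Finset (Fin n), Odd B.card → B.Nonempty := by
    intro B hB
    rw [← Finset.card_pos]
    exact hB.pos
  obtain ⟨c, hc⟩ : ∃ c, ∀ B : Finset (Fin n), B.Nonempty → B ≠ Finset.univ →
      ((lowerOdd n).filter (fun R => Odd (B ∩ R).card)).card = c :=
    ⟨(lowerOdd n).card / 2, fun B h h' => by have := lower_half B h h'; omega⟩
  have h0 : 0 < n := by omega
  have hB0 : ({⟨0, h0⟩} : Finset (Fin n)) ≠ Finset.univ := by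
    intro h
    have := congrArg Finset.card h
    simp at this
    omega
  have hO : (lowerOdd n).card = 2 * c := by
    rw [← hc {⟨0, h0⟩} ⟨_, Finset.mem_singleton_self _⟩ hB0,
      lower_half {⟨0, h0⟩} ⟨_, Finset.mem_singleton_self _⟩ hB0]
  have hcpos : 0 < c := by
    have h5 : 0 < (lowerOdd n).card := by
      rw [Finset.card_pos]
      refine ⟨{⟨0, h0⟩}, ?_⟩
      simp [lowerOdd]
    omega
  -- every choice of odd subsets is met oddly by some box
  have h3 : ∀ R : Fin d → Finset (Fin n), (∀ i, Odd (R i).card) →
      ∃ j, ∀ i, Odd (P j i ∩ R i).card := by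
    intro R hR
    have h4 : ∏ i, (R i).card = ∑ j, ∏ i, (P j i ∩ R i).card := by
      rw [← Fintype.card_piFinset]
      simp only [← Fintype.card_piFinset]
      rw [← Finset.card_biUnion]
      · congr 1
        ext x
        simp only [Fintype.mem_piFinset, Finset.mem_biUnion, Finset.mem_univ, true_and,
          Finset.mem_inter]
        constructor
        · intro hx
          obtain ⟨j, hj, -⟩ := h2 x
          exact ⟨j, fun i => ⟨hj i, hx i⟩⟩
        · rintro ⟨j, hj⟩ i
          exact (hj i).2
      · intro j _ j' _ hjj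
        rw [Function.onFun, Finset.disjoint_left]
        intro x hx hx'
        simp only [Fintype.mem_piFinset, Finset.mem_inter] at hx hx'
        exact hjj ((h2 x).unique (fun i => (hx i).1) (fun i => (hx' i).1))
    have h5 : Odd (∑ j, ∏ i, (P j i ∩ R i).card) := by
      rw [← h4]
      exact Finset.prod_induction _ Odd (fun _ _ h h' => h.mul h') odd_one (fun i _ => hR i)
    by_contra hcon
    push Not at hcon
    have h6 : Even (∑ j, ∏ i, (P j i ∩ R i).card) := by
      refine Finset.even_sum _ (fun j _ => ?_)
      obtain ⟨i, hi⟩ := hcon j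
      rw [Nat.not_odd_iff_even] at hi
      obtain ⟨r, hr⟩ := Finset.dvd_prod_of_mem (fun i => (P j i ∩ R i).card) (Finset.mem_univ i)
      rw [hr]
      exact hi.mul_right r
    exact (Nat.not_even_iff_odd.2 h5) h6
  have h4 : (Fintype.piFinset (fun _ : Fin d => lowerOdd n)).card ≤ k * c ^ d := by
    have h5 : Fintype.piFinset (fun _ : Fin d => lowerOdd n) ⊆ Finset.univ.biUnion
        (fun j : Fin k => Fintype.piFinset
          (fun i => (lowerOdd n).filter (fun R => Odd (P j i ∩ R).card))) := by
      intro R hR
      rw [Fintype.mem_piFinset] at hR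
      obtain ⟨j, hj⟩ := h3 R (fun i => by
        have := hR i
        simp only [lowerOdd, Finset.mem_filter, Finset.mem_univ, true_and] at this
        exact this)
      rw [Finset.mem_biUnion]
      refine ⟨j, Finset.mem_univ _, ?_⟩
      rw [Fintype.mem_piFinset]
      intro i
      rw [Finset.mem_filter]
      exact ⟨hR i, hj i⟩
    refine (Finset.card_le_card h5).trans (Finset.card_biUnion_le.trans ?_)
    have h6 : ∀ j : Fin k, (Fintype.piFinset
          (fun i => (lowerOdd n).filter (fun R => Odd (P j i ∩ R).card))).card = c ^ d := by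
      intro j
      rw [Fintype.card_piFinset]
      rw [Finset.prod_congr rfl (fun i _ => hc (P j i) (hne _ (h1 j i).1) (h1 j i).2)]
      simp
    rw [Finset.sum_congr rfl (fun j _ => h6 j)]
    simp
  rw [Fintype.card_piFinset] at h4
  simp only [Finset.prod_const, Finset.card_univ, Fintype.card_fin, hO] at h4
  rw [mul_pow] at h4
  exact Nat.le_of_mul_le_mul_right h4 (pow_pos hcpos d)

end F95
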