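import Pool.Agent.W_f95cc0_h94.Glue1
import Pool.Agent.W_f95cc0_h94.Lower

set_option autoImplicit false

namespace F95

/-- the least number of boxes -/
noncomputable def Glue2_F (n d : ℕ) : ℕ := sInf {k : ℕ | Cov n d k}

theorem Glue2_cov {n : ℕ} (hn3 : 3 ≤ n) (d : ℕ) : Cov n d (Glue2_F n d) :=
  Nat.sInf_mem (s := {k : ℕ | Cov n d k}) ⟨n ^ d, cov_points (by omega) d⟩

theorem Glue2_le {n d k : ℕ} (h : Cov n d k) : Glue2_F n d ≤ k := Nat.sInf_le h

theorem Glue2_lower {n : ℕ} (hn : Odd n) (hn3 : 3 ≤ n) (d : ℕ) : 2 ^ d ≤ Glue2_F n d := by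
  obtain ⟨P, h1, h2⟩ := Glue2_cov hn3 d
  exact lower_bound hn hn3 P h1 h2

theorem Glue2_anti {n m : ℕ} (hn : Odd n) (hn3 : 3 ≤ n) (hm : Odd m) (hnm : n ≤ m) (d : ℕ) :
    Glue2_F m d ≤ Glue2_F n d := by
  obtain ⟨h, rfl⟩ := hn
  exact Glue2_le (cov_pull (by omega) hm hnm (Glue2_cov hn3 d))

theorem Glue2_pow {n : ℕ} (hn3 : 3 ≤ n) (d t : ℕ) : Glue2_F n (d * t) ≤ Glue2_F n d ^ t := by
  induction t with
  | zero =>
    rw [mul_zero, pow_zero]
    have := Glue2_le (cov_points (n := n) (by omega) 0)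
    simpa using this
  | succ t ih =>
    rw [mul_add, mul_one, pow_succ]
    exact (Glue2_le (cov_add (Glue2_cov hn3 (d * t)) (Glue2_cov hn3 d))).trans
      (Nat.mul_le_mul_right _ ih)

/-- TASK. The reduction. Let F n d = sInf {k | Cov n d k}; the set is nonempty (cov_points), so
Cov n d (F n d). F m d ≤ F n d for odd 3 ≤ n ≤ m (cov_pull), F n (d*t) ≤ (F n d)^t (cov_add), F n d
≥ 2^d (lower_bound). Hence al n ≥ 2, al (2k+3) is antitone, so it converges to its infimum b ≥ 2,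
and b ≤ al n ≤ (F n d)^(1/d) for odd n ≥ 3, d ≥ 1 (limit along the multiples of d). If b > 2 then the
hypothesis hmain applies with al = b: hL from b^d ≤ F n d ≤ L.length (cov_of_list; d = 0: L is
nonempty), hU: choose k with al (2k+3) < (1+eps/2) b, eventually F n d ≤ ((1+eps) b)^d, then
rep_of_cov and Rep.mono. -/
theorem glue
    (hmain : ∀ al : ℝ, 2 < al →
      (∀ h d : ℕ, 1 ≤ h → ∀ L : List (Fin d → Finset (Fin (2 * h + 1))),
        (∀ B ∈ L, Ok (fun _ => false) B) → (∀ w, (L.map (fun B => ind B w)).sum = 1) →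
        al ^ d ≤ (L.length : ℝ)) →
      (∀ eps : ℝ, 0 < eps → ∃ h D : ℕ, 1 ≤ h ∧ ∀ d, D ≤ d →
        Rep (K := Fin d) (N := 2 * h + 1) (fun _ => false) 1 1 (fun _ => 1)
          (((1 + eps) * al) ^ d)) → False)
    (al : ℕ → ℝ)
    (hal : ∀ n : ℕ, Odd n → 3 ≤ n →
        Filter.Tendsto
          (fun d : ℕ =>
            ((sInf {k : ℕ | ∃ P : Fin k → Fin d → Finset (Fin n),
                (∀ j i, Odd (P j i).card ∧ P j i ≠ Finset.univ) ∧
                ∀ x : Fin d → Fin n, ∃! j, ∀ i, x i ∈ P j i} : ℕ) : ℝ) ^ ((1 : ℝ) / (d : ℝ)))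
          Filter.atTop (nhds (al n))) :
    Filter.Tendsto (fun k : ℕ => al (2 * k + 3)) Filter.atTop (nhds 2) := by
  have hlim : ∀ n : ℕ, Odd n → 3 ≤ n → Filter.Tendsto
      (fun d : ℕ => ((Glue2_F n d : ℕ) : ℝ) ^ ((1 : ℝ) / (d : ℝ))) Filter.atTop (nhds (al n)) :=
    hal
  have hFnn : ∀ n d : ℕ, (0 : ℝ) ≤ (Glue2_F n d : ℝ) := fun n d => Nat.cast_nonneg _
  -- lower bound for the limits
  have h2 : ∀ n : ℕ, Odd n → 3 ≤ n → 2 ≤ al n := by
    intro n hn hn3
    refine ge_of_tendsto (hlim n hn hn3) ?_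
    filter_upwards [Filter.eventually_ge_atTop 1] with d hd
    have h1 : ((2 : ℝ) ^ d) ^ ((1 : ℝ) / (d : ℝ)) = 2 := by
      rw [one_div]
      exact Real.pow_rpow_inv_natCast (by norm_num) (by omega)
    rw [← h1]
    apply Real.rpow_le_rpow (by positivity) _ (by positivity)
    exact_mod_cast Glue2_lower hn hn3 d
  -- monotonicity
  have hanti : ∀ n m : ℕ, Odd n → 3 ≤ n → Odd m → n ≤ m → al m ≤ al n := by
    intro n m hn hn3 hm hnm
    refine le_of_tendsto_of_tendsto' (hlim m hm (hn3.trans hnm)) (hlim n hn hn3) fun d => ?_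
    apply Real.rpow_le_rpow (hFnn _ _) _ (by positivity)
    exact_mod_cast Glue2_anti hn hn3 hm hnm d
  -- the limit is a lower bound
  have hle : ∀ n : ℕ, Odd n → 3 ≤ n → ∀ d : ℕ, al n ^ d ≤ (Glue2_F n d : ℝ) := by
    intro n hn hn3 d
    rcases Nat.eq_zero_or_pos d with hd | hd
    · subst hd
      rw [pow_zero]
      have := Glue2_lower hn hn3 0
      rw [pow_zero] at this
      exact_mod_cast this
    · have hmul : Filter.Tendsto (fun t : ℕ => d * t) Filter.atTop Filter.atTop :=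
        Filter.tendsto_id.const_mul_atTop' hd
      have h1 := (hlim n hn hn3).comp hmul
      have h3 : al n ≤ (Glue2_F n d : ℝ) ^ ((1 : ℝ) / (d : ℝ)) := by
        refine le_of_tendsto h1 ?_
        filter_upwards [Filter.eventually_ge_atTop 1] with t ht
        simp only [Function.comp]
        have h4 : ((Glue2_F n (d * t) : ℕ) : ℝ) ≤ (Glue2_F n d : ℝ) ^ t := by
          exact_mod_cast Glue2_pow hn3 d t
        refine (Real.rpow_le_rpow (hFnn _ _) h4 (by positivity)).trans ?_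
        have h5 : ((1 : ℝ) / ((d * t : ℕ) : ℝ)) = (t : ℝ)⁻¹ * ((1 : ℝ) / (d : ℝ)) := by
          push_cast
          rw [one_div, one_div, mul_inv, mul_comm]
        rw [h5, Real.rpow_mul (by positivity), Real.pow_rpow_inv_natCast (hFnn _ _) (by omega)]
      have h6 := pow_le_pow_left₀ (by linarith [h2 n hn hn3]) h3 d
      rwa [one_div, Real.rpow_inv_natCast_pow (hFnn _ _) (by omega)] at h6
  have hodd : ∀ k : ℕ, Odd (2 * k + 3) := fun k => ⟨k + 1, by ring⟩
  have hA : Antitone fun k : ℕ => al (2 * k + 3) := by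
    intro i j hij
    exact hanti _ _ (hodd i) (by omega) (hodd j) (by omega)
  have hbdd : BddBelow (Set.range fun k : ℕ => al (2 * k + 3)) := by
    refine ⟨2, ?_⟩
    rintro _ ⟨k, rfl⟩
    exact h2 _ (hodd k) (by omega)
  have htend := tendsto_atTop_ciInf hA hbdd
  have hb2 : 2 ≤ ⨅ k : ℕ, al (2 * k + 3) := le_ciInf fun k => h2 _ (hodd k) (by omega)
  rcases hb2.eq_or_lt with heq | hlt
  · rw [← heq] at htend
    exact htend
  · exfalso
    set b : ℝ := ⨅ k : ℕ, al (2 * k + 3) with hb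
    have hb0 : 0 < b := by linarith
    refine hmain b hlt ?_ ?_
    · intro h d hh L hL1 hL2
      have h3 : Cov (2 * h + 1) d L.length := cov_of_list L hL1 hL2
      have h4 : (Glue2_F (2 * h + 1) d : ℝ) ≤ (L.length : ℝ) := by exact_mod_cast Glue2_le h3
      have h5 : b ≤ al (2 * h + 1) := by
        have h6 := ciInf_le hbdd (h - 1)
        have h7 : 2 * (h - 1) + 3 = 2 * h + 1 := by omega
        rw [h7] at h6
        exact h6
      exact ((pow_le_pow_left₀ hb0.le h5 d).trans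
        (hle (2 * h + 1) ⟨h, rfl⟩ (by omega) d)).trans h4
    · intro eps heps
      have h3 : (⨅ k : ℕ, al (2 * k + 3)) < (1 + eps / 2) * b := by
        rw [← hb]
        nlinarith
      obtain ⟨k, hk⟩ := exists_lt_of_ciInf_lt h3
      have hk' : al (2 * k + 3) < (1 + eps) * b := by
        refine hk.trans ?_
        nlinarith
      have h4 := (hlim (2 * k + 3) (hodd k) (by omega)).eventually (gt_mem_nhds hk')
      obtain ⟨D, hD⟩ := Filter.eventually_atTop.1 h4
      refine ⟨k + 1, D + 1, by omega, fun d hd => ?_⟩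
      have h5 := hD d (by omega)
      have h6 := pow_le_pow_left₀ (by positivity) h5.le d
      rw [one_div, Real.rpow_inv_natCast_pow (hFnn _ _) (by omega)] at h6
      have h7 := rep_of_cov (Glue2_cov (n := 2 * k + 3) (by omega) d)
      exact h7.mono h6

end F95
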