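import Pool.Agent.W_f95cc0_h94.Lam

set_option autoImplicit false

namespace F95

/-- TASK. The end of the walk: q = 1+1/n^2, Ks = n^3: c ≤ 1 + 1/(2 n^4), c^Ks ≤ exp(1/(2n)),
(1+1/n^2)^(n^3) ≥ 1+n (Bernoulli). -/
theorem exists_walk_end {al : ℝ} (hal : 2 < al) : ∃ (q : ℝ) (Ks : ℕ), 1 < q ∧ lam q Ks 0 0 < al := by
  have h0 : Filter.Tendsto (fun n : ℕ => 1 / ((n : ℝ) + 1)) Filter.atTop (nhds 0) :=
    tendsto_one_div_add_atTop_nhds_zero_nat
  have h1 : Filter.Tendsto (fun n : ℕ => 2 * Real.exp (1 / ((n : ℝ) + 1)) + 1 / ((n : ℝ) + 1))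
      Filter.atTop (nhds 2) := by
    have h2 : Filter.Tendsto (fun n : ℕ => Real.exp (1 / ((n : ℝ) + 1))) Filter.atTop
        (nhds (Real.exp 0)) := (Real.continuous_exp.tendsto 0).comp h0
    have h3 := (h2.const_mul 2).add h0
    simpa using h3
  obtain ⟨n, hn⟩ := ((tendsto_order.mp h1).2 al hal).exists
  set m : ℝ := (n : ℝ) + 1 with hm
  have hm1 : 1 ≤ m := by
    have : (0 : ℝ) ≤ n := Nat.cast_nonneg n
    linarith
  have hm0 : 0 < m := by linarith
  refine ⟨1 + 1 / m ^ 2, (n + 1) ^ 3, by have : 0 < 1 / m ^ 2 := by positivity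
                                         linarith, ?_⟩
  set q : ℝ := 1 + 1 / m ^ 2 with hq
  have hinv : 0 < 1 / m ^ 2 := by positivity
  have hq1 : 1 < q := by linarith
  have hq0 : 0 < q := by linarith
  have hc : (q + q⁻¹) / 2 ≤ 1 + 1 / m ^ 4 := by
    have h4 : (q + q⁻¹) / 2 = 1 + (q - 1) ^ 2 / (2 * q) := by
      field_simp
      ring
    rw [h4]
    have h5 : (q - 1) ^ 2 = 1 / m ^ 4 := by
      rw [hq]
      field_simp
      ring
    rw [h5]
    have h6 : 1 / m ^ 4 / (2 * q) ≤ 1 / m ^ 4 := by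
      apply div_le_self (by positivity)
      linarith
    linarith
  have hc0 : 0 ≤ (q + q⁻¹) / 2 := by positivity
  have hcK : ((q + q⁻¹) / 2) ^ ((n + 1) ^ 3) ≤ Real.exp (1 / m) := by
    calc ((q + q⁻¹) / 2) ^ ((n + 1) ^ 3) ≤ (Real.exp (1 / m ^ 4)) ^ ((n + 1) ^ 3) := by
          apply pow_le_pow_left₀ hc0
          refine hc.trans ?_
          have := Real.add_one_le_exp (1 / m ^ 4)
          linarith
      _ = Real.exp (1 / m) := by
          rw [← Real.exp_nat_mul]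
          congr 1
          push_cast
          rw [← hm]
          field_simp
  have hqK : m ≤ q ^ ((n + 1) ^ 3) := by
    have h7 := one_add_mul_le_pow (a := 1 / m ^ 2) (by linarith) ((n + 1) ^ 3)
    have h8 : 1 + (((n + 1) ^ 3 : ℕ) : ℝ) * (1 / m ^ 2) = 1 + m := by
      push_cast
      rw [← hm]
      field_simp
    rw [h8] at h7
    rw [hq]
    linarith
  have hqi : (q⁻¹) ^ ((n + 1) ^ 3) ≤ 1 / m := by
    rw [inv_pow, ← one_div]
    exact one_div_le_one_div_of_le hm0 hqK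
  unfold lam
  simp only [Nat.mul_zero, pow_zero]
  calc ((q + q⁻¹) / 2) ^ ((n + 1) ^ 3) * (1 + 1) + q⁻¹ ^ (n + 1) ^ 3
      ≤ Real.exp (1 / m) * (1 + 1) + 1 / m := by
        apply add_le_add _ hqi
        apply mul_le_mul_of_nonneg_right hcK (by norm_num)
    _ = 2 * Real.exp (1 / m) + 1 / m := by ring
    _ < al := hn

end F95
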