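import Pool.Agent.W_f95cc0_h94.Step
import Pool.Agent.W_f95cc0_h94.WalkEnd

set_option autoImplicit false

namespace F95

theorem lam_zero (q : ℝ) (i j : ℕ) : lam q 0 i j = q ^ (2 * i) + q ^ (2 * j) + 1 := by
  simp [lam]

/-- the trivial partition -/
theorem stage_zero {al q : ℝ} (hq : 1 < q) (Ks : ℕ) : Stage al q Ks 0 := by
  intro eta heta
  refine ⟨Unit, inferInstance, fun _ => true, 1, le_rfl, by simp [cm], ?_⟩
  intro i j _
  refine ⟨[fun _ => {0}, fun _ => {1}, fun _ => {2}], ?_, ?_, ?_⟩
  · intro B hB k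
    simp only [List.mem_cons, List.not_mem_nil, or_false] at hB
    rcases hB with rfl | rfl | rfl
    · refine ⟨by simp, by decide +revert, fun _ => by decide +revert⟩
    · refine ⟨by simp, by decide +revert, fun _ => by decide +revert⟩
    · refine ⟨by simp, by decide +revert, fun _ => by decide +revert⟩
  · intro w
    simp only [List.map_cons, List.map_nil, List.sum_cons, List.sum_nil, ind, Finset.mem_singleton]
    have h : w () = 0 ∨ w () = 1 ∨ w () = 2 := by
      have : ∀ t : Fin 3, t = 0 ∨ t = 1 ∨ t = 2 := by decide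
      exact this (w ())
    rcases h with h | h | h
    · have e1 : (∀ k : Unit, w k = 0) := fun _ => h
      have e2 : ¬ (∀ k : Unit, w k = 1) := fun h' => by
        have := h' ()
        rw [h] at this
        exact absurd this (by decide)
      have e3 : ¬ (∀ k : Unit, w k = 2) := fun h' => by
        have := h' ()
        rw [h] at this
        exact absurd this (by decide)
      rw [if_pos e1, if_neg e2, if_neg e3]
      rfl
    · have e1 : (∀ k : Unit, w k = 1) := fun _ => h
      have e2 : ¬ (∀ k : Unit, w k = 0) := fun h' => by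
        have := h' ()
        rw [h] at this
        exact absurd this (by decide)
      have e3 : ¬ (∀ k : Unit, w k = 2) := fun h' => by
        have := h' ()
        rw [h] at this
        exact absurd this (by decide)
      rw [if_neg e2, if_pos e1, if_neg e3]
      rfl
    · have e1 : (∀ k : Unit, w k = 2) := fun _ => h
      have e2 : ¬ (∀ k : Unit, w k = 0) := fun h' => by
        have := h' ()
        rw [h] at this
        exact absurd this (by decide)
      have e3 : ¬ (∀ k : Unit, w k = 1) := fun h' => by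
        have := h' ()
        rw [h] at this
        exact absurd this (by decide)
      rw [if_neg e2, if_neg e3, if_pos e1]
      rfl
  · have c0 : ca (fun _ : Unit => true) (fun _ => ({0} : Finset (Fin (2 * 1 + 1)))) = 1 := by decide
    have c1 : ca (fun _ : Unit => true) (fun _ => ({1} : Finset (Fin (2 * 1 + 1)))) = 0 := by decide
    have c2 : ca (fun _ : Unit => true) (fun _ => ({2} : Finset (Fin (2 * 1 + 1)))) = 0 := by decide
    have d0 : cb (fun _ : Unit => true) (fun _ => ({0} : Finset (Fin (2 * 1 + 1)))) = 0 := by decide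
    have d1 : cb (fun _ : Unit => true) (fun _ => ({1} : Finset (Fin (2 * 1 + 1)))) = 0 := by decide
    have d2 : cb (fun _ : Unit => true) (fun _ => ({2} : Finset (Fin (2 * 1 + 1)))) = 1 := by decide
    simp only [List.map_cons, List.map_nil, List.sum_cons, List.sum_nil, c0, c1, c2, d0, d1, d2]
    have e1 : cm (fun _ : Unit => true) = 1 := by decide
    have e2 : cn (fun _ : Unit => true) = 0 := by decide
    rw [e1, e2, lam_zero]
    have p1 : 0 < q ^ (2 * i) := by positivity
    have p2 : 0 < q ^ (2 * j) := by positivity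
    nlinarith

theorem stage_all {al q : ℝ} (hal : 2 < al) (hq : 1 < q)
    (hU : ∀ eps : ℝ, 0 < eps → ∃ h D : ℕ, 1 ≤ h ∧ ∀ d, D ≤ d →
      Rep (K := Fin d) (N := 2 * h + 1) (fun _ => false) 1 1 (fun _ => 1)
        (((1 + eps) * al) ^ d)) (Ks : ℕ) : ∀ r : ℕ, Stage al q Ks r
  | 0 => stage_zero hq Ks
  | r + 1 => stage_step hal hq hU (stage_all hal hq hU Ks r)

theorem cm_add_cn {K : Type} [Fintype K] (sp : K → Bool) : cm sp + cn sp = Fintype.card K := by
  unfold cm cn
  rw [← Finset.sum_add_distrib, ← Finset.card_univ, Finset.card_eq_sum_ones]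
  apply Finset.sum_congr rfl
  intro k _
  by_cases h : sp k = true <;> simp [h]

/-- the main theorem: the growth rate cannot be bigger than two -/
theorem main_contra {al : ℝ} (hal : 2 < al)
    (hL : ∀ h d : ℕ, 1 ≤ h → ∀ L : List (Fin d → Finset (Fin (2 * h + 1))),
        (∀ B ∈ L, Ok (fun _ => false) B) → (∀ w, (L.map (fun B => ind B w)).sum = 1) →
        al ^ d ≤ (L.length : ℝ))
    (hU : ∀ eps : ℝ, 0 < eps → ∃ h D : ℕ, 1 ≤ h ∧ ∀ d, D ≤ d →
        Rep (K := Fin d) (N := 2 * h + 1) (fun _ => false) 1 1 (fun _ => 1)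
          (((1 + eps) * al) ^ d)) : False := by
  obtain ⟨q, Ks, hq, hlam⟩ := exists_walk_end hal
  have hpos : 0 < lam q Ks 0 0 := lt_of_lt_of_le one_pos (lam_one_le hq Ks 0 0)
  set eta : ℝ := (al / lam q Ks 0 0 - 1) / 2 with heta
  have h1 : 1 < al / lam q Ks 0 0 := by rwa [one_lt_div hpos]
  have heta0 : 0 < eta := by rw [heta]; linarith
  have h2 : (1 + eta) * lam q Ks 0 0 < al := by
    have h3 : 1 + eta < al / lam q Ks 0 0 := by rw [heta]; linarith
    calc (1 + eta) * lam q Ks 0 0 < al / lam q Ks 0 0 * lam q Ks 0 0 :=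
          mul_lt_mul_of_pos_right h3 hpos
      _ = al := div_mul_cancel₀ _ hpos.ne'
  obtain ⟨K, hK, sp, h, hh, hm, hP⟩ := stage_all hal hq hU Ks Ks eta heta0
  have h4 := hP 0 0 (by omega)
  have h5 := h4.equiv (Fintype.equivFin K).symm
  obtain ⟨L, ho, hs, hw⟩ := h5
  have h6 := hL h (Fintype.card K) hh L
    (fun B hB k => ⟨(ho B hB k).1, (ho B hB k).2.1, fun h => absurd h (by simp)⟩) hs
  have h7 : (L.length : ℝ) ≤ ((1 + eta) * lam q Ks 0 0) ^ cm sp * al ^ cn sp := by
    refine le_trans (le_of_eq ?_) hw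
    simp
  have h8 := h6.trans h7
  rw [← cm_add_cn sp, pow_add] at h8
  have h9 : al ^ cm sp ≤ ((1 + eta) * lam q Ks 0 0) ^ cm sp := by
    have : 0 < al ^ cn sp := by positivity
    exact le_of_mul_le_mul_right h8 this
  have h10 : ((1 + eta) * lam q Ks 0 0) ^ cm sp < al ^ cm sp :=
    pow_lt_pow_left₀ h2 (by positivity) (by omega)
  exact absurd h9 (not_le.2 h10)

end F95
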