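import Mathlib

/-!
MP_f95cc0_co: basic definitions.

A box over the alphabet Fin N with index type K is a function K -> Finset (Fin N).
The Boolean function sp marks the special coordinates. A box is allowed (Ok) if all its sides are
odd and proper and if at special coordinates no side contains both end letters 0 and N-1.
Rep sp x y f c: the function f is a sum of indicators of allowed boxes whose total weight
(x per special side with letter 0, y per special side with letter N-1) is at most c.
-/

set_option autoImplicit false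

namespace F95

/-- indicator of a box -/
def ind {K : Type} [Fintype K] {N : ℕ} (B : K → Finset (Fin N)) (w : K → Fin N) : ℕ :=
  if ∀ k, w k ∈ B k then 1 else 0

/-- the side contains the first letter -/
def has0 {N : ℕ} (s : Finset (Fin N)) : Prop := ∃ t ∈ s, (t : ℕ) = 0

/-- the side contains the last letter -/
def hasL {N : ℕ} (s : Finset (Fin N)) : Prop := ∃ t ∈ s, (t : ℕ) + 1 = N

instance {N : ℕ} (s : Finset (Fin N)) : Decidable (has0 s) := by unfold has0; infer_instance

instance {N : ℕ} (s : Finset (Fin N)) : Decidable (hasL s) := by unfold hasL; infer_instance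

/-- allowed boxes -/
def Ok {K : Type} {N : ℕ} (sp : K → Bool) (B : K → Finset (Fin N)) : Prop :=
  ∀ k, Odd (B k).card ∧ B k ≠ Finset.univ ∧ (sp k = true → ¬ (has0 (B k) ∧ hasL (B k)))

/-- number of special sides with the first letter -/
def ca {K : Type} [Fintype K] {N : ℕ} (sp : K → Bool) (B : K → Finset (Fin N)) : ℕ :=
  ∑ k, if sp k = true ∧ has0 (B k) then 1 else 0

/-- number of special sides with the last letter -/
def cb {K : Type} [Fintype K] {N : ℕ} (sp : K → Bool) (B : K → Finset (Fin N)) : ℕ :=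
  ∑ k, if sp k = true ∧ hasL (B k) then 1 else 0

/-- number of special coordinates -/
def cm {K : Type} [Fintype K] (sp : K → Bool) : ℕ := ∑ k, if sp k = true then 1 else 0

/-- number of plain coordinates -/
def cn {K : Type} [Fintype K] (sp : K → Bool) : ℕ := ∑ k, if sp k = true then 0 else 1

/-- f is a sum of indicators of allowed boxes of total weight at most c -/
def Rep {K : Type} [Fintype K] {N : ℕ} (sp : K → Bool) (x y : ℝ) (f : (K → Fin N) → ℕ) (c : ℝ) :
    Prop :=
  ∃ L : List (K → Finset (Fin N)), (∀ B ∈ L, Ok sp B) ∧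
    (∀ w, (L.map (fun B => ind B w)).sum = f w) ∧
    (L.map (fun B => x ^ ca sp B * y ^ cb sp B)).sum ≤ c

section
variable {K : Type} [Fintype K] {N : ℕ} {sp : K → Bool} {x y : ℝ}

theorem Rep.mono {f : (K → Fin N) → ℕ} {c d : ℝ} (h : Rep sp x y f c) (hcd : c ≤ d) :
    Rep sp x y f d := by
  obtain ⟨L, h1, h2, h3⟩ := h
  exact ⟨L, h1, h2, h3.trans hcd⟩

theorem Rep.congr {f g : (K → Fin N) → ℕ} {c : ℝ} (h : Rep sp x y f c) (hfg : ∀ w, f w = g w) :
    Rep sp x y g c := by
  obtain ⟨L, h1, h2, h3⟩ := h
  exact ⟨L, h1, fun w => (h2 w).trans (hfg w), h3⟩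

theorem rep_zero {c : ℝ} (hc : 0 ≤ c) : Rep (N := N) sp x y (fun _ => 0) c :=
  ⟨[], by simp, by simp, by simpa using hc⟩

theorem rep_box {B : K → Finset (Fin N)} (hB : Ok sp B) :
    Rep sp x y (ind B) (x ^ ca sp B * y ^ cb sp B) :=
  ⟨[B], by simpa using hB, by simp, by simp⟩

theorem Rep.add {f g : (K → Fin N) → ℕ} {c d : ℝ} (hf : Rep sp x y f c) (hg : Rep sp x y g d) :
    Rep sp x y (fun w => f w + g w) (c + d) := by
  obtain ⟨L, h1, h2, h3⟩ := hf
  obtain ⟨L', h1', h2', h3'⟩ := hg
  refine ⟨L ++ L', ?_, ?_, ?_⟩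
  · intro B hB
    rcases List.mem_append.1 hB with h | h
    · exact h1 B h
    · exact h1' B h
  · intro w
    rw [List.map_append, List.sum_append, h2, h2']
  · rw [List.map_append, List.sum_append]
    exact add_le_add h3 h3'

theorem rep_list_sum {ι : Type} (L : List ι) (f : ι → (K → Fin N) → ℕ) (c : ι → ℝ)
    (h : ∀ i ∈ L, Rep sp x y (f i) (c i)) :
    Rep sp x y (fun w => (L.map (fun i => f i w)).sum) (L.map c).sum := by
  induction L with
  | nil => simpa using rep_zero (sp := sp) (x := x) (y := y) (N := N) le_rfl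
  | cons a L ih =>
    have h1 := h a (by simp)
    have h2 := ih (fun i hi => h i (by simp [hi]))
    have h3 := h1.add h2
    simpa using h3

theorem rep_finset_sum {ι : Type} (s : Finset ι) (f : ι → (K → Fin N) → ℕ) (c : ι → ℝ)
    (h : ∀ i ∈ s, Rep sp x y (f i) (c i)) :
    Rep sp x y (fun w => ∑ i ∈ s, f i w) (∑ i ∈ s, c i) := by
  have h1 := rep_list_sum s.toList f c (fun i hi => h i (by simpa using hi))
  refine (h1.congr ?_).mono ?_
  · intro w
    exact (Finset.sum_map_toList s (fun i => f i w))
  · exact (Finset.sum_map_toList s c).le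

end

theorem ind_le_one {K : Type} [Fintype K] {N : ℕ} (B : K → Finset (Fin N)) (w : K → Fin N) :
    ind B w ≤ 1 := by
  unfold ind; split <;> simp

theorem ind_sum {K K' : Type} [Fintype K] [Fintype K'] {N : ℕ} (B : K → Finset (Fin N))
    (B' : K' → Finset (Fin N)) (w : K ⊕ K' → Fin N) :
    ind (Sum.elim B B') w = ind B (fun k => w (Sum.inl k)) * ind B' (fun k => w (Sum.inr k)) := by
  unfold ind
  by_cases h1 : ∀ k, w (Sum.inl k) ∈ B k
  · by_cases h2 : ∀ k, w (Sum.inr k) ∈ B' k
    · rw [if_pos, if_pos h1, if_pos h2]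
      rintro (k | k)
      · exact h1 k
      · exact h2 k
    · rw [if_neg, if_neg h2, mul_zero]
      intro h
      exact h2 (fun k => h (Sum.inr k))
  · rw [if_neg, if_neg h1, zero_mul]
    intro h
    exact h1 (fun k => h (Sum.inl k))

theorem ca_sum {K K' : Type} [Fintype K] [Fintype K'] {N : ℕ} (sp : K → Bool) (sp' : K' → Bool)
    (B : K → Finset (Fin N)) (B' : K' → Finset (Fin N)) :
    ca (Sum.elim sp sp') (Sum.elim B B') = ca sp B + ca sp' B' := by
  unfold ca
  rw [Fintype.sum_sum_type]
  rfl

theorem cb_sum {K K' : Type} [Fintype K] [Fintype K'] {N : ℕ} (sp : K → Bool) (sp' : K' → Bool)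
    (B : K → Finset (Fin N)) (B' : K' → Finset (Fin N)) :
    cb (Sum.elim sp sp') (Sum.elim B B') = cb sp B + cb sp' B' := by
  unfold cb
  rw [Fintype.sum_sum_type]
  rfl

theorem cm_sum {K K' : Type} [Fintype K] [Fintype K'] (sp : K → Bool) (sp' : K' → Bool) :
    cm (Sum.elim sp sp') = cm sp + cm sp' := by
  unfold cm
  rw [Fintype.sum_sum_type]
  rfl

theorem cn_sum {K K' : Type} [Fintype K] [Fintype K'] (sp : K → Bool) (sp' : K' → Bool) :
    cn (Sum.elim sp sp') = cn sp + cn sp' := by
  unfold cn
  rw [Fintype.sum_sum_type]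
  rfl

theorem ok_sum {K K' : Type} {N : ℕ} {sp : K → Bool} {sp' : K' → Bool}
    {B : K → Finset (Fin N)} {B' : K' → Finset (Fin N)} (h : Ok sp B) (h' : Ok sp' B') :
    Ok (Sum.elim sp sp') (Sum.elim B B') := by
  rintro (k | k)
  · exact h k
  · exact h' k

/-- tensor product -/
theorem Rep.tensor {K K' : Type} [Fintype K] [Fintype K'] {N : ℕ} {sp : K → Bool}
    {sp' : K' → Bool} {x y : ℝ} (hx : 0 ≤ x) (hy : 0 ≤ y) {f : (K → Fin N) → ℕ}
    {g : (K' → Fin N) → ℕ} {c d : ℝ}
    (hf : Rep sp x y f c) (hg : Rep sp' x y g d) :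
    Rep (Sum.elim sp sp') x y
      (fun w => f (fun k => w (Sum.inl k)) * g (fun k => w (Sum.inr k))) (c * d) := by
  obtain ⟨L, h1, h2, h3⟩ := hf
  obtain ⟨L', h1', h2', h3'⟩ := hg
  have key : Rep (Sum.elim sp sp') x y
      (fun w => (L.map (fun B => ind B (fun k => w (Sum.inl k)) *
        (L'.map (fun B' => ind B' (fun k => w (Sum.inr k)))).sum)).sum)
      (L.map (fun B => (x ^ ca sp B * y ^ cb sp B) *
        (L'.map (fun B' => x ^ ca sp' B' * y ^ cb sp' B')).sum)).sum := by
    apply rep_list_sum
    intro B hB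
    have h4 := rep_list_sum (sp := Sum.elim sp sp') (x := x) (y := y) L'
      (fun B' => ind (Sum.elim B B'))
      (fun B' => x ^ ca (Sum.elim sp sp') (Sum.elim B B') *
        y ^ cb (Sum.elim sp sp') (Sum.elim B B'))
      (fun B' hB' => rep_box (ok_sum (h1 B hB) (h1' B' hB')))
    refine (h4.congr ?_).mono ?_
    · intro w
      rw [← List.sum_map_mul_left]
      congr 1
      apply List.map_congr_left
      intro B' _
      exact ind_sum B B' w
    · rw [← List.sum_map_mul_left]
      apply le_of_eq
      congr 1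
      apply List.map_congr_left
      intro B' _
      rw [ca_sum, cb_sum, pow_add, pow_add]
      ring
  refine (key.congr ?_).mono ?_
  · intro w
    rw [List.sum_map_mul_right, h2, h2']
  · rw [List.sum_map_mul_right]
    have n1 : 0 ≤ (L.map (fun B => x ^ ca sp B * y ^ cb sp B)).sum := by
      apply List.sum_nonneg
      intro a ha
      obtain ⟨B, _, rfl⟩ := List.mem_map.1 ha
      positivity
    have n2 : 0 ≤ (L'.map (fun B' => x ^ ca sp' B' * y ^ cb sp' B')).sum := by
      apply List.sum_nonneg
      intro a ha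
      obtain ⟨B, _, rfl⟩ := List.mem_map.1 ha
      positivity
    exact mul_le_mul h3 h3' n2 (n1.trans h3)

/-- change of index type -/
theorem Rep.equiv {K K' : Type} [Fintype K] [Fintype K'] {N : ℕ} {sp : K → Bool}
    {x y : ℝ} {f : (K → Fin N) → ℕ} {c : ℝ} (e : K' ≃ K) (hf : Rep sp x y f c) :
    Rep (fun k => sp (e k)) x y (fun w => f (fun k => w (e.symm k))) c := by
  obtain ⟨L, h1, h2, h3⟩ := hf
  refine ⟨L.map (fun B k => B (e k)), ?_, ?_, ?_⟩
  · intro B hB
    obtain ⟨B0, hB0, rfl⟩ := List.mem_map.1 hB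
    intro k
    exact h1 B0 hB0 (e k)
  · intro w
    show _ = f fun k => w (e.symm k)
    rw [List.map_map, ← h2]
    congr 1
    apply List.map_congr_left
    intro B _
    simp only [Function.comp, ind]
    congr 1
    apply propext
    constructor
    · intro h k
      simpa using h (e.symm k)
    · intro h k
      simpa using h (e k)
  · rw [List.map_map]
    refine le_trans (le_of_eq ?_) h3
    congr 1
    apply List.map_congr_left
    intro B _
    simp only [Function.comp]
    congr 2
    · simp only [ca]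
      exact Equiv.sum_comp e (fun k => if sp k = true ∧ has0 (B k) then 1 else 0)
    · simp only [cb]
      exact Equiv.sum_comp e (fun k => if sp k = true ∧ hasL (B k) then 1 else 0)

/-- powers of the index type -/
def IPow (K : Type) : ℕ → Type
  | 0 => Empty
  | n + 1 => K ⊕ IPow K n

instance instFintypeIPow (K : Type) [Fintype K] : (n : ℕ) → Fintype (IPow K n)
  | 0 => (inferInstance : Fintype Empty)
  | n + 1 =>
    letI := instFintypeIPow K n
    (inferInstance : Fintype (K ⊕ IPow K n))

/-- special flags on the power -/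
def spow {K : Type} (sp : K → Bool) : (n : ℕ) → IPow K n → Bool
  | 0 => fun e => Empty.elim e
  | n + 1 => Sum.elim sp (spow sp n)

/-- sum of a block function over the blocks -/
def bsum {K : Type} {N : ℕ} (u : (K → Fin N) → ℕ) : (M : ℕ) → (IPow K M → Fin N) → ℕ
  | 0, _ => 0
  | M + 1, w => u (fun k => w (Sum.inl k)) + bsum u M (fun k => w (Sum.inr k))

end F95
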