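import Pool.Agent.W_f95cc0_h94.ShiftDef

set_option autoImplicit false

namespace F95

theorem GoodSg_card {N a b : ℕ} (hb : b ≤ N) (P : Fin N → Prop) [DecidablePred P]
    (hP : ∀ t : Fin N, P t ↔ a ≤ (t : ℕ) ∧ (t : ℕ) < b) :
    (Finset.univ.filter P).card = b - a := by
  rw [← Nat.card_Ico, ← Finset.card_map Fin.valEmbedding]
  congr 1
  ext x
  rw [Finset.mem_map, Finset.mem_Ico]
  constructor
  · rintro ⟨t, ht, rfl⟩
    exact (hP t).1 (Finset.mem_filter.1 ht).2
  · intro hx
    refine ⟨⟨x, by omega⟩, ?_, rfl⟩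
    rw [Finset.mem_filter]
    exact ⟨Finset.mem_univ _, (hP _).2 hx⟩

/-- TASK. The fibres: over 0 the set {t : t ≤ 2hp}, over 0<x<2h one element 2hp+x, over 2h the
set {t : 2hp+2h ≤ t ≤ 2hp'} (odd number since 2hp'-2hp-2h is even and nonnegative), over
2h<x<4h one element 2hp'+(x-2h), over 4h the set {t : 2hp'+2h ≤ t < Nt}. -/
theorem good_sg {h Nt p p' : ℕ} (hh : 1 ≤ h) (hN : Odd Nt) (hpp : p < p')
    (hp : 2 * h * p' + 2 * h + 1 ≤ Nt) :
    Good (sg h Nt p p') := by
  obtain ⟨r, hr⟩ := hN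
  obtain ⟨A, hA, m, hm⟩ : ∃ A, A = 2 * h * p ∧ ∃ m, A = 2 * m := ⟨2 * h * p, rfl, h * p, by ring⟩
  obtain ⟨C, hC, m', hm'⟩ : ∃ C, C = 2 * h * p' ∧ ∃ m, C = 2 * m :=
    ⟨2 * h * p', rfl, h * p', by ring⟩
  have hAC : A + 2 * h ≤ C := by
    have h1 : 2 * h * (p + 1) ≤ 2 * h * p' := Nat.mul_le_mul_left _ hpp
    rw [mul_add, mul_one] at h1
    omega
  rw [← hC] at hp
  have key : ∀ (t : Fin Nt) (s : Fin (4 * h + 1)), sg h Nt p p' t = s ↔
      min ((t : ℕ) - A) (2 * h) + min ((t : ℕ) - C) (2 * h) = (s : ℕ) := by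
    intro t s
    rw [Fin.ext_iff, hA, hC]
    rfl
  refine ⟨fun s => ?_, fun t ht => ?_, fun t ht => ?_⟩
  · have hs := s.2
    rcases Nat.eq_zero_or_pos (s : ℕ) with h0 | h0
    · rw [GoodSg_card (a := 0) (b := A + 1) (by omega) _ (fun t => by
        rw [key, h0]
        omega)]
      exact ⟨m, by omega⟩
    · rcases Nat.lt_trichotomy (s : ℕ) (2 * h) with h1 | h1 | h1
      · rw [GoodSg_card (a := A + (s : ℕ)) (b := A + (s : ℕ) + 1) (by omega) _
          (fun t => by
            rw [key]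
            omega)]
        exact ⟨0, by omega⟩
      · rw [GoodSg_card (a := A + 2 * h) (b := C + 1) (by omega) _
          (fun t => by
            rw [key]
            omega)]
        exact ⟨m' - m - h, by omega⟩
      · by_cases h2 : (s : ℕ) < 4 * h
        · rw [GoodSg_card (a := C + ((s : ℕ) - 2 * h)) (b := C + ((s : ℕ) - 2 * h) + 1)
            (by omega) _
            (fun t => by
              rw [key]
              omega)]
          exact ⟨0, by omega⟩
        · rw [GoodSg_card (a := C + 2 * h) (b := Nt) le_rfl _ (fun t => by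
            have := t.2
            rw [key]
            omega)]
          exact ⟨r - m' - h, by omega⟩
  · show min ((t : ℕ) - 2 * h * p) (2 * h) + min ((t : ℕ) - 2 * h * p') (2 * h) = 0
    rw [← hA, ← hC, ht]
    omega
  · show min ((t : ℕ) - 2 * h * p) (2 * h) + min ((t : ℕ) - 2 * h * p') (2 * h) + 1 = 4 * h + 1
    rw [← hA, ← hC]
    omega

end F95
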