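import Pool.Agent.W_f95cc0_h94.Basic

set_option autoImplicit false

namespace F95

theorem Points_ok {K : Type} {N : ℕ} (hN : 3 ≤ N) (sp : K → Bool) (v : K → Fin N) :
    Ok sp (fun k => ({v k} : Finset (Fin N))) := by
  intro k
  refine ⟨?_, ?_, ?_⟩
  · rw [Finset.card_singleton]
    exact odd_one
  · intro h
    have h1 := congrArg Finset.card h
    rw [Finset.card_singleton, Finset.card_univ, Fintype.card_fin] at h1
    omega
  · rintro - ⟨⟨t, ht, ht0⟩, ⟨u, hu, huL⟩⟩
    rw [Finset.mem_singleton] at ht hu
    subst ht
    subst hu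
    omega

theorem Points_ind {K : Type} [Fintype K] {N : ℕ} (v w : K → Fin N) :
    ind (fun k => ({v k} : Finset (Fin N))) w = if v = w then 1 else 0 := by
  unfold ind
  congr 1
  apply propext
  constructor
  · intro h
    funext k
    exact (Finset.mem_singleton.1 (h k)).symm
  · rintro rfl k
    exact Finset.mem_singleton_self _

theorem Points_ca_le {K : Type} [Fintype K] {N : ℕ} (sp : K → Bool) (B : K → Finset (Fin N)) :
    ca sp B ≤ Fintype.card K := by
  unfold ca
  refine (Finset.sum_le_card_nsmul Finset.univ _ 1 fun k _ => ?_).trans ?_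
  · split_ifs <;> omega
  · simp

theorem Points_cb_le {K : Type} [Fintype K] {N : ℕ} (sp : K → Bool) (B : K → Finset (Fin N)) :
    cb sp B ≤ Fintype.card K := by
  unfold cb
  refine (Finset.sum_le_card_nsmul Finset.univ _ 1 fun k _ => ?_).trans ?_
  · split_ifs <;> omega
  · simp

/-- TASK. Every function with values in {0,1} is the sum of the indicators of the one point boxes
B k = {w k} over the points w with f w = 1; these boxes are allowed because N is at least 3, their
weight is at most (x*y)^card K, their number at most N^card K. -/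
theorem rep_points {K : Type} [Fintype K] {N : ℕ} (hN : 3 ≤ N) (sp : K → Bool) {x y : ℝ}
    (hx : 1 ≤ x) (hy : 1 ≤ y) (f : (K → Fin N) → ℕ) (hf : ∀ w, f w ≤ 1) :
    Rep sp x y f ((N : ℝ) ^ Fintype.card K * (x * y) ^ Fintype.card K) := by
  classical
  have h1 := rep_finset_sum (sp := sp) (x := x) (y := y)
    (Finset.univ.filter fun v : K → Fin N => f v = 1)
    (fun v => ind (fun k => ({v k} : Finset (Fin N))))
    (fun v => x ^ ca sp (fun k => ({v k} : Finset (Fin N))) *
      y ^ cb sp (fun k => ({v k} : Finset (Fin N))))
    (fun v _ => rep_box (Points_ok hN sp v))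
  refine (h1.congr ?_).mono ?_
  · intro w
    rw [Finset.sum_congr rfl fun v _ => Points_ind v w, Finset.sum_ite_eq']
    rcases Nat.le_one_iff_eq_zero_or_eq_one.1 (hf w) with h | h
    · rw [if_neg, h]
      simp [h]
    · rw [if_pos, h]
      simp [h]
  · have h2 : ∀ v ∈ Finset.univ.filter (fun v : K → Fin N => f v = 1),
        x ^ ca sp (fun k => ({v k} : Finset (Fin N))) *
          y ^ cb sp (fun k => ({v k} : Finset (Fin N))) ≤ (x * y) ^ Fintype.card K := by
      intro v _
      rw [mul_pow]
      have h3 := pow_le_pow_right₀ hx (Points_ca_le sp (fun k => ({v k} : Finset (Fin N))))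
      have h4 := pow_le_pow_right₀ hy (Points_cb_le sp (fun k => ({v k} : Finset (Fin N))))
      exact mul_le_mul h3 h4 (by positivity) (by positivity)
    refine (Finset.sum_le_card_nsmul _ _ _ h2).trans ?_
    rw [nsmul_eq_mul]
    refine mul_le_mul_of_nonneg_right ?_ (by positivity)
    have h5 : (Finset.univ.filter fun v : K → Fin N => f v = 1).card ≤ N ^ Fintype.card K := by
      refine (Finset.card_le_univ _).trans ?_
      rw [Fintype.card_fun, Fintype.card_fin]
    exact_mod_cast h5

end F95
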