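import Pool.Agent.W_f95cc0_h94.ShiftDef

set_option autoImplicit false

namespace F95

theorem ShfEasy_mul {h p p' : ℕ} (hpp : p < p') : 2 * h * p + 2 * h ≤ 2 * h * p' := by
  have h1 : 2 * h * (p + 1) ≤ 2 * h * p' := Nat.mul_le_mul_left _ hpp
  rw [Nat.mul_succ] at h1
  exact h1

/-- TASK. easy -/
theorem shf_of_sg {h Nt p p' : ℕ} (hpp : p < p') (t : Fin Nt) :
    ((shf h Nt p t : Fin (2 * h + 1)) : ℕ) = min (sg h Nt p p' t : ℕ) (2 * h) ∧
    ((shf h Nt p' t : Fin (2 * h + 1)) : ℕ) = (sg h Nt p p' t : ℕ) - 2 * h := by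
  have h1 := ShfEasy_mul (h := h) hpp
  show min ((t : ℕ) - 2 * h * p) (2 * h) =
      min (min ((t : ℕ) - 2 * h * p) (2 * h) + min ((t : ℕ) - 2 * h * p') (2 * h)) (2 * h) ∧
    min ((t : ℕ) - 2 * h * p') (2 * h) =
      min ((t : ℕ) - 2 * h * p) (2 * h) + min ((t : ℕ) - 2 * h * p') (2 * h) - 2 * h
  generalize 2 * h * p = u at h1 ⊢
  generalize 2 * h * p' = u' at h1 ⊢
  omega

/-- TASK. easy: if the value at p is not the last letter then t < 2hp+2h ≤ 2hp' -/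
theorem shf_zero_of_ne {h Nt p p' : ℕ} (hpp : p < p') (t : Fin Nt)
    (ht : ((shf h Nt p t : Fin (2 * h + 1)) : ℕ) ≠ 2 * h) :
    ((shf h Nt p' t : Fin (2 * h + 1)) : ℕ) = 0 := by
  have h1 := ShfEasy_mul (h := h) hpp
  have ht' : min ((t : ℕ) - 2 * h * p) (2 * h) ≠ 2 * h := ht
  show min ((t : ℕ) - 2 * h * p') (2 * h) = 0
  generalize 2 * h * p = u at h1 ht' ⊢
  generalize 2 * h * p' = u' at h1 ⊢
  omega

end F95
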