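import Pool.Agent.W_f95cc0_h94.ChainDef
import Pool.Agent.W_f95cc0_h94.GoodSg
import Pool.Agent.W_f95cc0_h94.ShfEasy
import Pool.Agent.W_f95cc0_h94.Points

set_option autoImplicit false

namespace F95

section
variable {K : Type} [Fintype K] {sp : K → Bool} {h : ℕ}
  {P1 P2 : List (K → Finset (Fin (2 * h + 1)))} {R Nt : ℕ}

/-- TASK. Block region: it is the pull back under sg h Nt p p' of a function with values in {0,1}
on (K -> Fin (4h+1)) (by shf_of_sg), so Rep.pull, good_sg and rep_points. -/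
theorem rep_block (hh : 1 ≤ h) (hN : Odd Nt) (hNt : 2 * h * R + 2 * h + 1 ≤ Nt) {x y : ℝ}
    (hx : 1 ≤ x) (hy : 1 ≤ y) {p p' : ℕ} (hpp : p < p') (hp : p' ≤ R) (tau : ℕ) :
    Rep sp x y (fun w => if vv sp h P1 P2 R Nt p w < tau ∧ tau ≤ vv sp h P1 P2 R Nt p' w
      then 1 else 0)
      (((4 * h + 1 : ℕ) : ℝ) ^ Fintype.card K * (x * y) ^ Fintype.card K) := by
  have hp' : 2 * h * p' + 2 * h + 1 ≤ Nt := by
    have h1 : 2 * h * p' ≤ 2 * h * R := Nat.mul_le_mul_left _ hp
    omega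
  let a : (K → Fin (4 * h + 1)) → K → Fin (2 * h + 1) := fun z k =>
    ⟨min (z k : ℕ) (2 * h), Nat.lt_succ_of_le (min_le_right _ _)⟩
  let b : (K → Fin (4 * h + 1)) → K → Fin (2 * h + 1) := fun z k =>
    ⟨(z k : ℕ) - 2 * h, by have := (z k).2; omega⟩
  have h1 := rep_points (N := 4 * h + 1) (by omega) sp hx hy
    (fun z => if vz sp h P1 P2 R p (a z) < tau ∧ tau ≤ vz sp h P1 P2 R p' (b z) then 1 else 0)
    (fun z => by split_ifs <;> simp)
  have h2 := Rep.pull hx hy (good_sg hh hN hpp hp') h1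
  refine h2.congr ?_
  intro w
  have ea : a (fun k => sg h Nt p p' (w k)) = fun k => shf h Nt p (w k) := by
    funext k
    exact Fin.ext (shf_of_sg hpp (w k)).1.symm
  have eb : b (fun k => sg h Nt p p' (w k)) = fun k => shf h Nt p' (w k) := by
    funext k
    exact Fin.ext (shf_of_sg hpp (w k)).2.symm
  show (if vz sp h P1 P2 R p (a (fun k => sg h Nt p p' (w k))) < tau ∧
    tau ≤ vz sp h P1 P2 R p' (b (fun k => sg h Nt p p' (w k))) then 1 else 0) = _
  rw [ea, eb]
  rfl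

end

end F95
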