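import Pool.Agent.W_f95cc0_h94.Basic

set_option autoImplicit false

namespace F95

/-- a list of allowed boxes with values which partitions the block space, u is constant on every
box with the given value -/
structure Lev {K : Type} [Fintype K] {N : ℕ} (sp : K → Bool) (u : (K → Fin N) → ℕ)
    (L : List ((K → Finset (Fin N)) × ℕ)) : Prop where
  ok : ∀ b ∈ L, Ok sp b.1
  one : ∀ w, (L.map (fun b => ind b.1 w)).sum = 1
  val : ∀ b ∈ L, ∀ w, (∀ k, w k ∈ b.1 k) → u w = b.2

/-- TASK. Each term equals ind b.1 w * g (u w). -/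
theorem lev_expand {K : Type} [Fintype K] {N : ℕ} {sp : K → Bool} {u : (K → Fin N) → ℕ}
    {L : List ((K → Finset (Fin N)) × ℕ)} (h : Lev sp u L) (g : ℕ → ℕ) (w : K → Fin N) :
    (L.map (fun b => ind b.1 w * g b.2)).sum = g (u w) := by
  have h1 : L.map (fun b => ind b.1 w * g b.2) = L.map (fun b => ind b.1 w * g (u w)) := by
    apply List.map_congr_left
    intro b hb
    by_cases hw : ∀ k, w k ∈ b.1 k
    · rw [h.val b hb w hw]
    · have : ind b.1 w = 0 := by
        unfold ind
        rw [if_neg hw]
      rw [this, zero_mul, zero_mul]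
  rw [h1, List.sum_map_mul_right, h.one w, one_mul]

end F95
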