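import Pool.Agent.W_f95cc0_h94.ShiftDef
import Pool.Agent.W_f95cc0_h94.LevDef

set_option autoImplicit false

namespace F95

section
variable {K : Type} [Fintype K] (sp : K → Bool) (h : ℕ)
  (P1 P2 : List (K → Finset (Fin (2 * h + 1)))) (R Nt : ℕ)

/-- chain functions on the small alphabet -/
def vz (p : ℕ) (z : K → Fin (2 * h + 1)) : ℕ :=
  if p = 0 then 0 else if p = R then cm sp else
  if p % 2 = 0 then (P1.map (fun B => ind B z * ca sp B)).sum
  else (P2.map (fun B => ind B z * (cm sp - cb sp B))).sum

/-- chain functions on the big alphabet -/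
def vv (p : ℕ) (w : K → Fin Nt) : ℕ := vz sp h P1 P2 R p (fun k => shf h Nt p (w k))

/-- the level lists of the chain functions -/
def LL (p : ℕ) : List ((K → Finset (Fin Nt)) × ℕ) :=
  if p % 2 = 0 then P1.map (fun B => (pull (shf h Nt p) B, if p = 0 then 0 else ca sp B))
  else P2.map (fun B => (pull (shf h Nt p) B, if p = R then cm sp else cm sp - cb sp B))

end

end F95
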