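import Pool.Agent.W_f95cc0_h94.ShiftDef

set_option autoImplicit false

namespace F95

theorem GoodShf_card {N a b : ℕ} (hb : b ≤ N) (P : Fin N → Prop) [DecidablePred P]
    (hP : ∀ t : Fin N, P t ↔ a ≤ (t : ℕ) ∧ (t : ℕ) < b) :
    (Finset.univ.filter P).card = b - a := by
  rw [← Nat.card_Ico, ← Finset.card_map Fin.valEmbedding]
  congr 1
  ext x
  rw [Finset.mem_map, Finset.mem_Ico]
  constructor
  · rintro ⟨t, ht, rfl⟩
    exact (hP t).1 (Finset.mem_filter.1 ht).2
  · intro hx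
    refine ⟨⟨x, by omega⟩, ?_, rfl⟩
    rw [Finset.mem_filter]
    exact ⟨Finset.mem_univ _, (hP _).2 hx⟩

/-- TASK. The fibres: over 0 the set {t : t ≤ 2hp} (2hp+1 elements), over 0<x<2h one element
2hp+x, over 2h the set {t : 2hp+2h ≤ t < Nt}, with Nt-2hp-2h elements (odd). -/
theorem good_shf {h Nt p : ℕ} (hh : 1 ≤ h) (hN : Odd Nt) (hp : 2 * h * p + 2 * h + 1 ≤ Nt) :
    Good (shf h Nt p) := by
  obtain ⟨r, hr⟩ := hN
  obtain ⟨m, hm⟩ : ∃ m, 2 * h * p = 2 * m := ⟨h * p, by ring⟩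
  refine ⟨fun s => ?_, fun t ht => ?_, fun t ht => ?_⟩
  · have hs := s.2
    have key : ∀ t : Fin Nt, shf h Nt p t = s ↔ min ((t : ℕ) - 2 * h * p) (2 * h) = (s : ℕ) := by
      intro t
      rw [Fin.ext_iff]
      rfl
    rcases Nat.eq_zero_or_pos (s : ℕ) with h0 | h0
    · rw [GoodShf_card (a := 0) (b := 2 * h * p + 1) (by omega) _ (fun t => by
        rw [key, h0]
        omega)]
      exact ⟨m, by omega⟩
    · by_cases h1 : (s : ℕ) < 2 * h
      · rw [GoodShf_card (a := 2 * h * p + (s : ℕ)) (b := 2 * h * p + (s : ℕ) + 1) (by omega) _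
          (fun t => by
            rw [key]
            omega)]
        exact ⟨0, by omega⟩
      · rw [GoodShf_card (a := 2 * h * p + 2 * h) (b := Nt) le_rfl _ (fun t => by
          have := t.2
          rw [key]
          omega)]
        exact ⟨r - m - h, by omega⟩
  · show min ((t : ℕ) - 2 * h * p) (2 * h) = 0
    omega
  · show min ((t : ℕ) - 2 * h * p) (2 * h) + 1 = 2 * h + 1
    omega

end F95
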