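import Pool.Agent.W_f95cc0_h94.ChainDef
import Pool.Agent.W_f95cc0_h94.GoodShf

set_option autoImplicit false

namespace F95

section
variable {K : Type} [Fintype K] {sp : K → Bool} {h : ℕ}
  {P1 P2 : List (K → Finset (Fin (2 * h + 1)))} {R Nt : ℕ}

theorem LLw_good (hh : 1 ≤ h) (hN : Odd Nt) (hNt : 2 * h * R + 2 * h + 1 ≤ Nt) {p : ℕ}
    (hp : p ≤ R) : Good (shf h Nt p) := by
  refine good_shf hh hN (le_trans ?_ hNt)
  have : 2 * h * p ≤ 2 * h * R := Nat.mul_le_mul_left _ hp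
  omega

theorem LLw_pull {x y : ℝ} (hx : 1 ≤ x) (hy : 1 ≤ y) {p : ℕ} (hg : Good (shf h Nt p))
    (B : K → Finset (Fin (2 * h + 1))) :
    x ^ ca sp (pull (shf h Nt p) B) * y ^ cb sp (pull (shf h Nt p) B) ≤
      x ^ ca sp B * y ^ cb sp B :=
  mul_le_mul (pow_le_pow_right₀ hx (ca_pull_le sp hg B))
    (pow_le_pow_right₀ hy (cb_pull_le sp hg B)) (by positivity) (by positivity)

theorem LLw_cb_le {N : ℕ} (B : K → Finset (Fin N)) : cb sp B ≤ cm sp := by
  unfold cb cm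
  refine Finset.sum_le_sum fun k _ => ?_
  by_cases h1 : sp k = true ∧ hasL (B k)
  · rw [if_pos h1, if_pos h1.1]
  · rw [if_neg h1]
    exact Nat.zero_le _

/-- TASK. weights, even positions: by ca_pull_le, cb_pull_le, 1 ≤ x,y,rho -/
theorem LL_even {x y rho Lam : ℝ} (hh : 1 ≤ h) (hN : Odd Nt)
    (hNt : 2 * h * R + 2 * h + 1 ≤ Nt) (hx : 1 ≤ x) (hy : 1 ≤ y) (hr : 1 ≤ rho)
    (hL : (P1.map (fun B => (x * rho) ^ ca sp B * y ^ cb sp B)).sum ≤ Lam) {p : ℕ}
    (hp : p ≤ R) (hpe : p % 2 = 0) :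
    ((LL sp h P1 P2 R Nt p).map
      (fun b => x ^ ca sp b.1 * y ^ cb sp b.1 * rho ^ b.2)).sum ≤ Lam := by
  have hg := LLw_good (h := h) (R := R) hh hN hNt hp
  unfold LL
  rw [if_pos hpe, List.map_map]
  refine le_trans (List.sum_le_sum fun B _ => ?_) hL
  simp only [Function.comp]
  have h1 := LLw_pull (sp := sp) hx hy hg B
  have h2 : rho ^ (if p = 0 then 0 else ca sp B) ≤ rho ^ ca sp B := by
    refine pow_le_pow_right₀ hr ?_
    split_ifs
    · exact Nat.zero_le _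
    · exact le_rfl
  calc x ^ ca sp (pull (shf h Nt p) B) * y ^ cb sp (pull (shf h Nt p) B) *
        rho ^ (if p = 0 then 0 else ca sp B)
      ≤ (x ^ ca sp B * y ^ cb sp B) * rho ^ ca sp B :=
        mul_le_mul h1 h2 (by positivity) (by positivity)
    _ = (x * rho) ^ ca sp B * y ^ cb sp B := by rw [mul_pow]; ring

/-- TASK. weights, odd positions; cb sp B ≤ cm sp -/
theorem LL_odd {x y rho Lam : ℝ} (hh : 1 ≤ h) (hN : Odd Nt)
    (hNt : 2 * h * R + 2 * h + 1 ≤ Nt) (hx : 1 ≤ x) (hy : 1 ≤ y) (hr : 1 ≤ rho)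
    (hL : (P2.map (fun B => x ^ ca sp B * (y * rho) ^ cb sp B)).sum ≤ Lam) {p : ℕ}
    (hp : p ≤ R) (hpo : p % 2 = 1) :
    ((LL sp h P1 P2 R Nt p).map
      (fun b => x ^ ca sp b.1 * y ^ cb sp b.1 * (rho⁻¹) ^ b.2)).sum ≤ Lam / rho ^ cm sp := by
  have hg := LLw_good (h := h) (R := R) hh hN hNt hp
  have hr0 : 0 < rho := by linarith
  have hri : rho⁻¹ ≤ 1 := inv_le_one_of_one_le₀ hr
  unfold LL
  rw [if_neg (by omega), List.map_map]
  have hL' : (P2.map (fun B => x ^ ca sp B * (y * rho) ^ cb sp B * (rho ^ cm sp)⁻¹)).sum ≤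
      Lam / rho ^ cm sp := by
    rw [List.sum_map_mul_right, div_eq_mul_inv]
    exact mul_le_mul_of_nonneg_right hL (by positivity)
  refine le_trans (List.sum_le_sum fun B _ => ?_) hL'
  simp only [Function.comp]
  have h1 := LLw_pull (sp := sp) hx hy hg B
  have hcb := LLw_cb_le (sp := sp) B
  have h2 : rho⁻¹ ^ (if p = R then cm sp else cm sp - cb sp B) ≤
      rho⁻¹ ^ (cm sp - cb sp B) := by
    refine pow_le_pow_of_le_one (by positivity) hri ?_
    split_ifs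
    · exact Nat.sub_le _ _
    · exact le_rfl
  have h3 : rho⁻¹ ^ (cm sp - cb sp B) = rho ^ cb sp B * (rho ^ cm sp)⁻¹ := by
    have h4 : rho ^ cm sp = rho ^ (cm sp - cb sp B) * rho ^ cb sp B := by
      rw [← pow_add]
      congr 1
      omega
    rw [h4, inv_pow]
    field_simp
  calc x ^ ca sp (pull (shf h Nt p) B) * y ^ cb sp (pull (shf h Nt p) B) *
        rho⁻¹ ^ (if p = R then cm sp else cm sp - cb sp B)
      ≤ (x ^ ca sp B * y ^ cb sp B) * rho⁻¹ ^ (cm sp - cb sp B) :=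
        mul_le_mul h1 h2 (by positivity) (by positivity)
    _ = x ^ ca sp B * (y * rho) ^ cb sp B * (rho ^ cm sp)⁻¹ := by
        rw [h3, mul_pow]
        ring

/-- TASK. weights without tilt -/
theorem LL_all {x y rho Lam : ℝ} (hh : 1 ≤ h) (hN : Odd Nt)
    (hNt : 2 * h * R + 2 * h + 1 ≤ Nt) (hx : 1 ≤ x) (hy : 1 ≤ y) (hr : 1 ≤ rho)
    (hL1 : (P1.map (fun B => (x * rho) ^ ca sp B * y ^ cb sp B)).sum ≤ Lam)
    (hL2 : (P2.map (fun B => x ^ ca sp B * (y * rho) ^ cb sp B)).sum ≤ Lam) {p : ℕ}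
    (hp : p ≤ R) :
    ((LL sp h P1 P2 R Nt p).map
      (fun b => x ^ ca sp b.1 * y ^ cb sp b.1 * (1 : ℝ) ^ b.2)).sum ≤ Lam := by
  have hg := LLw_good (h := h) (R := R) hh hN hNt hp
  unfold LL
  by_cases hpe : p % 2 = 0
  · rw [if_pos hpe, List.map_map]
    refine le_trans (List.sum_le_sum fun B _ => ?_) hL1
    simp only [Function.comp, one_pow, mul_one]
    refine (LLw_pull (sp := sp) hx hy hg B).trans ?_
    refine mul_le_mul_of_nonneg_right ?_ (by positivity)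
    refine pow_le_pow_left₀ (by positivity) ?_ _
    nlinarith
  · rw [if_neg hpe, List.map_map]
    refine le_trans (List.sum_le_sum fun B _ => ?_) hL2
    simp only [Function.comp, one_pow, mul_one]
    refine (LLw_pull (sp := sp) hx hy hg B).trans ?_
    refine mul_le_mul_of_nonneg_left ?_ (by positivity)
    refine pow_le_pow_left₀ (by positivity) ?_ _
    nlinarith

end

end F95
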