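import Pool.Agent.W_f95cc0_h94.Basic

set_option autoImplicit false

namespace F95

section

theorem Pick_zero {α : Type} (L : List α) (f g : α → ℕ) (h : (L.map f).sum = 0) :
    (L.map (fun a => f a * g a)).sum = 0 := by
  induction L with
  | nil => simp
  | cons a L ih =>
    rw [List.map_cons, List.sum_cons] at h
    have h1 : f a = 0 := by omega
    have h2 : (L.map f).sum = 0 := by omega
    rw [List.map_cons, List.sum_cons, ih h2, h1, zero_mul]

theorem Pick_aux {α : Type} (L : List α) (f g : α → ℕ) (h : (L.map f).sum = 1) {b : α}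
    (hb : b ∈ L) (hf : f b = 1) : (L.map (fun a => f a * g a)).sum = g b := by
  induction L with
  | nil => simp at hb
  | cons a L ih =>
    rw [List.map_cons, List.sum_cons] at h
    rw [List.map_cons, List.sum_cons]
    rcases List.mem_cons.1 hb with rfl | hb
    · have h2 : (L.map f).sum = 0 := by omega
      rw [Pick_zero L f g h2, hf, one_mul, add_zero]
    · have h3 : f b ≤ (L.map f).sum := List.single_le_sum (by simp) _ (List.mem_map_of_mem hb)
      have h1 : f a = 0 := by omega
      rw [ih (by omega) hb, h1, zero_mul, zero_add]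

end

section
variable {K : Type} [Fintype K]

/-- TASK. If z is in the box B of the partition P then the sum over P of ind B' z * g B' is g B
(only one indicator is nonzero). -/
theorem sum_pick {N : ℕ} {P : List (K → Finset (Fin N))}
    (hP : ∀ z, (P.map (fun B => ind B z)).sum = 1) (g : (K → Finset (Fin N)) → ℕ)
    {B : K → Finset (Fin N)} (hB : B ∈ P) {z : K → Fin N} (hz : ∀ k, z k ∈ B k) :
    (P.map (fun B' => ind B' z * g B')).sum = g B := by
  refine Pick_aux P (fun B' => ind B' z) g (hP z) hB ?_
  unfold ind
  rw [if_pos hz]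

/-- TASK. every point is in a box of the partition -/
theorem exists_box {N : ℕ} {P : List (K → Finset (Fin N))}
    (hP : ∀ z, (P.map (fun B => ind B z)).sum = 1) (z : K → Fin N) :
    ∃ B ∈ P, ∀ k, z k ∈ B k := by
  by_contra hcon
  push Not at hcon
  have h0 : (P.map (fun B => ind B z)).sum = 0 := by
    refine List.sum_eq_zero ?_
    intro x hx
    obtain ⟨B, hB, rfl⟩ := List.mem_map.1 hx
    obtain ⟨k, hk⟩ := hcon B hB
    unfold ind
    rw [if_neg]
    intro h
    exact hk (h k)
  rw [hP z] at h0
  exact one_ne_zero h0

end

end F95
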