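import Pool.Agent.W_f95cc0_h94.ChainDef
import Pool.Agent.W_f95cc0_h94.Pick
import Pool.Agent.W_f95cc0_h94.GoodShf

set_option autoImplicit false

namespace F95

section
variable {K : Type} [Fintype K] {sp : K → Bool} {h : ℕ}
  {P1 P2 : List (K → Finset (Fin (2 * h + 1)))} {R Nt : ℕ}

/-- pulled back level lists -/
theorem LevLL_pull {σ : Fin Nt → Fin (2 * h + 1)} (hσ : Good σ)
    {P : List (K → Finset (Fin (2 * h + 1)))} (ho : ∀ B ∈ P, Ok sp B)
    (h1 : ∀ z, (P.map (fun B => ind B z)).sum = 1) {u : (K → Fin Nt) → ℕ}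
    (g : (K → Finset (Fin (2 * h + 1))) → ℕ)
    (hg : ∀ B ∈ P, ∀ w : K → Fin Nt, (∀ k, σ (w k) ∈ B k) → u w = g B) :
    Lev sp u (P.map (fun B => (pull σ B, g B))) := by
  refine ⟨?_, ?_, ?_⟩
  · intro b hb
    obtain ⟨B, hB, rfl⟩ := List.mem_map.1 hb
    exact ok_pull hσ (ho B hB)
  · intro w
    rw [List.map_map]
    refine Eq.trans ?_ (h1 (fun k => σ (w k)))
    congr 1
    apply List.map_congr_left
    intro B _
    exact ind_pull σ B w
  · intro b hb w hw
    obtain ⟨B, hB, rfl⟩ := List.mem_map.1 hb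
    refine hg B hB w fun k => ?_
    have h2 := hw k
    simp only [pull, Finset.mem_filter, Finset.mem_univ, true_and] at h2
    exact h2

/-- TASK. level lists: ok by ok_pull and good_shf, one by ind_pull, val by sum_pick -/
theorem lev_LL (hh : 1 ≤ h) (hR : Odd R) (hN : Odd Nt) (hNt : 2 * h * R + 2 * h + 1 ≤ Nt)
    (ho1 : ∀ B ∈ P1, Ok sp B) (ho2 : ∀ B ∈ P2, Ok sp B)
    (h1 : ∀ z, (P1.map (fun B => ind B z)).sum = 1)
    (h2 : ∀ z, (P2.map (fun B => ind B z)).sum = 1) {p : ℕ} (hp : p ≤ R) :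
    Lev sp (vv sp h P1 P2 R Nt p) (LL sp h P1 P2 R Nt p) := by
  have hgood : Good (shf h Nt p) := by
    refine good_shf hh hN ?_
    have := Nat.mul_le_mul_left (2 * h) hp
    omega
  have hR2 : R % 2 = 1 := Nat.odd_iff.1 hR
  unfold LL
  by_cases hpe : p % 2 = 0
  · rw [if_pos hpe]
    refine LevLL_pull hgood ho1 h1 (fun B => if p = 0 then 0 else ca sp B) ?_
    intro B hB w hw
    unfold vv vz
    by_cases hp0 : p = 0
    · rw [if_pos hp0, if_pos hp0]
    · have hpR : p ≠ R := by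
        rintro rfl
        omega
      rw [if_neg hp0, if_neg hpR, if_pos hpe, if_neg hp0]
      exact sum_pick h1 (fun B => ca sp B) hB hw
  · rw [if_neg hpe]
    refine LevLL_pull hgood ho2 h2 (fun B => if p = R then cm sp else cm sp - cb sp B) ?_
    intro B hB w hw
    have hp0 : p ≠ 0 := by
      rintro rfl
      exact hpe rfl
    unfold vv vz
    rw [if_neg hp0]
    by_cases hpR : p = R
    · rw [if_pos hpR, if_pos hpR]
    · rw [if_neg hpR, if_neg hpe, if_neg hpR]
      exact sum_pick h2 (fun B => cm sp - cb sp B) hB hw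

end

end F95
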