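import Pool.Agent.W_f95cc0_h94.ChainDef
import Pool.Agent.W_f95cc0_h94.Pick

set_option autoImplicit false

namespace F95

theorem VvLe_ca_le {K : Type} [Fintype K] {N : ℕ} (sp : K → Bool) (B : K → Finset (Fin N)) :
    ca sp B ≤ cm sp := by
  unfold ca cm
  refine Finset.sum_le_sum fun k _ => ?_
  by_cases h : sp k = true ∧ has0 (B k)
  · rw [if_pos h, if_pos h.1]
  · rw [if_neg h]
    exact Nat.zero_le _

theorem VvLe_sum {K : Type} [Fintype K] {N : ℕ} {P : List (K → Finset (Fin N))}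
    (hP : ∀ z, (P.map (fun B => ind B z)).sum = 1) (g : (K → Finset (Fin N)) → ℕ) (c : ℕ)
    (hg : ∀ B, g B ≤ c) (z : K → Fin N) : (P.map (fun B => ind B z * g B)).sum ≤ c := by
  calc (P.map (fun B => ind B z * g B)).sum ≤ (P.map (fun B => ind B z * c)).sum :=
        List.sum_le_sum fun B _ => Nat.mul_le_mul_left _ (hg B)
    _ = c := by rw [List.sum_map_mul_right, hP z, one_mul]

section
variable {K : Type} [Fintype K] {sp : K → Bool} {h : ℕ}
  {P1 P2 : List (K → Finset (Fin (2 * h + 1)))} {R Nt : ℕ}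

/-- TASK. values are at most cm sp -/
theorem vv_le (hR : Odd R)
    (h1 : ∀ z, (P1.map (fun B => ind B z)).sum = 1)
    (h2 : ∀ z, (P2.map (fun B => ind B z)).sum = 1) (p : ℕ) (w : K → Fin Nt) :
    vv sp h P1 P2 R Nt p w ≤ cm sp := by
  have _ := hR
  unfold vv vz
  split_ifs
  · exact Nat.zero_le _
  · exact le_rfl
  · exact VvLe_sum h1 (fun B => ca sp B) _ (fun B => VvLe_ca_le sp B) _
  · exact VvLe_sum h2 (fun B => cm sp - cb sp B) _ (fun B => Nat.sub_le _ _) _

end

end F95
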