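import Pool.Agent.W_f95cc0_h94.ChainDef
import Pool.Agent.W_f95cc0_h94.Pick
import Pool.Agent.W_f95cc0_h94.ShfEasy
import Pool.Agent.W_f95cc0_h94.VvLe

set_option autoImplicit false

namespace F95

section
variable {K : Type} [Fintype K] {sp : K → Bool} {h : ℕ}
  {P1 P2 : List (K → Finset (Fin (2 * h + 1)))} {R Nt : ℕ}

theorem vvMono_upper (ho1 : ∀ B ∈ P1, Ok sp B)
    (h1 : ∀ z, (P1.map (fun B => ind B z)).sum = 1)
    (h2 : ∀ z, (P2.map (fun B => ind B z)).sum = 1) {p : ℕ} (hp0 : p ≠ 0) (hpR : p ≠ R)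
    (z : K → Fin (2 * h + 1)) :
    vz sp h P1 P2 R p z ≤ ∑ k, if sp k = true ∧ (z k : ℕ) ≠ 2 * h then 1 else 0 := by
  unfold vz
  rw [if_neg hp0, if_neg hpR]
  split_ifs with he
  · obtain ⟨B, hB, hz⟩ := exists_box h1 z
    rw [sum_pick h1 (fun B => ca sp B) hB hz]
    unfold ca
    refine Finset.sum_le_sum fun k _ => ?_
    by_cases hk : sp k = true ∧ has0 (B k)
    · rw [if_pos hk, if_pos]
      refine ⟨hk.1, fun hzk => ?_⟩
      exact (ho1 B hB k).2.2 hk.1 ⟨hk.2, z k, hz k, by omega⟩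
    · rw [if_neg hk]
      exact Nat.zero_le _
  · obtain ⟨B, hB, hz⟩ := exists_box h2 z
    rw [sum_pick h2 (fun B => cm sp - cb sp B) hB hz]
    rw [tsub_le_iff_right]
    unfold cm cb
    rw [← Finset.sum_add_distrib]
    refine Finset.sum_le_sum fun k _ => ?_
    by_cases hs : sp k = true
    · rw [if_pos hs]
      by_cases hk : (z k : ℕ) ≠ 2 * h
      · rw [if_pos ⟨hs, hk⟩]
        omega
      · push Not at hk
        have hl : hasL (B k) := ⟨z k, hz k, by omega⟩
        rw [if_pos (⟨hs, hl⟩ : sp k = true ∧ hasL (B k))]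
        omega
    · rw [if_neg hs]
      exact Nat.zero_le _

theorem vvMono_lower (ho2 : ∀ B ∈ P2, Ok sp B)
    (h1 : ∀ z, (P1.map (fun B => ind B z)).sum = 1)
    (h2 : ∀ z, (P2.map (fun B => ind B z)).sum = 1) {p : ℕ} (hp0 : p ≠ 0) (hpR : p ≠ R)
    (z : K → Fin (2 * h + 1)) :
    (∑ k, if sp k = true ∧ (z k : ℕ) = 0 then 1 else 0) ≤ vz sp h P1 P2 R p z := by
  unfold vz
  rw [if_neg hp0, if_neg hpR]
  split_ifs with he
  · obtain ⟨B, hB, hz⟩ := exists_box h1 z
    rw [sum_pick h1 (fun B => ca sp B) hB hz]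
    unfold ca
    refine Finset.sum_le_sum fun k _ => ?_
    by_cases hk : sp k = true ∧ (z k : ℕ) = 0
    · have h0 : has0 (B k) := ⟨z k, hz k, hk.2⟩
      rw [if_pos hk, if_pos (⟨hk.1, h0⟩ : sp k = true ∧ has0 (B k))]
    · rw [if_neg hk]
      exact Nat.zero_le _
  · obtain ⟨B, hB, hz⟩ := exists_box h2 z
    rw [sum_pick h2 (fun B => cm sp - cb sp B) hB hz]
    have hle : (∑ k, if sp k = true ∧ (z k : ℕ) = 0 then 1 else 0) + cb sp B ≤ cm sp := by
      unfold cm cb
      rw [← Finset.sum_add_distrib]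
      refine Finset.sum_le_sum fun k _ => ?_
      by_cases hs : sp k = true
      · rw [if_pos hs]
        by_cases hk : (z k : ℕ) = 0
        · have h0 : has0 (B k) := ⟨z k, hz k, hk⟩
          rw [if_pos ⟨hs, hk⟩, if_neg]
          intro hl
          exact (ho2 B hB k).2.2 hs ⟨h0, hl.2⟩
        · rw [if_neg fun h => hk h.2]
          split_ifs <;> omega
      · rw [if_neg fun h => hs h.1, if_neg fun h => hs h.1]
        exact Nat.zero_le _
    omega

/-- TASK. MONOTONICITY. p = 0 and p' = R are trivial. Otherwise with # the number of special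
coordinates: vv p w ≤ #{k : shf p (w k) is not 2h} ≤ #{k : shf p' (w k) = 0} ≤ vv p' w
(the middle by shf_zero_of_ne). For p even: the box B in P1 containing z = shf p o w: if B k has
letter 0 then it does not have the last letter 2h (separated, special k) so z k is not 2h. For p
odd: if z k = 2h then B k has the last letter. For p' even: if z k = 0 then B k has letter 0; for p'
odd: if z k = 0 then B k has letter 0, so not the last letter. -/
theorem vv_mono (hR : Odd R)
    (ho1 : ∀ B ∈ P1, Ok sp B) (ho2 : ∀ B ∈ P2, Ok sp B)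
    (h1 : ∀ z, (P1.map (fun B => ind B z)).sum = 1)
    (h2 : ∀ z, (P2.map (fun B => ind B z)).sum = 1) {p p' : ℕ} (hpp : p < p') (hp : p' ≤ R)
    (w : K → Fin Nt) :
    vv sp h P1 P2 R Nt p w ≤ vv sp h P1 P2 R Nt p' w := by
  rcases Nat.eq_zero_or_pos p with hp0 | hp0
  · subst hp0
    have : vv sp h P1 P2 R Nt 0 w = 0 := by
      unfold vv vz
      rw [if_pos rfl]
    rw [this]
    exact Nat.zero_le _
  rcases eq_or_ne p' R with hR' | hR'
  · have : vv sp h P1 P2 R Nt p' w = cm sp := by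
      unfold vv vz
      rw [if_neg (by omega), if_pos hR']
    rw [this]
    exact vv_le hR h1 h2 p w
  have e1 := vvMono_upper (R := R) ho1 h1 h2 (p := p) (by omega) (by omega)
    fun k => shf h Nt p (w k)
  have e2 := vvMono_lower (R := R) ho2 h1 h2 (p := p') (by omega) hR'
    fun k => shf h Nt p' (w k)
  refine le_trans e1 (le_trans ?_ e2)
  refine Finset.sum_le_sum fun k _ => ?_
  by_cases hk : sp k = true ∧ ((shf h Nt p (w k) : Fin (2 * h + 1)) : ℕ) ≠ 2 * h
  · rw [if_pos hk, if_pos ⟨hk.1, shf_zero_of_ne hpp (w k) hk.2⟩]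
  · rw [if_neg hk]
    exact Nat.zero_le _

end

end F95
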