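import Pool.Agent.W_f95cc0_h94.Tele
import Pool.Agent.W_f95cc0_h94.LevLL
import Pool.Agent.W_f95cc0_h94.VvMono
import Pool.Agent.W_f95cc0_h94.Block
import Pool.Agent.W_f95cc0_h94.LLw

set_option autoImplicit false

namespace F95

section
variable {K : Type} [Fintype K] {sp : K → Bool} {h : ℕ}
  {P1 P2 : List (K → Finset (Fin (2 * h + 1)))} {R Nt : ℕ}

theorem cost_gen (hh : 1 ≤ h) (hR : Odd R) (hN : Odd Nt) (hNt : 2 * h * R + 2 * h + 1 ≤ Nt)
    (ho1 : ∀ B ∈ P1, Ok sp B) (ho2 : ∀ B ∈ P2, Ok sp B)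
    (h1 : ∀ z, (P1.map (fun B => ind B z)).sum = 1)
    (h2 : ∀ z, (P2.map (fun B => ind B z)).sum = 1)
    {x y rho Lam C0 : ℝ} (hx : 1 ≤ x) (hy : 1 ≤ y) (hr : 1 ≤ rho) (hLam : 1 ≤ Lam)
    (hC0 : ((4 * h + 1 : ℕ) : ℝ) ^ Fintype.card K * (x * y) ^ Fintype.card K ≤ C0)
    (hL1 : (P1.map (fun B => (x * rho) ^ ca sp B * y ^ cb sp B)).sum ≤ Lam)
    (hL2 : (P2.map (fun B => x ^ ca sp B * (y * rho) ^ cb sp B)).sum ≤ Lam)
    (M : ℕ) (T : ℤ) {p q : ℕ} (hpq : p < q) (hq : q ≤ R) :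
    Rep (spow sp M) x y
      (fun w => if (bsum (vv sp h P1 P2 R Nt p) M w : ℤ) < T ∧
        T ≤ (bsum (vv sp h P1 P2 R Nt q) M w : ℤ) then 1 else 0)
      (M * (C0 * cm sp) * Lam ^ M) := by
  have hx0 : 0 ≤ x := by linarith
  have hy0 : 0 ≤ y := by linarith
  have hC00 : 0 ≤ C0 := le_trans (by positivity) hC0
  have key := rep_tele (sp := sp) (x := x) (y := y) (t := 1) (Lam := Lam) (C0 := C0) (m := cm sp)
    (lev_LL hh hR hN hNt ho1 ho2 h1 h2 (hpq.le.trans hq))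
    (lev_LL hh hR hN hNt ho1 ho2 h1 h2 hq)
    (vv_mono hR ho1 ho2 h1 h2 hpq hq)
    (vv_le hR h1 h2 q) hx0 hy0 one_pos (by linarith) hC00
    (LL_all hh hN hNt hx hy hr hL1 hL2 (hpq.le.trans hq))
    (LL_all hh hN hNt hx hy hr hL1 hL2 hq)
    (fun tau => (rep_block hh hN hNt hx hy hpq hq tau).mono hC0) M T
  refine key.mono ?_
  have e1 : (∑ tau ∈ Finset.Icc 1 (cm sp), (1 : ℝ) ^ tau) = cm sp := by simp
  rw [e1, one_zpow, mul_one]
  apply mul_le_mul_of_nonneg_left _ (by positivity)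
  exact div_le_self (by positivity) hLam

theorem cost_same (hh : 1 ≤ h) (hR : Odd R) (hN : Odd Nt) (hNt : 2 * h * R + 2 * h + 1 ≤ Nt)
    (ho1 : ∀ B ∈ P1, Ok sp B) (ho2 : ∀ B ∈ P2, Ok sp B)
    (h1 : ∀ z, (P1.map (fun B => ind B z)).sum = 1)
    (h2 : ∀ z, (P2.map (fun B => ind B z)).sum = 1)
    {x y rho Lam1 Lam2 C0 Z : ℝ} (hx : 1 ≤ x) (hy : 1 ≤ y) (hr : 1 ≤ rho) (hLam1 : 1 ≤ Lam1)
    (hLam2 : 1 ≤ Lam2)
    (hC0 : ((4 * h + 1 : ℕ) : ℝ) ^ Fintype.card K * (x * y) ^ Fintype.card K ≤ C0)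
    (hL1 : (P1.map (fun B => (x * rho) ^ ca sp B * y ^ cb sp B)).sum ≤ Lam1)
    (hL2 : (P2.map (fun B => x ^ ca sp B * (y * rho) ^ cb sp B)).sum ≤ Lam2)
    (M T : ℕ) (hZ : 0 ≤ Z) (hT1 : Lam1 ^ M ≤ rho ^ T * Z)
    (hT2 : Lam2 ^ M * rho ^ T ≤ rho ^ (cm sp * M + 1) * Z)
    {p q : ℕ} (hpq : p < q) (hq : q ≤ R) (hpar : p % 2 = q % 2) :
    Rep (spow sp M) x y
      (fun w => if (bsum (vv sp h P1 P2 R Nt p) M w : ℤ) < (T : ℤ) ∧
        (T : ℤ) ≤ (bsum (vv sp h P1 P2 R Nt q) M w : ℤ) then 1 else 0)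
      (M * (C0 * cm sp * rho ^ cm sp) * (rho * Z)) := by
  have hx0 : 0 ≤ x := by linarith
  have hy0 : 0 ≤ y := by linarith
  have hr0 : 0 < rho := by linarith
  have hC00 : 0 ≤ C0 := le_trans (by positivity) hC0
  rcases Nat.mod_two_eq_zero_or_one q with hq2 | hq2
  · have hp2 : p % 2 = 0 := by rw [hpar, hq2]
    have key := rep_tele (sp := sp) (x := x) (y := y) (t := rho) (Lam := Lam1) (C0 := C0)
      (m := cm sp)
      (lev_LL hh hR hN hNt ho1 ho2 h1 h2 (hpq.le.trans hq))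
      (lev_LL hh hR hN hNt ho1 ho2 h1 h2 hq)
      (vv_mono hR ho1 ho2 h1 h2 hpq hq)
      (vv_le hR h1 h2 q) hx0 hy0 hr0 (by linarith) hC00
      (LL_even hh hN hNt hx hy hr hL1 (hpq.le.trans hq) hp2)
      (LL_even hh hN hNt hx hy hr hL1 hq hq2)
      (fun tau => (rep_block hh hN hNt hx hy hpq hq tau).mono hC0) M (T : ℤ)
    refine key.mono ?_
    have e1 : (∑ tau ∈ Finset.Icc 1 (cm sp), rho ^ tau) ≤ cm sp * rho ^ cm sp := by
      have : (∑ tau ∈ Finset.Icc 1 (cm sp), rho ^ tau) ≤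
          ∑ tau ∈ Finset.Icc 1 (cm sp), rho ^ cm sp := by
        apply Finset.sum_le_sum
        intro i hi
        exact pow_le_pow_right₀ hr (Finset.mem_Icc.1 hi).2
      simpa using this
    have e2 : rho ^ (-(T : ℤ)) * (Lam1 ^ M / Lam1) ≤ rho * Z := by
      have a1 : Lam1 ^ M / Lam1 ≤ Lam1 ^ M := div_le_self (by positivity) hLam1
      have a2 : rho ^ (-(T : ℤ)) * (Lam1 ^ M / Lam1) ≤ rho ^ (-(T : ℤ)) * (rho ^ T * Z) :=
        mul_le_mul_of_nonneg_left (a1.trans hT1) (by positivity)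
      have a3 : rho ^ (-(T : ℤ)) * (rho ^ T * Z) = Z := by
        rw [zpow_neg, zpow_natCast, ← mul_assoc, inv_mul_cancel₀ (by positivity), one_mul]
      rw [a3] at a2
      refine a2.trans ?_
      nlinarith
    have e3 : (M : ℝ) * (C0 * ∑ tau ∈ Finset.Icc 1 (cm sp), rho ^ tau) ≤
        M * (C0 * cm sp * rho ^ cm sp) := by
      apply mul_le_mul_of_nonneg_left _ (by positivity)
      rw [mul_assoc]
      exact mul_le_mul_of_nonneg_left e1 hC00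
    rw [mul_assoc]
    apply mul_le_mul e3 e2 (by positivity) (by positivity)
  · have hp2 : p % 2 = 1 := by rw [hpar, hq2]
    have hcm : 0 < rho ^ cm sp := by positivity
    have key := rep_tele (sp := sp) (x := x) (y := y) (t := rho⁻¹) (Lam := Lam2 / rho ^ cm sp)
      (C0 := C0)
      (m := cm sp)
      (lev_LL hh hR hN hNt ho1 ho2 h1 h2 (hpq.le.trans hq))
      (lev_LL hh hR hN hNt ho1 ho2 h1 h2 hq)
      (vv_mono hR ho1 ho2 h1 h2 hpq hq)
      (vv_le hR h1 h2 q) hx0 hy0 (inv_pos.2 hr0) (by positivity) hC00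
      (LL_odd hh hN hNt hx hy hr hL2 (hpq.le.trans hq) hp2)
      (LL_odd hh hN hNt hx hy hr hL2 hq hq2)
      (fun tau => (rep_block hh hN hNt hx hy hpq hq tau).mono hC0) M (T : ℤ)
    refine key.mono ?_
    have e1 : (∑ tau ∈ Finset.Icc 1 (cm sp), (rho⁻¹) ^ tau) ≤ cm sp := by
      have : (∑ tau ∈ Finset.Icc 1 (cm sp), (rho⁻¹) ^ tau) ≤
          ∑ tau ∈ Finset.Icc 1 (cm sp), (1 : ℝ) := by
        apply Finset.sum_le_sum
        intro i _
        exact pow_le_one₀ (by positivity) (inv_le_one_of_one_le₀ hr)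
      simpa using this
    have e2 : (rho⁻¹) ^ (-(T : ℤ)) * ((Lam2 / rho ^ cm sp) ^ M / (Lam2 / rho ^ cm sp)) ≤
        rho ^ cm sp * (rho * Z) := by
      have a0 : (rho⁻¹) ^ (-(T : ℤ)) = rho ^ T := by
        rw [inv_zpow, zpow_neg, inv_inv, zpow_natCast]
      have a1 : (Lam2 / rho ^ cm sp) ^ M / (Lam2 / rho ^ cm sp) ≤
          Lam2 ^ M / rho ^ (cm sp * M) * rho ^ cm sp := by
        rw [div_pow, ← pow_mul, div_div_eq_mul_div]
        apply div_le_self (by positivity) hLam2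
      rw [a0]
      calc rho ^ T * ((Lam2 / rho ^ cm sp) ^ M / (Lam2 / rho ^ cm sp))
          ≤ rho ^ T * (Lam2 ^ M / rho ^ (cm sp * M) * rho ^ cm sp) :=
            mul_le_mul_of_nonneg_left a1 (by positivity)
        _ = (Lam2 ^ M * rho ^ T) / rho ^ (cm sp * M) * rho ^ cm sp := by ring
        _ ≤ (rho ^ (cm sp * M + 1) * Z) / rho ^ (cm sp * M) * rho ^ cm sp := by
            apply mul_le_mul_of_nonneg_right _ (by positivity)
            exact div_le_div_of_nonneg_right hT2 (by positivity)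
        _ = rho ^ cm sp * (rho * Z) := by
            rw [pow_succ]
            field_simp
    have e3 : (M : ℝ) * (C0 * ∑ tau ∈ Finset.Icc 1 (cm sp), (rho⁻¹) ^ tau) ≤
        M * (C0 * cm sp) := by
      apply mul_le_mul_of_nonneg_left _ (by positivity)
      exact mul_le_mul_of_nonneg_left e1 hC00
    rw [mul_assoc]
    calc (M : ℝ) * (C0 * ∑ tau ∈ Finset.Icc 1 (cm sp), (rho⁻¹) ^ tau) *
          ((rho⁻¹) ^ (-(T : ℤ)) * ((Lam2 / rho ^ cm sp) ^ M / (Lam2 / rho ^ cm sp)))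
        ≤ M * (C0 * cm sp) * (rho ^ cm sp * (rho * Z)) :=
          mul_le_mul e3 e2 (by positivity) (by positivity)
      _ = M * (C0 * cm sp * rho ^ cm sp) * (rho * Z) := by ring

end

theorem bsum_mono {K : Type} {N : ℕ} {u v : (K → Fin N) → ℕ} (h : ∀ w, u w ≤ v w) :
    ∀ (M : ℕ) (w : IPow K M → Fin N), bsum u M w ≤ bsum v M w
  | 0, _ => le_rfl
  | M + 1, w => add_le_add (h _) (bsum_mono h M _)

theorem bsum_const {K : Type} {N : ℕ} {u : (K → Fin N) → ℕ} {c : ℕ} (h : ∀ w, u w = c) :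
    ∀ (M : ℕ) (w : IPow K M → Fin N), bsum u M w = c * M
  | 0, _ => by simp [bsum]
  | M + 1, w => by
    rw [bsum, h, bsum_const h M]
    ring

end F95
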