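import Pool.Agent.W_f95cc0_h94.GoodShf

set_option autoImplicit false

namespace F95

/-- existence of a partition with k odd proper boxes -/
def Cov (n d k : ℕ) : Prop :=
  ∃ P : Fin k → Fin d → Finset (Fin n),
    (∀ j i, Odd (P j i).card ∧ P j i ≠ Finset.univ) ∧
    ∀ x : Fin d → Fin n, ∃! j, ∀ i, x i ∈ P j i

theorem Glue1_sum_eq_one {n d k : ℕ} (P : Fin k → Fin d → Finset (Fin n)) (x : Fin d → Fin n) :
    (∑ j, ind (P j) x) = 1 ↔ ∃! j, ∀ i, x i ∈ P j i := by
  have e : (∑ j, ind (P j) x) = (Finset.univ.filter fun j => ∀ i, x i ∈ P j i).card := by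
    rw [Finset.card_filter]
    refine Finset.sum_congr rfl fun j _ => ?_
    unfold ind
    congr 1
  rw [e, Finset.card_eq_one]
  constructor
  · rintro ⟨a, ha⟩
    refine ⟨a, ?_, fun j hj => ?_⟩
    · have h : a ∈ (Finset.univ.filter fun j => ∀ i, x i ∈ P j i) := by
        rw [ha]
        exact Finset.mem_singleton_self a
      exact (Finset.mem_filter.1 h).2
    · have h : j ∈ (Finset.univ.filter fun j => ∀ i, x i ∈ P j i) :=
        Finset.mem_filter.2 ⟨Finset.mem_univ _, hj⟩
      rw [ha] at h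
      exact Finset.mem_singleton.1 h
  · rintro ⟨a, ha, hu⟩
    refine ⟨a, ?_⟩
    ext j
    rw [Finset.mem_filter, Finset.mem_singleton]
    constructor
    · intro h
      exact hu j h.2
    · rintro rfl
      exact ⟨Finset.mem_univ _, ha⟩

/-- TASK. index the boxes of the list by Fin L.length -/
theorem cov_of_list {n d : ℕ} (L : List (Fin d → Finset (Fin n)))
    (h1 : ∀ B ∈ L, Ok (fun _ => false) B) (h2 : ∀ w, (L.map (fun B => ind B w)).sum = 1) :
    Cov n d L.length := by
  refine ⟨fun j => L.get j, fun j i => ?_, fun x => ?_⟩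
  · have h := h1 (L.get j) (List.get_mem L j) i
    exact ⟨h.1, h.2.1⟩
  · rw [← Glue1_sum_eq_one]
    rw [← h2 x]
    have e : (L.map (fun B => ind B x)) = List.ofFn (fun j : Fin L.length => ind (L.get j) x) := by
      apply List.ext_getElem
      · simp
      · intro i h1 h2
        simp
    rw [e, List.sum_ofFn]

/-- TASK. L = List.ofFn P; all weights are 1 -/
theorem rep_of_cov {n d k : ℕ} (h : Cov n d k) :
    Rep (K := Fin d) (N := n) (fun _ => false) 1 1 (fun _ => 1) k := by
  obtain ⟨P, h1, h2⟩ := h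
  refine ⟨List.ofFn P, ?_, ?_, ?_⟩
  · intro B hB
    obtain ⟨j, rfl⟩ := (List.mem_ofFn' P B).1 hB
    intro i
    refine ⟨(h1 j i).1, (h1 j i).2, ?_⟩
    intro h
    exact absurd h Bool.false_ne_true
  · intro w
    rw [List.map_ofFn, List.sum_ofFn]
    exact (Glue1_sum_eq_one P w).2 (h2 w)
  · rw [List.map_ofFn, List.sum_ofFn]
    simp

/-- TASK. with x = y = 1 the total weight is the length -/
theorem cov_of_rep {n d : ℕ} {c : ℝ}
    (h : Rep (K := Fin d) (N := n) (fun _ => false) 1 1 (fun _ => 1) c) :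
    ∃ k : ℕ, (k : ℝ) ≤ c ∧ Cov n d k := by
  obtain ⟨L, h1, h2, h3⟩ := h
  refine ⟨L.length, ?_, cov_of_list L h1 h2⟩
  simpa using h3

/-- TASK. pull back under shf h m 0 (good_shf), which sends t to min t (2h) -/
theorem cov_pull {h m d k : ℕ} (hh : 1 ≤ h) (hm : Odd m) (hle : 2 * h + 1 ≤ m)
    (hc : Cov (2 * h + 1) d k) : Cov m d k := by
  obtain ⟨P, h1, h2⟩ := hc
  have hg : Good (shf h m 0) := good_shf hh hm (by omega)
  refine ⟨fun j => pull (shf h m 0) (P j), fun j i => ?_, fun x => ?_⟩
  · have hok : Ok (fun _ => false) (P j) := fun i =>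
      ⟨(h1 j i).1, (h1 j i).2, fun h => absurd h Bool.false_ne_true⟩
    have h := ok_pull hg hok i
    exact ⟨h.1, h.2.1⟩
  · obtain ⟨j, hj, hu⟩ := h2 (fun i => shf h m 0 (x i))
    refine ⟨j, fun i => ?_, fun j' hj' => hu j' fun i => ?_⟩
    · exact Finset.mem_filter.2 ⟨Finset.mem_univ _, hj i⟩
    · exact (Finset.mem_filter.1 (hj' i)).2

/-- TASK. product of partitions (Rep.tensor and Rep.equiv with finSumFinEquiv, cov_of_list; or
directly) -/
theorem cov_add {n d d' k k' : ℕ} (hc : Cov n d k) (hc' : Cov n d' k') :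
    Cov n (d + d') (k * k') := by
  obtain ⟨P, h1, h2⟩ := hc
  obtain ⟨P', h1', h2'⟩ := hc'
  refine ⟨fun j => Fin.append (P (finProdFinEquiv.symm j).1) (P' (finProdFinEquiv.symm j).2),
    fun j i => ?_, fun x => ?_⟩
  · dsimp only
    refine Fin.addCases (fun i => ?_) (fun i => ?_) i
    · rw [Fin.append_left]
      exact h1 _ i
    · rw [Fin.append_right]
      exact h1' _ i
  · obtain ⟨a, ha, hau⟩ := h2 (fun i => x (Fin.castAdd d' i))
    obtain ⟨b, hb, hbu⟩ := h2' (fun i => x (Fin.natAdd d i))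
    refine ⟨finProdFinEquiv (a, b), ?_, fun j hj => ?_⟩
    · intro i
      dsimp only
      rw [Equiv.symm_apply_apply]
      refine Fin.addCases (fun i => ?_) (fun i => ?_) i
      · rw [Fin.append_left]
        exact ha i
      · rw [Fin.append_right]
        exact hb i
    · rw [← Equiv.symm_apply_eq]
      refine Prod.ext ?_ ?_
      · refine hau _ fun i => ?_
        have h := hj (Fin.castAdd d' i)
        dsimp only at h
        rwa [Fin.append_left] at h
      · refine hbu _ fun i => ?_
        have h := hj (Fin.natAdd d i)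
        dsimp only at h
        rwa [Fin.append_right] at h

/-- TASK. points -/
theorem cov_points {n : ℕ} (hn : 2 ≤ n) (d : ℕ) : Cov n d (n ^ d) := by
  refine ⟨fun j i => {(finFunctionFinEquiv.symm j) i}, fun j i => ⟨?_, ?_⟩, fun x => ?_⟩
  · rw [Finset.card_singleton]
    exact odd_one
  · intro h
    have h1 := congrArg Finset.card h
    rw [Finset.card_singleton, Finset.card_univ, Fintype.card_fin] at h1
    omega
  · refine ⟨finFunctionFinEquiv x, ?_, fun j hj => ?_⟩
    · intro i
      dsimp only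
      rw [Equiv.symm_apply_apply]
      exact Finset.mem_singleton_self _
    · rw [← Equiv.symm_apply_eq]
      funext i
      exact (Finset.mem_singleton.1 (hj i)).symm

end F95
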