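import Mathlib

set_option autoImplicit false

namespace F95

/-- the cost function of the random walk of weights -/
noncomputable def lam (q : ℝ) (r i j : ℕ) : ℝ :=
  ((q + q⁻¹) / 2) ^ r * (q ^ (2 * i) + q ^ (2 * j)) + (q⁻¹) ^ r

theorem Lam_c_ge {q : ℝ} (hq : 1 < q) : 1 ≤ (q + q⁻¹) / 2 := by
  have h0 : 0 < q := by linarith
  have h1 : q * q⁻¹ = 1 := mul_inv_cancel₀ h0.ne'
  have h2 : 0 < q⁻¹ := inv_pos.2 h0
  nlinarith [sq_nonneg (q - 1), sq_nonneg (q⁻¹ - 1), sq_nonneg (q - q⁻¹)]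

theorem Lam_half_sum {q : ℝ} (hq : 1 < q) (r i j : ℕ) :
    lam q r (i + 1) j + lam q r i (j + 1) = 2 * (q * lam q (r + 1) i j) := by
  have h0 : q ≠ 0 := by linarith
  unfold lam
  have h1 : q * (q⁻¹) ^ (r + 1) = (q⁻¹) ^ r := by
    rw [pow_succ, mul_comm, mul_assoc, inv_mul_cancel₀ h0, mul_one]
  have h2 : q * ((q + q⁻¹) / 2) ^ (r + 1) = ((q ^ 2 + 1) / 2) * ((q + q⁻¹) / 2) ^ r := by
    rw [pow_succ]
    have h3 : q * ((q + q⁻¹) / 2) = (q ^ 2 + 1) / 2 := by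
      field_simp
    rw [← h3]
    ring
  have h4 : q ^ (2 * (i + 1)) = q ^ (2 * i) * q ^ 2 := by rw [← pow_add]; congr 1
  have h5 : q ^ (2 * (j + 1)) = q ^ (2 * j) * q ^ 2 := by rw [← pow_add]; congr 1
  rw [h4, h5]
  calc _ = 2 * (((q ^ 2 + 1) / 2) * ((q + q⁻¹) / 2) ^ r * (q ^ (2 * i) + q ^ (2 * j)) +
        (q⁻¹) ^ r) := by ring
    _ = 2 * (q * ((q + q⁻¹) / 2) ^ (r + 1) * (q ^ (2 * i) + q ^ (2 * j)) +
        q * (q⁻¹) ^ (r + 1)) := by rw [h1, h2]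
    _ = _ := by ring

/-- TASK. easy -/
theorem lam_one_le {q : ℝ} (hq : 1 < q) (r i j : ℕ) : 1 ≤ lam q r i j := by
  unfold lam
  have h0 : 0 < q := by linarith
  have h1 : 1 ≤ ((q + q⁻¹) / 2) ^ r := one_le_pow₀ (Lam_c_ge hq)
  have h2 : 1 ≤ q ^ (2 * i) := one_le_pow₀ hq.le
  have h3 : 0 < q ^ (2 * j) := pow_pos h0 _
  have h4 : 0 < (q⁻¹) ^ r := pow_pos (inv_pos.2 h0) _
  nlinarith

/-- TASK. AM-GM: (lam1 + lam2)/2 = q * lam (r+1) i j because (q^2+1)/2 = q*c -/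
theorem lam_mul {q : ℝ} (hq : 1 < q) (r i j : ℕ) :
    lam q r (i + 1) j * lam q r i (j + 1) ≤ q ^ 2 * lam q (r + 1) i j ^ 2 := by
  have h1 := Lam_half_sum hq r i j
  have h2 : q ^ 2 * lam q (r + 1) i j ^ 2 =
      ((lam q r (i + 1) j + lam q r i (j + 1)) / 2) ^ 2 := by
    rw [h1]
    ring
  rw [h2]
  nlinarith [sq_nonneg (lam q r (i + 1) j - lam q r i (j + 1))]

/-- TASK. -/
theorem lam_le1 {q : ℝ} (hq : 1 < q) (r i j : ℕ) :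
    lam q r (i + 1) j ≤ q ^ 2 * lam q (r + 1) i j := by
  have h0 : 0 < q := by linarith
  have hc := Lam_c_ge hq
  have hp : 0 < ((q + q⁻¹) / 2) ^ r := pow_pos (by linarith) _
  have h1 : q ^ 2 * (q⁻¹) ^ (r + 1) = q * (q⁻¹) ^ r := by
    rw [pow_succ (q⁻¹), pow_two]
    calc q * q * ((q⁻¹) ^ r * q⁻¹) = q * (q⁻¹) ^ r * (q * q⁻¹) := by ring
      _ = q * (q⁻¹) ^ r := by rw [mul_inv_cancel₀ h0.ne', mul_one]
  have h4 : q ^ (2 * (i + 1)) = q ^ (2 * i) * q ^ 2 := by rw [← pow_add]; congr 1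
  have h5 : 0 < q ^ (2 * i) := pow_pos h0 _
  have h6 : 0 < q ^ (2 * j) := pow_pos h0 _
  have h7 : 0 < (q⁻¹) ^ r := pow_pos (inv_pos.2 h0) _
  have hq2 : 1 ≤ q ^ 2 := one_le_pow₀ hq.le
  unfold lam
  rw [h4, mul_add (q ^ 2), h1]
  have h8 : ((q + q⁻¹) / 2) ^ r * (q ^ (2 * i) * q ^ 2 + q ^ (2 * j)) ≤
      q ^ 2 * (((q + q⁻¹) / 2) ^ (r + 1) * (q ^ (2 * i) + q ^ (2 * j))) := by
    have h9 : ((q + q⁻¹) / 2) ^ r ≤ ((q + q⁻¹) / 2) ^ (r + 1) := pow_le_pow_right₀ hc (Nat.le_succ r)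
    calc ((q + q⁻¹) / 2) ^ r * (q ^ (2 * i) * q ^ 2 + q ^ (2 * j))
        ≤ ((q + q⁻¹) / 2) ^ r * (q ^ 2 * (q ^ (2 * i) + q ^ (2 * j))) := by
          refine mul_le_mul_of_nonneg_left ?_ hp.le
          nlinarith
      _ ≤ ((q + q⁻¹) / 2) ^ (r + 1) * (q ^ 2 * (q ^ (2 * i) + q ^ (2 * j))) :=
          mul_le_mul_of_nonneg_right h9 (by positivity)
      _ = _ := by ring
  have h10 : (q⁻¹) ^ r ≤ q * (q⁻¹) ^ r := le_mul_of_one_le_left h7.le hq.le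
  linarith

/-- TASK. -/
theorem lam_le2 {q : ℝ} (hq : 1 < q) (r i j : ℕ) :
    lam q r i (j + 1) ≤ q ^ 2 * lam q (r + 1) i j := by
  have h1 : lam q r i (j + 1) = lam q r (j + 1) i := by
    unfold lam
    rw [add_comm (q ^ (2 * i))]
  have h2 : lam q (r + 1) i j = lam q (r + 1) j i := by
    unfold lam
    rw [add_comm (q ^ (2 * i))]
  rw [h1, h2]
  exact lam_le1 hq r j i

end F95
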