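import Pool.Agent.W_f95cc0_h94.LevDef

set_option autoImplicit false

namespace F95

/-- TASK. Cost of an exact level set {sum of u = s}, by induction on M: split off the first block,
sum over b in L of (b.1) x (level set s - b.2 of the other blocks) by lev_expand, Rep.tensor (with
rep_box) and rep_list_sum; t^(-(s-val)) * Lam^M * t^0.. For M = 0 the function is 1 at s=0 (empty
product box; IPow K 0 = Empty) and 0 otherwise. -/
theorem rep_level {K : Type} [Fintype K] {N : ℕ} {sp : K → Bool} {u : (K → Fin N) → ℕ}
    {L : List ((K → Finset (Fin N)) × ℕ)} (h : Lev sp u L) {x y t Lam : ℝ} (hx : 0 ≤ x)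
    (hy : 0 ≤ y) (ht : 0 < t)
    (hL : (L.map (fun b => x ^ ca sp b.1 * y ^ cb sp b.1 * t ^ b.2)).sum ≤ Lam) (M : ℕ) (s : ℤ) :
    Rep (spow sp M) x y (fun w => if (bsum u M w : ℤ) = s then 1 else 0)
      (t ^ (-s) * Lam ^ M) := by
  have hLam : 0 ≤ Lam := by
    refine le_trans (List.sum_nonneg ?_) hL
    intro a ha
    obtain ⟨b, _, rfl⟩ := List.mem_map.1 ha
    positivity
  induction M generalizing s with
  | zero =>
    by_cases hs : s = 0
    · subst hs
      have hok : Ok (N := N) (spow sp 0) (fun e : IPow K 0 => Empty.elim e) := fun k => Empty.elim k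
      have h1 := rep_box (x := x) (y := y) hok
      refine (h1.congr ?_).mono ?_
      · intro w
        have : (bsum u 0 w : ℤ) = 0 := rfl
        rw [if_pos this]
        unfold ind
        rw [if_pos]
        intro k
        exact Empty.elim k
      · have h2 : ca (N := N) (spow sp 0) (fun e : IPow K 0 => Empty.elim e) = 0 :=
          Finset.sum_eq_zero fun k _ => Empty.elim k
        have h3 : cb (N := N) (spow sp 0) (fun e : IPow K 0 => Empty.elim e) = 0 :=
          Finset.sum_eq_zero fun k _ => Empty.elim k
        rw [h2, h3]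
        simp
    · refine (rep_zero (c := t ^ (-s) * Lam ^ 0) (by positivity)).congr ?_
      intro w
      have : ¬ (bsum u 0 w : ℤ) = s := fun h' => hs (h'.symm.trans rfl |> fun h'' => by simpa [bsum] using h'')
      rw [if_neg this]
  | succ M ih =>
    have key := rep_list_sum (sp := Sum.elim sp (spow sp M)) (x := x) (y := y) L
      (fun b (w : K ⊕ IPow K M → Fin N) => ind b.1 (fun k => w (Sum.inl k)) *
        (if (bsum u M (fun k => w (Sum.inr k)) : ℤ) = s - b.2 then 1 else 0))
      (fun b => (x ^ ca sp b.1 * y ^ cb sp b.1) * (t ^ (-(s - b.2)) * Lam ^ M))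
      (fun b hb => Rep.tensor hx hy (rep_box (h.ok b hb)) (ih (s - b.2)))
    refine Rep.mono (Rep.congr key ?_) ?_
    · intro w
      rw [lev_expand h (fun n => if (bsum u M (fun k => w (Sum.inr k)) : ℤ) = s - n then 1 else 0)]
      have : (bsum u (M + 1) w : ℤ) = (u (fun k => w (Sum.inl k)) : ℤ) +
          (bsum u M (fun k => w (Sum.inr k)) : ℤ) := by
        simp [bsum]
      rw [this]
      congr 1
      apply propext
      constructor <;> intro h' <;> linarith
    · have h2 : (L.map (fun b => (x ^ ca sp b.1 * y ^ cb sp b.1) *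
          (t ^ (-(s - (b.2 : ℤ))) * Lam ^ M))) =
          L.map (fun b => (x ^ ca sp b.1 * y ^ cb sp b.1 * t ^ b.2) * (t ^ (-s) * Lam ^ M)) := by
        apply List.map_congr_left
        intro b _
        have : t ^ (-(s - (b.2 : ℤ))) = t ^ (-s) * t ^ b.2 := by
          rw [← zpow_natCast, ← zpow_add₀ ht.ne']
          congr 1
          ring
        rw [this]
        ring
      rw [h2, List.sum_map_mul_right]
      calc (L.map (fun b => x ^ ca sp b.1 * y ^ cb sp b.1 * t ^ b.2)).sum * (t ^ (-s) * Lam ^ M)
          ≤ Lam * (t ^ (-s) * Lam ^ M) := by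
            apply mul_le_mul_of_nonneg_right hL
            positivity
        _ = t ^ (-s) * Lam ^ (M + 1) := by ring

end F95
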