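import Mathlib

set_option autoImplicit false

namespace F95

/-- TASK. Choice of the threshold: T is the least integer ≥ 1 with X1 ≤ rho^T * Z. -/
theorem exists_threshold {rho X1 X2 Z : ℝ} (hr : 1 < rho) (hX1 : 0 < X1) (hX2 : 0 < X2)
    (hZ : 0 < Z) {n : ℕ} (hn : 1 ≤ n) (h1 : X1 ≤ rho ^ n * Z) (h2 : X2 ≤ rho ^ n * Z)
    (h12 : X1 * X2 ≤ rho ^ n * Z ^ 2) :
    ∃ T : ℕ, 1 ≤ T ∧ T ≤ n ∧ X1 ≤ rho ^ T * Z ∧ X2 * rho ^ T ≤ rho ^ (n + 1) * Z := by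
  classical
  have hr0 : 0 < rho := by linarith
  have hex : ∃ T : ℕ, 1 ≤ T ∧ X1 ≤ rho ^ T * Z := ⟨n, hn, h1⟩
  have hs := Nat.find_spec hex
  have hle : Nat.find hex ≤ n := Nat.find_le ⟨hn, h1⟩
  have hmin := fun (t : ℕ) (ht : t < Nat.find hex) => Nat.find_min hex ht
  set T := Nat.find hex with hT
  refine ⟨T, hs.1, hle, hs.2, ?_⟩
  obtain ⟨t, ht⟩ : ∃ t, T = t + 1 := ⟨T - 1, by omega⟩
  rw [ht, pow_succ rho t, pow_succ rho n]
  rcases Nat.eq_zero_or_pos t with h0 | h0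
  · rw [h0]
    simp only [pow_zero, one_mul]
    nlinarith
  · have h3 := hmin t (by omega)
    push Not at h3
    have h4 : rho ^ t * Z < X1 := h3 h0
    -- X2 * rho^t * Z < X1 * X2 ≤ rho^n * Z^2
    have h5 : X2 * rho ^ t * Z ≤ rho ^ n * Z * Z := by
      have h6 : X2 * (rho ^ t * Z) ≤ X2 * X1 := mul_le_mul_of_nonneg_left h4.le hX2.le
      nlinarith
    have h6 : X2 * rho ^ t ≤ rho ^ n * Z := le_of_mul_le_mul_right h5 hZ
    have h7 := mul_le_mul_of_nonneg_right h6 hr0.le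
    nlinarith

/-- TASK. polynomial against exponential -/
theorem exists_big {c1 c2 th : ℝ} (hth : 1 < th) : ∃ L : ℕ, 1 ≤ L ∧ c1 * L + c2 * L ^ 2 ≤ th ^ L := by
  have h := tendsto_pow_const_div_const_pow_of_one_lt 2 hth
  have hpos : 0 < 1 / (|c1| + |c2| + 1) := by positivity
  have h2 := (h.eventually (gt_mem_nhds hpos)).and (Filter.eventually_ge_atTop 1)
  obtain ⟨L, hL, hL1⟩ := h2.exists
  refine ⟨L, hL1, ?_⟩
  have hL1' : (1 : ℝ) ≤ L := by exact_mod_cast hL1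
  have hth0 : 0 < th ^ L := pow_pos (by linarith) L
  rw [div_lt_div_iff₀ hth0 (by positivity)] at hL
  have h3 : c1 * L ≤ |c1| * (L : ℝ) ^ 2 := by
    calc c1 * L ≤ |c1| * L := mul_le_mul_of_nonneg_right (le_abs_self _) (by linarith)
      _ ≤ |c1| * (L : ℝ) ^ 2 := by
        refine mul_le_mul_of_nonneg_left ?_ (abs_nonneg _)
        nlinarith
  have h4 : c2 * (L : ℝ) ^ 2 ≤ |c2| * (L : ℝ) ^ 2 :=
    mul_le_mul_of_nonneg_right (le_abs_self _) (by positivity)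
  have h5 : (0 : ℝ) ≤ (L : ℝ) ^ 2 := by positivity
  nlinarith

/-- TASK. choice of a: 2^(a+1) ≤ ga^a for all large a -/
theorem exists_gamma {ga : ℝ} (hga : 2 < ga) (D : ℕ) :
    ∃ a : ℕ, 1 ≤ a ∧ D ≤ a ∧ (2 : ℝ) ^ (a + 1) ≤ ga ^ a := by
  have h1 : 1 < ga / 2 := by linarith
  have h2 := (((tendsto_pow_atTop_atTop_of_one_lt h1).eventually
    (Filter.eventually_ge_atTop (2 : ℝ))).and (Filter.eventually_ge_atTop 1)).and
    (Filter.eventually_ge_atTop D)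
  obtain ⟨a, ⟨ha, ha1⟩, haD⟩ := h2.exists
  refine ⟨a, ha1, haD, ?_⟩
  rw [div_pow, le_div_iff₀ (by positivity)] at ha
  rw [pow_succ]
  linarith

/-- TASK. choice of A -/
theorem exists_A {ga al Lam : ℝ} (h0 : 0 < ga) (h1 : ga < al) (hL : 0 < Lam) :
    ∃ A : ℕ, Lam * ga ^ A ≤ al ^ A := by
  have h2 : 1 < al / ga := by rw [one_lt_div h0]; exact h1
  obtain ⟨A, hA⟩ := ((tendsto_pow_atTop_atTop_of_one_lt h2).eventually
    (Filter.eventually_ge_atTop Lam)).exists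
  refine ⟨A, ?_⟩
  rw [div_pow, le_div_iff₀ (by positivity)] at hA
  exact hA

/-- TASK. choice of eps -/
theorem exists_eps {e1 e2 : ℝ} (h1 : 0 < e1) (h2 : e1 < e2) (A m : ℕ) (hm : 1 ≤ m) :
    ∃ eps : ℝ, 0 < eps ∧ (1 + eps) ^ A * (1 + e1) ^ m < (1 + e2) ^ m := by
  have hc : Filter.Tendsto (fun eps : ℝ => (1 + eps) ^ A * (1 + e1) ^ m)
      (nhdsWithin 0 (Set.Ioi 0)) (nhds ((1 + 0) ^ A * (1 + e1) ^ m)) := by
    refine Filter.Tendsto.mono_left ?_ nhdsWithin_le_nhds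
    exact (by fun_prop : Continuous (fun eps : ℝ => (1 + eps) ^ A * (1 + e1) ^ m)).tendsto 0
  have h3 : (1 + 0) ^ A * (1 + e1) ^ m < (1 + e2) ^ m := by
    rw [add_zero, one_pow, one_mul]
    exact pow_lt_pow_left₀ (by linarith) (by linarith) (by omega)
  have h4 := (hc.eventually (gt_mem_nhds h3)).and (self_mem_nhdsWithin)
  obtain ⟨eps, he1, he2⟩ := h4.exists
  exact ⟨eps, he2, he1⟩

end F95
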