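import Pool.Agent.W_f95cc0_h94.Basic

set_option autoImplicit false

namespace F95

theorem PathRec_empty {K : Type} [Fintype K] {N : ℕ} (sp : K → Bool) (x y : ℝ) :
    Rep (K := IPow K 0) (N := N) (spow sp 0) x y (fun _ => 1) 1 := by
  have : IsEmpty (IPow K 0) := inferInstanceAs (IsEmpty Empty)
  have h := rep_box (K := IPow K 0) (N := N) (sp := spow sp 0) (x := x) (y := y)
    (B := fun e => Empty.elim e) (by intro k; exact Empty.elim k)
  refine (h.congr ?_).mono ?_
  · intro w
    unfold ind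
    rw [if_pos]
    intro k
    exact Empty.elim k
  · apply le_of_eq
    unfold ca cb
    simp

theorem PathRec_pow {a N : ℕ} {x y f0 : ℝ} (hx : 0 ≤ x) (hy : 0 ≤ y)
    (hY : Rep (K := Fin a) (N := N) (fun _ => false) x y (fun _ => 1) f0) (k : ℕ) :
    Rep (K := IPow (Fin a) k) (N := N) (spow (fun _ : Fin a => false) k) x y (fun _ => 1)
      (f0 ^ k) := by
  induction k with
  | zero =>
    have h := PathRec_empty (K := Fin a) (N := N) (fun _ => false) x y
    rw [pow_zero]
    exact h
  | succ k ih =>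
    have h := Rep.tensor hx hy hY ih
    have h2 : Rep (Sum.elim (fun _ : Fin a => false) (spow (fun _ : Fin a => false) k)) x y
        (fun _ : (Fin a ⊕ IPow (Fin a) k → Fin N) => 1) (f0 ^ (k + 1)) :=
      (h.congr (fun w => by simp)).mono (by rw [pow_succ'])
    exact h2

/-- the jump function -/
def PathRec_D {KW : Type} {N : ℕ} (g : ℕ → (KW → Fin N) → ℤ) (S : ℤ) (p q : ℕ)
    (w : KW → Fin N) : ℕ := if g p w < S ∧ S ≤ g q w then 1 else 0

theorem PathRec_D_add {KW : Type} {N : ℕ} (g : ℕ → (KW → Fin N) → ℤ) (S : ℤ) (p q r : ℕ)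
    (w : KW → Fin N) (h1 : g p w ≤ g q w) (h2 : g q w ≤ g r w) :
    PathRec_D g S p q w + PathRec_D g S q r w = PathRec_D g S p r w := by
  unfold PathRec_D
  split_ifs <;> omega

theorem PathRec_D_tele {KW : Type} {N : ℕ} (g : ℕ → (KW → Fin N) → ℤ) (S : ℤ) {R : ℕ}
    (hg : ∀ p q, p ≤ q → q ≤ R → ∀ w, g p w ≤ g q w) (p s n : ℕ) (h : p + n * s ≤ R)
    (w : KW → Fin N) :
    ∑ i ∈ Finset.range n, PathRec_D g S (p + i * s) (p + (i + 1) * s) w =
      PathRec_D g S p (p + n * s) w := by
  induction n with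
  | zero =>
    simp only [Finset.range_zero, Finset.sum_empty, zero_mul, add_zero]
    unfold PathRec_D
    rw [if_neg (by omega)]
  | succ n ih =>
    have e : (n + 1) * s = n * s + s := by ring
    rw [Finset.sum_range_succ, ih (by rw [e] at h; omega)]
    apply PathRec_D_add
    · exact hg _ _ (by omega) (by rw [e] at h; omega) w
    · exact hg _ _ (by rw [e]; omega) h w

theorem PathRec_abel (t qv d : ℕ → ℕ) (m : ℕ) (h0 : t 0 = 0) (hm : t (m + 1) = 0)
    (h : ∀ i, i < m + 1 → t i + qv i + t (i + 1) = 1) :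
    ∑ i ∈ Finset.range (m + 1), d i = ∑ i ∈ Finset.range (m + 1), qv i * d i +
      ∑ i ∈ Finset.range m, t (i + 1) * (d i + d (i + 1)) := by
  have h1 : ∑ i ∈ Finset.range (m + 1), d i =
      ∑ i ∈ Finset.range (m + 1), (t i * d i + qv i * d i + t (i + 1) * d i) := by
    apply Finset.sum_congr rfl
    intro i hi
    rw [← add_mul, ← add_mul, h i (Finset.mem_range.mp hi), one_mul]
  have h2 : ∑ i ∈ Finset.range (m + 1), t i * d i =
      ∑ i ∈ Finset.range m, t (i + 1) * d (i + 1) := by
    rw [Finset.sum_range_succ', h0]; simp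
  have h3 : ∑ i ∈ Finset.range (m + 1), t (i + 1) * d i =
      ∑ i ∈ Finset.range m, t (i + 1) * d i := by
    rw [Finset.sum_range_succ, hm]; simp
  have h4 : ∑ i ∈ Finset.range m, t (i + 1) * (d i + d (i + 1)) =
      ∑ i ∈ Finset.range m, t (i + 1) * d i + ∑ i ∈ Finset.range m, t (i + 1) * d (i + 1) := by
    rw [← Finset.sum_add_distrib]
    apply Finset.sum_congr rfl
    intro i _
    ring
  rw [h1, Finset.sum_add_distrib, Finset.sum_add_distrib, h2, h3, h4]
  ring

/-- TASK. The recursion. g p w is nondecreasing in p ≤ R, D p q = [g p w < T ≤ g q w]; D p q + D q r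
= D p r. Induction on k. k = 0: IPow (Fin a) 0 = Empty, the function depends on the inr part
only: Rep.tensor with the function 1 on Empty (cost 1, the empty box), or rep_box. Step k+1:
index type (Fin a + IPow (Fin a) k) + KW = Fin a + (IPow (Fin a) k + KW) (Equiv.sumAssoc, Rep.equiv);
with D_i = D (p+i r0^k) (p+(i+1) r0^k), i < r0,
D p (p+r0^(k+1)) = sum_i D_i = sum_i (T_i + ind Q_i + T_(i+1)) (y) D_i
 = sum_(i<r0) ind Q_i (y) * D_i + sum_(i<r0-1) T_(i+1) (y) * (D_i + D_(i+1)), as T_0 = T_r0 = 0, and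
D_i + D_(i+1) = D (p+i r0^k) (p+(i+2) r0^k) is a same parity difference (hH) since r0 is odd.
First sum: rep_box for Q_i (weight 1: there is no special coordinate) tensor induction hypothesis.
Second sum: T_(i+1) (cost CT) tensor 1 on IPow (Fin a) k (cost f0^k) tensor D (cost H). -/
theorem path_rec {KW : Type} [Fintype KW] {N : ℕ} {spW : KW → Bool} {x y : ℝ} (hx : 1 ≤ x)
    (hy : 1 ≤ y) {a r0 : ℕ} (hr0 : Odd r0)
    (T : ℕ → (Fin a → Fin N) → ℕ) (Q : ℕ → Fin a → Finset (Fin N))
    (hT0 : ∀ z, T 0 z = 0) (hTr : ∀ z, T r0 z = 0)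
    (hQ : ∀ i, i < r0 → Ok (fun _ => false) (Q i))
    (hTQ : ∀ i, i < r0 → ∀ z, T i z + ind (Q i) z + T (i + 1) z = 1)
    {CT f0 G H : ℝ} (hCT : 0 ≤ CT) (hG : 0 ≤ G) (hH : 0 ≤ H) (hf0 : (r0 : ℝ) ≤ f0)
    (hT : ∀ i, i ≤ r0 → Rep (fun _ => false) x y (T i) CT)
    (hY : Rep (K := Fin a) (N := N) (fun _ => false) x y (fun _ => 1) f0)
    (g : ℕ → (KW → Fin N) → ℤ) (S : ℤ) {R : ℕ}
    (hg : ∀ p q, p ≤ q → q ≤ R → ∀ w, g p w ≤ g q w)
    (hGp : ∀ p, p < R → Rep spW x y (fun w => if g p w < S ∧ S ≤ g (p + 1) w then 1 else 0) G)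
    (hHp : ∀ p q, p < q → q ≤ R → p % 2 = q % 2 →
      Rep spW x y (fun w => if g p w < S ∧ S ≤ g q w then 1 else 0) H)
    (k p : ℕ) (hp : p + r0 ^ k ≤ R) :
    Rep (Sum.elim (spow (fun _ : Fin a => false) k) spW) x y
      (fun w => if g p (fun k => w (Sum.inr k)) < S ∧ S ≤ g (p + r0 ^ k) (fun k => w (Sum.inr k))
        then 1 else 0)
      ((r0 : ℝ) ^ k * G + k * (r0 * CT) * f0 ^ k * H) := by
  have hx0 : (0 : ℝ) ≤ x := by linarith
  have hy0 : (0 : ℝ) ≤ y := by linarith
  obtain ⟨m, rfl⟩ : ∃ m, r0 = m + 1 := ⟨r0 - 1, by have := hr0.pos; omega⟩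
  have hf1 : (1 : ℝ) ≤ f0 := by
    refine le_trans ?_ hf0
    push_cast
    have : (0 : ℝ) ≤ m := Nat.cast_nonneg m
    linarith
  induction k generalizing p with
  | zero =>
    have h1 := PathRec_empty (K := Fin a) (N := N) (fun _ => false) x y
    have h2 := hGp p (by rw [pow_zero] at hp; omega)
    have h3 := Rep.tensor hx0 hy0 h1 h2
    refine (h3.congr ?_).mono ?_
    · intro w
      rw [one_mul, pow_zero]
    · simp
  | succ k ih =>
    set s : ℕ := (m + 1) ^ k with hs
    have hspos : 0 < s := by positivity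
    have hpow : (m + 1) ^ (k + 1) = (m + 1) * s := by rw [hs, pow_succ]; ring
    rw [hpow] at hp ⊢
    have hle : ∀ i, i ≤ m + 1 → p + i * s ≤ R := by
      intro i hi
      have := Nat.mul_le_mul_right s hi
      omega
    set CH : ℝ := ((m + 1 : ℕ) : ℝ) ^ k * G + k * (((m + 1 : ℕ) : ℝ) * CT) * f0 ^ k * H with hCH
    -- first family
    have hA : Rep (Sum.elim (fun _ : Fin a => false)
        (Sum.elim (spow (fun _ : Fin a => false) k) spW)) x y
        (fun w => ∑ i ∈ Finset.range (m + 1), ind (Q i) (fun j => w (Sum.inl j)) *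
          PathRec_D g S (p + i * s) (p + (i + 1) * s) (fun j => w (Sum.inr (Sum.inr j))))
        (∑ _i ∈ Finset.range (m + 1), CH) := by
      apply rep_finset_sum
      intro i hi
      have hi' : i < m + 1 := Finset.mem_range.mp hi
      have h1 := rep_box (x := x) (y := y) (hQ i hi')
      have hle1 : p + i * s + s ≤ R := by
        have := hle (i + 1) (by omega)
        rw [add_mul, one_mul] at this
        omega
      have h2 := ih (p + i * s) hle1
      have h3 := Rep.tensor hx0 hy0 h1 h2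
      refine (h3.congr ?_).mono ?_
      · intro w
        rw [add_mul, one_mul, ← add_assoc]
        rfl
      · apply le_of_eq
        unfold ca cb
        simp [hCH]
    -- second family
    have hpow1 := PathRec_pow hx0 hy0 hY k
    have hB : Rep (Sum.elim (fun _ : Fin a => false)
        (Sum.elim (spow (fun _ : Fin a => false) k) spW)) x y
        (fun w => ∑ i ∈ Finset.range m, T (i + 1) (fun j => w (Sum.inl j)) *
          (PathRec_D g S (p + i * s) (p + (i + 1) * s) (fun j => w (Sum.inr (Sum.inr j))) +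
          PathRec_D g S (p + (i + 1) * s) (p + (i + 1 + 1) * s)
            (fun j => w (Sum.inr (Sum.inr j)))))
        (∑ _i ∈ Finset.range m, CT * (f0 ^ k * H)) := by
      apply rep_finset_sum
      intro i hi
      have hi' : i < m := Finset.mem_range.mp hi
      have h1 := hT (i + 1) (by omega)
      have e2 : p + (i + 1 + 1) * s = p + i * s + 2 * s := by ring
      have h2 := hHp (p + i * s) (p + (i + 1 + 1) * s) (by rw [e2]; omega)
        (hle (i + 1 + 1) (by omega)) (by rw [e2]; omega)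
      have h3 := Rep.tensor hx0 hy0 h1 (Rep.tensor hx0 hy0 hpow1 h2)
      refine h3.congr ?_
      intro w
      rw [one_mul]
      congr 1
      symm
      apply PathRec_D_add
      · exact hg _ _ (by rw [add_mul]; omega) (hle (i + 1) (by omega)) _
      · exact hg _ _ (by rw [add_mul (i + 1)]; omega) (hle (i + 1 + 1) (by omega)) _
    have hAB := hA.add hB
    -- the identity
    have hid : ∀ (z : Fin a → Fin N) (w : KW → Fin N),
        ∑ i ∈ Finset.range (m + 1), ind (Q i) z * PathRec_D g S (p + i * s) (p + (i + 1) * s) w +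
        ∑ i ∈ Finset.range m, T (i + 1) z * (PathRec_D g S (p + i * s) (p + (i + 1) * s) w +
          PathRec_D g S (p + (i + 1) * s) (p + (i + 1 + 1) * s) w) =
        PathRec_D g S p (p + (m + 1) * s) w := by
      intro z w
      rw [← PathRec_D_tele g S hg p s (m + 1) (hle (m + 1) le_rfl) w]
      exact (PathRec_abel (fun i => T i z) (fun i => ind (Q i) z)
        (fun i => PathRec_D g S (p + i * s) (p + (i + 1) * s) w) m (hT0 z) (hTr z)
        (fun i hi => hTQ i hi z)).symm
    have hE := Rep.equiv (Equiv.sumAssoc (Fin a) (IPow (Fin a) k) KW) hAB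
    have hsp : (fun j => (Sum.elim (fun _ : Fin a => false)
        (Sum.elim (spow (fun _ : Fin a => false) k) spW))
          ((Equiv.sumAssoc (Fin a) (IPow (Fin a) k) KW) j)) =
        Sum.elim (Sum.elim (fun _ : Fin a => false) (spow (fun _ : Fin a => false) k)) spW := by
      funext j
      rcases j with (j | j) | j <;> rfl
    rw [hsp] at hE
    have hF : Rep (Sum.elim (Sum.elim (fun _ : Fin a => false) (spow (fun _ : Fin a => false) k))
        spW) x y (fun w => PathRec_D g S p (p + (m + 1) * s) (fun j => w (Sum.inr j)))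
        (((m + 1 : ℕ) : ℝ) ^ (k + 1) * G +
          ((k + 1 : ℕ) : ℝ) * (((m + 1 : ℕ) : ℝ) * CT) * f0 ^ (k + 1) * H) := by
      refine (hE.congr ?_).mono ?_
      · intro w
        exact hid (fun j => w (Sum.inl (Sum.inl j))) (fun j => w (Sum.inr j))
      · rw [Finset.sum_const, Finset.sum_const, Finset.card_range, Finset.card_range,
          nsmul_eq_mul, nsmul_eq_mul, hCH]
        have hfk : (0 : ℝ) ≤ f0 ^ k := by positivity
        have hP : (0 : ℝ) ≤ CT * f0 ^ k * H := by positivity
        have hm0 : (0 : ℝ) ≤ m := Nat.cast_nonneg m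
        have hk0 : (0 : ℝ) ≤ k := Nat.cast_nonneg k
        have hr : ((m + 1 : ℕ) : ℝ) = m + 1 := by push_cast; ring
        rw [hr] at hf0 ⊢
        have hk1 : ((k + 1 : ℕ) : ℝ) = k + 1 := by push_cast; ring
        rw [hk1]
        have i1 : (k : ℝ) * (m + 1) * (CT * f0 ^ k * H) * (m + 1) ≤
            (k : ℝ) * (m + 1) * (CT * f0 ^ k * H) * f0 :=
          mul_le_mul_of_nonneg_left hf0 (by positivity)
        have i2 : (m : ℝ) * (CT * f0 ^ k * H) ≤ (m + 1) * (CT * f0 ^ k * H) * f0 := by
          have j1 : (m : ℝ) * (CT * f0 ^ k * H) ≤ (m + 1) * (CT * f0 ^ k * H) := by nlinarith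
          have j2 : (m + 1) * (CT * f0 ^ k * H) ≤ (m + 1) * (CT * f0 ^ k * H) * f0 :=
            le_mul_of_one_le_right (by positivity) hf1
          exact j1.trans j2
        have e1 : ((m : ℝ) + 1) * ((m + 1) ^ k * G + k * ((m + 1) * CT) * f0 ^ k * H) +
            m * (CT * (f0 ^ k * H)) = (m + 1) ^ (k + 1) * G +
            (k * (m + 1) * (CT * f0 ^ k * H) * (m + 1) + m * (CT * f0 ^ k * H)) := by ring
        have e2 : ((m : ℝ) + 1) ^ (k + 1) * G + (k + 1) * ((m + 1) * CT) * f0 ^ (k + 1) * H =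
            (m + 1) ^ (k + 1) * G + (k * (m + 1) * (CT * f0 ^ k * H) * f0 +
            (m + 1) * (CT * f0 ^ k * H) * f0) := by ring
        rw [e1, e2]
        linarith
    exact hF

end F95
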