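import Pool.Agent.W_f95cc0_h94.Basic

set_option autoImplicit false

namespace F95

/-- the pulled back box -/
def pull {K : Type} {N N' : ℕ} (p : Fin N' → Fin N) (B : K → Finset (Fin N)) : K → Finset (Fin N') :=
  fun k => Finset.univ.filter (fun t => p t ∈ B k)

/-- the map has odd fibres and respects the end letters -/
structure Good {N N' : ℕ} (p : Fin N' → Fin N) : Prop where
  odd : ∀ s, Odd (Finset.univ.filter (fun t => p t = s)).card
  zero : ∀ t : Fin N', (t : ℕ) = 0 → (p t : ℕ) = 0
  last : ∀ t : Fin N', (t : ℕ) + 1 = N' → (p t : ℕ) + 1 = N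

theorem pull_has0 {K : Type} {N N' : ℕ} {p : Fin N' → Fin N} (hp : Good p)
    {B : K → Finset (Fin N)} {k : K} (h : has0 (pull p B k)) : has0 (B k) := by
  obtain ⟨t, ht, h0⟩ := h
  exact ⟨p t, (Finset.mem_filter.1 ht).2, hp.zero t h0⟩

theorem pull_hasL {K : Type} {N N' : ℕ} {p : Fin N' → Fin N} (hp : Good p)
    {B : K → Finset (Fin N)} {k : K} (h : hasL (pull p B k)) : hasL (B k) := by
  obtain ⟨t, ht, h0⟩ := h
  exact ⟨p t, (Finset.mem_filter.1 ht).2, hp.last t h0⟩

/-- TASK. Pull back of odd sets is odd (sum over the fibres), proper sets stay proper since p is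
surjective, and has0, hasL of the pull back imply has0, hasL of the box. -/
theorem ok_pull {K : Type} {N N' : ℕ} {sp : K → Bool} {p : Fin N' → Fin N} (hp : Good p)
    {B : K → Finset (Fin N)} (hB : Ok sp B) : Ok sp (pull p B) := by
  intro k
  obtain ⟨h1, h2, h3⟩ := hB k
  refine ⟨?_, ?_, ?_⟩
  · have e : (pull p B k).card =
        ∑ s ∈ B k, (Finset.univ.filter (fun t => p t = s)).card := by
      have hm : ∀ t ∈ pull p B k, p t ∈ B k := fun t ht => (Finset.mem_filter.1 ht).2
      rw [Finset.card_eq_sum_card_fiberwise (f := p) (s := pull p B k) (t := B k) hm]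
      refine Finset.sum_congr rfl fun s hs => ?_
      congr 1
      ext t
      simp only [F95.pull, Finset.mem_filter, Finset.mem_univ, true_and]
      constructor
      · exact fun h => h.2
      · intro h
        exact ⟨h ▸ hs, h⟩
    rw [e, Finset.odd_sum_iff_odd_card_odd]
    have e2 : (B k).filter (fun s => Odd (Finset.univ.filter (fun t => p t = s)).card) = B k :=
      Finset.filter_true_of_mem fun s _ => hp.odd s
    rw [e2]
    exact h1
  · intro hu
    apply h2
    rw [Finset.eq_univ_iff_forall]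
    intro s
    obtain ⟨t, ht⟩ := Finset.card_pos.1 (hp.odd s).pos
    have h4 : t ∈ pull p B k := by rw [hu]; exact Finset.mem_univ t
    have h5 := (Finset.mem_filter.1 h4).2
    rwa [(Finset.mem_filter.1 ht).2] at h5
  · intro hs h
    exact h3 hs ⟨pull_has0 hp h.1, pull_hasL hp h.2⟩

theorem ind_pull {K : Type} [Fintype K] {N N' : ℕ} (p : Fin N' → Fin N)
    (B : K → Finset (Fin N)) (w : K → Fin N') :
    ind (pull p B) w = ind B (fun k => p (w k)) := by
  unfold ind F95.pull
  simp only [Finset.mem_filter, Finset.mem_univ, true_and]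

theorem ca_pull_le {K : Type} [Fintype K] {N N' : ℕ} (sp : K → Bool) {p : Fin N' → Fin N}
    (hp : Good p) (B : K → Finset (Fin N)) : ca sp (pull p B) ≤ ca sp B := by
  unfold ca
  refine Finset.sum_le_sum fun k _ => ?_
  by_cases h : sp k = true ∧ has0 (pull p B k)
  · rw [if_pos h, if_pos ⟨h.1, pull_has0 hp h.2⟩]
  · rw [if_neg h]
    exact Nat.zero_le _

theorem cb_pull_le {K : Type} [Fintype K] {N N' : ℕ} (sp : K → Bool) {p : Fin N' → Fin N}
    (hp : Good p) (B : K → Finset (Fin N)) : cb sp (pull p B) ≤ cb sp B := by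
  unfold cb
  refine Finset.sum_le_sum fun k _ => ?_
  by_cases h : sp k = true ∧ hasL (pull p B k)
  · rw [if_pos h, if_pos ⟨h.1, pull_hasL hp h.2⟩]
  · rw [if_neg h]
    exact Nat.zero_le _

theorem Rep.pull {K : Type} [Fintype K] {N N' : ℕ} {sp : K → Bool} {x y : ℝ} (hx : 1 ≤ x)
    (hy : 1 ≤ y) {p : Fin N' → Fin N} (hp : Good p)
    {f : (K → Fin N) → ℕ} {c : ℝ} (hf : Rep sp x y f c) :
    Rep sp x y (fun w => f (fun k => p (w k))) c := by
  obtain ⟨L, h1, h2, h3⟩ := hf
  refine ⟨L.map (F95.pull p), ?_, ?_, ?_⟩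
  · intro B hB
    obtain ⟨B0, hB0, rfl⟩ := List.mem_map.1 hB
    exact ok_pull hp (h1 B0 hB0)
  · intro w
    show _ = f fun k => p (w k)
    rw [List.map_map, ← h2]
    congr 1
    apply List.map_congr_left
    intro B _
    exact ind_pull p B w
  · rw [List.map_map]
    refine le_trans (List.sum_le_sum fun B _ => ?_) h3
    simp only [Function.comp]
    exact mul_le_mul (pow_le_pow_right₀ hx (ca_pull_le sp hp B))
      (pow_le_pow_right₀ hy (cb_pull_le sp hp B)) (by positivity) (by positivity)

end F95
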