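import Pool.Agent.W_f95cc0_h94.Pull

set_option autoImplicit false

namespace F95

/-- the shift map: t goes to min (t - 2hp) (2h) -/
def shf (h Nt p : ℕ) (t : Fin Nt) : Fin (2 * h + 1) :=
  ⟨min ((t : ℕ) - 2 * h * p) (2 * h), Nat.lt_succ_of_le (min_le_right _ _)⟩

/-- the sum of two shift maps -/
def sg (h Nt p p' : ℕ) (t : Fin Nt) : Fin (4 * h + 1) :=
  ⟨min ((t : ℕ) - 2 * h * p) (2 * h) + min ((t : ℕ) - 2 * h * p') (2 * h), by
    have h1 := min_le_right ((t : ℕ) - 2 * h * p) (2 * h)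
    have h2 := min_le_right ((t : ℕ) - 2 * h * p') (2 * h)
    omega⟩

end F95
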