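import Pool.Agent.W_f95cc0_h94.Basic

set_option autoImplicit false

namespace F95

/-- the side: letters outside the pairs with index in U -/
def walkSide (N : ℕ) (U : Finset ℕ) : Finset (Fin N) :=
  Finset.univ.filter (fun t => (t : ℕ) / 2 ∉ U)

theorem walk_mem_side {N : ℕ} {U : Finset ℕ} {t : Fin N} :
    t ∈ walkSide N U ↔ (t : ℕ) / 2 ∉ U := by
  simp [walkSide]

/-- the points of the box all of whose sides are walkSide N U -/
def walkBox (a N : ℕ) (U : Finset ℕ) (y : Fin a → Fin N) : Prop := ∀ k, y k ∈ walkSide N U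

theorem walk_box_union {a N : ℕ} {U V : Finset ℕ} {y : Fin a → Fin N} :
    walkBox a N (U ∪ V) y ↔ walkBox a N U y ∧ walkBox a N V y := by
  unfold walkBox
  rw [← forall_and]
  refine forall_congr' fun k => ?_
  rw [walk_mem_side, walk_mem_side, walk_mem_side, Finset.mem_union, not_or]

theorem walk_fiber (a j : ℕ) (hj : j ≤ a) :
    (Finset.univ.filter (fun t : Fin (2 * (a + 1) + 1) => (t : ℕ) / 2 = j)).card = 2 := by
  have h : Finset.univ.filter (fun t : Fin (2 * (a + 1) + 1) => (t : ℕ) / 2 = j) =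
      {(⟨2 * j, by omega⟩ : Fin (2 * (a + 1) + 1)), ⟨2 * j + 1, by omega⟩} := by
    ext t
    simp only [Finset.mem_filter, Finset.mem_univ, true_and, Finset.mem_insert,
      Finset.mem_singleton, Fin.ext_iff]
    omega
  rw [h, Finset.card_pair]
  intro h2
  have := congrArg Fin.val h2
  simp at this

theorem walk_side_card (a : ℕ) (U : Finset ℕ) (hU : ∀ j ∈ U, j ≤ a) :
    (walkSide (2 * (a + 1) + 1) U).card + 2 * U.card = 2 * (a + 1) + 1 := by
  have h1 : (Finset.univ.filter (fun t : Fin (2 * (a + 1) + 1) => (t : ℕ) / 2 ∈ U)).card =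
      2 * U.card := by
    rw [Finset.card_eq_sum_card_fiberwise (f := fun t : Fin (2 * (a + 1) + 1) => (t : ℕ) / 2)
      (t := U)]
    · have h3 : ∀ j ∈ U, (Finset.filter (fun t : Fin (2 * (a + 1) + 1) => (t : ℕ) / 2 = j)
          (Finset.univ.filter (fun t : Fin (2 * (a + 1) + 1) => (t : ℕ) / 2 ∈ U))).card = 2 := by
        intro j hj
        rw [Finset.filter_filter]
        refine Eq.trans (congrArg Finset.card ?_) (walk_fiber a j (hU j hj))
        ext t
        simp only [Finset.mem_filter, Finset.mem_univ, true_and]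
        constructor
        · exact fun h => h.2
        · intro h
          exact ⟨by rw [h]; exact hj, h⟩
      rw [Finset.sum_congr rfl h3, Finset.sum_const, smul_eq_mul, Nat.mul_comm]
    · intro t ht
      simpa using ht
  have h2 := Finset.card_filter_add_card_filter_not (s := (Finset.univ : Finset (Fin (2 * (a + 1) + 1))))
    (fun t : Fin (2 * (a + 1) + 1) => (t : ℕ) / 2 ∈ U)
  rw [h1, Finset.card_univ, Fintype.card_fin] at h2
  unfold walkSide
  omega

theorem walk_ok (a : ℕ) (U : Finset ℕ) (hU : ∀ j ∈ U, j ≤ a) (hne : U.Nonempty) :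
    Ok (K := Fin a) (fun _ => false) (fun _ => walkSide (2 * (a + 1) + 1) U) := by
  intro k
  have h := walk_side_card a U hU
  refine ⟨?_, ?_, by simp⟩
  · show Odd (walkSide (2 * (a + 1) + 1) U).card
    rw [Nat.odd_iff]; omega
  · intro h2
    have h3 := Finset.card_pos.2 hne
    have h4 : (walkSide (2 * (a + 1) + 1) U).card = 2 * (a + 1) + 1 := by
      show ((fun _ : Fin a => walkSide (2 * (a + 1) + 1) U) k).card = _
      rw [h2, Finset.card_univ, Fintype.card_fin]
    omega

/-- C is the disjoint union of A and B -/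
def walkAdd {Y : Type} (A B C : Y → Prop) : Prop := ∀ y, (C y ↔ A y ∨ B y) ∧ ¬ (A y ∧ B y)

theorem walk_exists_seq (a N : ℕ) (b : ℕ) :
    ∃ (S : ℕ → (Fin a → Fin N) → Prop) (V : ℕ → Finset ℕ),
      (∀ y, ¬ S 0 y) ∧
      (∀ y, S (2 ^ (b + 1) - 1) y ↔ ∃ j, j ≤ b ∧ walkBox a N {j} y) ∧
      (∀ i, i < 2 ^ (b + 1) - 1 → (V i).Nonempty ∧ ∀ j ∈ V i, j ≤ b) ∧
      (∀ i, i < 2 ^ (b + 1) - 1 → i % 2 = 0 → walkAdd (S i) (walkBox a N (V i)) (S (i + 1))) ∧
      (∀ i, i < 2 ^ (b + 1) - 1 → i % 2 = 1 → walkAdd (S (i + 1)) (walkBox a N (V i)) (S i)) := by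
  induction b with
  | zero =>
    refine ⟨fun i y => i = 1 ∧ walkBox a N {0} y, fun _ => {0}, by simp, ?_, ?_, ?_, ?_⟩
    · intro y
      constructor
      · rintro ⟨_, h⟩
        exact ⟨0, le_rfl, h⟩
      · rintro ⟨j, hj, h⟩
        have : j = 0 := by omega
        subst this
        exact ⟨by norm_num, h⟩
    · intro i _
      exact ⟨⟨0, by simp⟩, by intro j hj; simp at hj; omega⟩
    · intro i hi _ y
      have : i = 0 := by norm_num at hi; omega
      subst this
      simp
    · intro i hi hi2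
      norm_num at hi
      omega
  | succ b ih =>
    obtain ⟨S, V, h0, hr, hV, he, ho⟩ := ih
    have hr1 : (2 ^ (b + 1) - 1) % 2 = 1 := by
      have : 2 ^ (b + 1) = 2 * 2 ^ b := by ring
      have h2 : 1 ≤ 2 ^ b := Nat.one_le_two_pow
      omega
    have hrr : 2 ^ (b + 1 + 1) - 1 = 2 * (2 ^ (b + 1) - 1) + 1 := by
      have : 2 ^ (b + 1 + 1) = 2 * 2 ^ (b + 1) := by ring
      have h2 : 1 ≤ 2 ^ (b + 1) := Nat.one_le_two_pow
      omega
    rw [hrr]
    generalize hrdef : 2 ^ (b + 1) - 1 = r at *
    -- the new sequence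
    let Q : (Fin a → Fin N) → Prop := walkBox a N {b + 1}
    let S' : ℕ → (Fin a → Fin N) → Prop := fun i y =>
      if i ≤ r then S i y
      else if i ≤ 2 * r then (S r y ∧ ¬ Q y) ∨ (S (2 * r - i) y ∧ Q y)
      else S r y ∨ Q y
    let V' : ℕ → Finset ℕ := fun i =>
      if i < r then V i
      else if i < 2 * r then V (2 * r - i - 1) ∪ {b + 1}
      else {b + 1}
    have hS1 : ∀ i y, i ≤ r → (S' i y ↔ S i y) := by
      intro i y hi
      show (if i ≤ r then S i y else _) ↔ _
      rw [if_pos hi]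
    have hS2 : ∀ i y, i ≤ r → (S' (r + i) y ↔ (S r y ∧ ¬ Q y) ∨ (S (r - i) y ∧ Q y)) := by
      intro i y hi
      rcases Nat.eq_zero_or_pos i with h1 | h1
      · subst h1
        rw [Nat.add_zero, hS1 r y le_rfl, Nat.sub_zero]
        tauto
      · show (if r + i ≤ r then S (r + i) y else if r + i ≤ 2 * r then _ else _) ↔ _
        rw [if_neg (by omega), if_pos (by omega)]
        have : 2 * r - (r + i) = r - i := by omega
        rw [this]
    have hS3 : ∀ y, (S' (2 * r + 1) y ↔ S r y ∨ Q y) := by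
      intro y
      show (if 2 * r + 1 ≤ r then _ else if 2 * r + 1 ≤ 2 * r then _ else _) ↔ _
      rw [if_neg (by omega), if_neg (by omega)]
    have hV1 : ∀ i, i < r → V' i = V i := by
      intro i hi
      show (if i < r then V i else _) = _
      rw [if_pos hi]
    have hV2 : ∀ i, i < r → V' (r + i) = V (r - i - 1) ∪ {b + 1} := by
      intro i hi
      show (if r + i < r then _ else if r + i < 2 * r then V (2 * r - (r + i) - 1) ∪ {b + 1}
        else _) = _
      rw [if_neg (by omega), if_pos (by omega)]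
      have : 2 * r - (r + i) - 1 = r - i - 1 := by omega
      rw [this]
    have hV3 : V' (2 * r) = {b + 1} := by
      show (if 2 * r < r then _ else if 2 * r < 2 * r then _ else _) = _
      rw [if_neg (by omega), if_neg (by omega)]
    have hcase : ∀ i, i < 2 * r + 1 → i < r ∨ (∃ i', i = r + i' ∧ i' < r) ∨ i = 2 * r := by
      intro i hi
      rcases Nat.lt_or_ge i r with h1 | h1
      · exact Or.inl h1
      · rcases Nat.lt_or_ge i (2 * r) with h2 | h2
        · exact Or.inr (Or.inl ⟨i - r, by omega, by omega⟩)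
        · exact Or.inr (Or.inr (by omega))
    refine ⟨S', V', ?_, ?_, ?_, ?_, ?_⟩
    · intro y
      rw [hS1 0 y (Nat.zero_le _)]
      exact h0 y
    · intro y
      rw [hS3, hr]
      constructor
      · rintro (⟨j, hj, h⟩ | h)
        · exact ⟨j, by omega, h⟩
        · exact ⟨b + 1, le_rfl, h⟩
      · rintro ⟨j, hj, h⟩
        rcases Nat.lt_or_ge j (b + 1) with h1 | h1
        · exact Or.inl ⟨j, by omega, h⟩
        · have : j = b + 1 := by omega
          subst this
          exact Or.inr h
    · intro i hi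
      rcases hcase i hi with h | ⟨i', rfl, h⟩ | rfl
      · rw [hV1 i h]
        exact ⟨(hV i h).1, fun j hj => ((hV i h).2 j hj).trans (Nat.le_succ b)⟩
      · rw [hV2 i' h]
        refine ⟨⟨b + 1, by simp⟩, ?_⟩
        intro j hj
        rw [Finset.mem_union, Finset.mem_singleton] at hj
        rcases hj with hj | hj
        · exact ((hV (r - i' - 1) (by omega)).2 j hj).trans (Nat.le_succ b)
        · exact hj.le
      · rw [hV3]
        exact ⟨⟨b + 1, by simp⟩, by intro j hj; simp at hj; omega⟩
    · intro i hi hpar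
      rcases hcase i hi with h | ⟨i', rfl, h⟩ | rfl
      · intro y
        rw [hV1 i h, hS1 i y h.le, hS1 (i + 1) y h]
        exact he i h hpar y
      · intro y
        have h1 := ho (r - i' - 1) (by omega) (by omega) y
        have h2 : r - i' - 1 + 1 = r - i' := by omega
        rw [h2] at h1
        have h3 : r + i' + 1 = r + (i' + 1) := by omega
        have h4 : r - (i' + 1) = r - i' - 1 := by omega
        rw [hV2 i' h, hS2 i' y h.le, h3, hS2 (i' + 1) y h, h4, walk_box_union]
        change (S r y ∧ ¬ Q y ∨ S (r - i' - 1) y ∧ Q y ↔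
          (S r y ∧ ¬ Q y ∨ S (r - i') y ∧ Q y) ∨ (walkBox a N (V (r - i' - 1)) y ∧ Q y)) ∧ _
        change _ ∧ ¬ ((S r y ∧ ¬ Q y ∨ S (r - i') y ∧ Q y) ∧
          (walkBox a N (V (r - i' - 1)) y ∧ Q y))
        tauto
      · intro y
        have h5 : 2 * r = r + r := by omega
        rw [hV3, hS3, h5, hS2 r y le_rfl, Nat.sub_self]
        have h6 := h0 y
        change (S r y ∨ Q y ↔ (S r y ∧ ¬ Q y ∨ S 0 y ∧ Q y) ∨ Q y) ∧
          ¬ ((S r y ∧ ¬ Q y ∨ S 0 y ∧ Q y) ∧ Q y)
        tauto
    · intro i hi hpar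
      rcases hcase i hi with h | ⟨i', rfl, h⟩ | rfl
      · intro y
        rw [hV1 i h, hS1 i y h.le, hS1 (i + 1) y h]
        exact ho i h hpar y
      · intro y
        have h1 := he (r - i' - 1) (by omega) (by omega) y
        have h2 : r - i' - 1 + 1 = r - i' := by omega
        rw [h2] at h1
        have h3 : r + i' + 1 = r + (i' + 1) := by omega
        have h4 : r - (i' + 1) = r - i' - 1 := by omega
        rw [hV2 i' h, hS2 i' y h.le, h3, hS2 (i' + 1) y h, h4, walk_box_union]
        change (S r y ∧ ¬ Q y ∨ S (r - i') y ∧ Q y ↔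
          (S r y ∧ ¬ Q y ∨ S (r - i' - 1) y ∧ Q y) ∨ (walkBox a N (V (r - i' - 1)) y ∧ Q y)) ∧ _
        change _ ∧ ¬ ((S r y ∧ ¬ Q y ∨ S (r - i' - 1) y ∧ Q y) ∧
          (walkBox a N (V (r - i' - 1)) y ∧ Q y))
        tauto
      · exfalso
        omega

theorem walk_pigeon (a N : ℕ) (y : Fin a → Fin N) : ∃ j, j ≤ a ∧ walkBox a N {j} y := by
  have h1 : (Finset.univ.image (fun k : Fin a => ((y k : Fin N) : ℕ) / 2)).card <
      (Finset.range (a + 1)).card := by
    refine lt_of_le_of_lt Finset.card_image_le ?_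
    rw [Finset.card_univ, Fintype.card_fin, Finset.card_range]
    omega
  obtain ⟨j, hj, hj2⟩ := Finset.exists_mem_notMem_of_card_lt_card h1
  refine ⟨j, by rw [Finset.mem_range] at hj; omega, ?_⟩
  intro k
  rw [walk_mem_side, Finset.mem_singleton]
  intro h
  apply hj2
  rw [Finset.mem_image]
  exact ⟨k, Finset.mem_univ _, h⟩

/-- TASK. Gray code walk on (Fin a -> X), X = Fin (2(a+1)+1), with the pairs P_j = {2j,2j+1},
j = 0..a. Let Q^U (U a nonempty set of j's) be the box all of whose sides are the complement of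
the union of the P_j, j in U (odd size, proper). GENERAL STEP: if S_0 = empty,...,S_r (r odd) are
sets, S_i differs from S_(i-1) by the box Q_i (added if i is odd, removed if i is even) and Q is
one more box, then S'_j = S_j (j ≤ r), S'_(r+i) = (S_r \ Q) u (S_(r-i) n Q) (0 ≤ i ≤ r),
S'_(2r+1) = S_r u Q is again such a sequence, of length 2r+1, with the boxes Q_j (j ≤ r),
Q_(r-i+1) n Q at step r+i, and Q at the last step. Start with r = 1, S_1 = Q^{0}, and use
Q = Q^{b}, b = 1..a; all boxes are of the form Q^U. At the end r = 2^(a+1)-1 and S_r is the union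
of the Q^{j}, j=0..a, which is everything by the pigeonhole principle (a coordinates meet at most
a of the a+1 pairs). T_i = S_i for even i and the complement of S_i for odd i (indicator
functions): everything is the disjoint union of T_(i-1), Q_i, T_i. Here step i of the statement is
i+1 above. (A formal proof may work with indicator functions S_i : points -> {0,1} and prove
by induction on b: exists S Q, S 0 = 0, S (2^(b+1)-1) = indicator of the union of Q^{j}, j ≤ b, all
Q i have the form Q^U with U a nonempty subset of {0..b}, S (i+1) = S i + Q i for i even,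
S i = S (i+1) + Q i for i odd.) -/
theorem exists_walk (a : ℕ) :
    ∃ (T : ℕ → (Fin a → Fin (2 * (a + 1) + 1)) → ℕ)
      (Q : ℕ → Fin a → Finset (Fin (2 * (a + 1) + 1))),
      (∀ y, T 0 y = 0) ∧ (∀ y, T (2 ^ (a + 1) - 1) y = 0) ∧
      (∀ i, i < 2 ^ (a + 1) - 1 → Ok (fun _ => false) (Q i)) ∧
      ∀ i, i < 2 ^ (a + 1) - 1 → ∀ y, T i y + ind (Q i) y + T (i + 1) y = 1 := by
  classical
  obtain ⟨S, V, h0, hr, hV, he, ho⟩ := walk_exists_seq a (2 * (a + 1) + 1) a
  have hr1 : (2 ^ (a + 1) - 1) % 2 = 1 := by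
    have : 2 ^ (a + 1) = 2 * 2 ^ a := by ring
    have h2 : 1 ≤ 2 ^ a := Nat.one_le_two_pow
    omega
  refine ⟨fun i y => if i % 2 = 0 then (if S i y then 1 else 0) else (if S i y then 0 else 1),
    fun i _ => walkSide (2 * (a + 1) + 1) (V i), ?_, ?_, ?_, ?_⟩
  · intro y
    simp [h0 y]
  · intro y
    have h1 : S (2 ^ (a + 1) - 1) y := (hr y).2 (walk_pigeon a _ y)
    simp [hr1, h1]
  · intro i hi
    exact walk_ok a (V i) (hV i hi).2 (hV i hi).1
  · intro i hi y
    have hind : ind (fun _ : Fin a => walkSide (2 * (a + 1) + 1) (V i)) y =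
        if walkBox a (2 * (a + 1) + 1) (V i) y then 1 else 0 := by
      unfold ind walkBox
      congr
    simp only [hind]
    rcases Nat.mod_two_eq_zero_or_one i with hpar | hpar
    · have h1 := he i hi hpar y
      have h2 : (i + 1) % 2 ≠ 0 := by omega
      rw [if_pos hpar, if_neg h2]
      by_cases hA : S i y <;> by_cases hB : walkBox a (2 * (a + 1) + 1) (V i) y <;>
        by_cases hC : S (i + 1) y <;> simp_all
    · have h1 := ho i hi hpar y
      have h2 : (i + 1) % 2 = 0 := by omega
      rw [if_neg (by omega), if_pos h2]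
      by_cases hA : S i y <;> by_cases hB : walkBox a (2 * (a + 1) + 1) (V i) y <;>
        by_cases hC : S (i + 1) y <;> simp_all

end F95
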