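import Pool.Agent.W_f95cc0_h94.Cost
import Pool.Agent.W_f95cc0_h94.PathRec
import Pool.Agent.W_f95cc0_h94.Walk
import Pool.Agent.W_f95cc0_h94.Lam
import Pool.Agent.W_f95cc0_h94.Params

set_option autoImplicit false

namespace F95

/-- partitions at all weights of level r, with nearly the right cost -/
def Stage (al q : ℝ) (Ks r : ℕ) : Prop :=
  ∀ eta : ℝ, 0 < eta → ∃ (K : Type) (_ : Fintype K) (sp : K → Bool) (h : ℕ), 1 ≤ h ∧ 1 ≤ cm sp ∧
    ∀ i j : ℕ, i + j + r = Ks →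
      Rep (K := K) (N := 2 * h + 1) sp (q ^ (2 * i)) (q ^ (2 * j)) (fun _ => 1)
        (((1 + eta) * lam q r i j) ^ cm sp * al ^ cn sp)

theorem cm_spow {K : Type} [Fintype K] (sp : K → Bool) : ∀ M : ℕ, cm (spow sp M) = cm sp * M
  | 0 => by
    simp only [cm, mul_zero]
    exact Finset.sum_of_isEmpty (ι := Empty) _
  | M + 1 => by
    have h := cm_sum sp (spow sp M)
    rw [cm_spow sp M] at h
    exact h.trans (by ring)

theorem cn_spow {K : Type} [Fintype K] (sp : K → Bool) : ∀ M : ℕ, cn (spow sp M) = cn sp * M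
  | 0 => by
    simp only [cn, mul_zero]
    exact Finset.sum_of_isEmpty (ι := Empty) _
  | M + 1 => by
    have h := cn_sum sp (spow sp M)
    rw [cn_spow sp M] at h
    exact h.trans (by ring)

theorem rep_plain {K : Type} [Fintype K] {N : ℕ} {f : (K → Fin N) → ℕ} {c : ℝ} (x y : ℝ)
    (h : Rep (fun _ : K => false) 1 1 f c) : Rep (fun _ : K => false) x y f c := by
  obtain ⟨L, h1, h2, h3⟩ := h
  refine ⟨L, h1, h2, ?_⟩
  refine le_trans (le_of_eq ?_) h3
  congr 1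
  apply List.map_congr_left
  intro B _
  simp [ca, cb]

/-- the construction: one step for one pair of partitions -/
theorem build {K : Type} [Fintype K] {sp : K → Bool} {h : ℕ} (hh : 1 ≤ h)
    {P1 P2 : List (K → Finset (Fin (2 * h + 1)))}
    (ho1 : ∀ B ∈ P1, Ok sp B) (ho2 : ∀ B ∈ P2, Ok sp B)
    (h1 : ∀ z, (P1.map (fun B => ind B z)).sum = 1)
    (h2 : ∀ z, (P2.map (fun B => ind B z)).sum = 1)
    {x y rho Lam1 Lam2 Lam C0 Z f0 : ℝ} (hx : 1 ≤ x) (hy : 1 ≤ y) (hr : 1 ≤ rho)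
    (hLam1 : 1 ≤ Lam1) (hLam2 : 1 ≤ Lam2) (hl1 : Lam1 ≤ Lam) (hl2 : Lam2 ≤ Lam)
    (hC0 : ((4 * h + 1 : ℕ) : ℝ) ^ Fintype.card K * (x * y) ^ Fintype.card K ≤ C0)
    (hL1 : (P1.map (fun B => (x * rho) ^ ca sp B * y ^ cb sp B)).sum ≤ Lam1)
    (hL2 : (P2.map (fun B => x ^ ca sp B * (y * rho) ^ cb sp B)).sum ≤ Lam2)
    (M T k a h' : ℕ) (hT : 1 ≤ T) (hTM : T ≤ cm sp * M) (hZ : 0 ≤ Z)
    (hT1 : Lam1 ^ M ≤ rho ^ T * Z)
    (hT2 : Lam2 ^ M * rho ^ T ≤ rho ^ (cm sp * M + 1) * Z)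
    (hh' : 1 ≤ h')
    (hY : Rep (K := Fin a) (N := 2 * h' + 1) (fun _ => false) 1 1 (fun _ => 1) f0)
    (hf0 : ((2 ^ (a + 1) - 1 : ℕ) : ℝ) ≤ f0) {H' : ℕ}
    (hH' : H' = h * (2 ^ (a + 1) - 1) ^ k + h + (a + 1) + h') :
    Rep (K := IPow (Fin a) k ⊕ IPow K M) (N := 2 * H' + 1)
      (Sum.elim (spow (fun _ : Fin a => false) k) (spow sp M)) x y (fun _ => 1)
      (((2 ^ (a + 1) - 1 : ℕ) : ℝ) ^ k * (M * (C0 * cm sp) * Lam ^ M) +
        k * (((2 ^ (a + 1) - 1 : ℕ) : ℝ) * ((2 * (a + 1) + 1 : ℕ) : ℝ) ^ a) * f0 ^ k *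
          (M * (C0 * cm sp * rho ^ cm sp) * (rho * Z))) := by
  set r0 : ℕ := 2 ^ (a + 1) - 1 with hr0
  have hr0odd : Odd r0 := by
    rw [hr0]
    have : 1 ≤ 2 ^ a := Nat.one_le_two_pow
    refine ⟨2 ^ a - 1, ?_⟩
    rw [pow_succ]
    omega
  set R : ℕ := r0 ^ k with hRdef
  have hR : Odd R := hr0odd.pow
  set Nt : ℕ := 2 * H' + 1 with hNtdef
  have hNodd : Odd Nt := ⟨H', rfl⟩
  have hNt : 2 * h * R + 2 * h + 1 ≤ Nt := by
    rw [hNtdef, hH']
    nlinarith [Nat.zero_le (h * R)]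
  have hNta : 2 * (a + 1) * 0 + 2 * (a + 1) + 1 ≤ Nt := by
    rw [hNtdef, hH']
    have := Nat.zero_le (h * r0 ^ k)
    omega
  have hNth' : 2 * h' * 0 + 2 * h' + 1 ≤ Nt := by
    rw [hNtdef, hH']
    have := Nat.zero_le (h * r0 ^ k)
    omega
  have hx0 : 0 ≤ x := by linarith
  have hy0 : 0 ≤ y := by linarith
  have hr00 : 0 < rho := by linarith
  have hC00 : 0 ≤ C0 := le_trans (by positivity) hC0
  have hLam : 1 ≤ Lam := hLam1.trans hl1
  obtain ⟨Tf, Q, hTf0, hTfr, hQ, hTQ⟩ := exists_walk a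
  have hgood : Good (shf (a + 1) Nt 0) := good_shf (by omega) hNodd hNta
  have hgood' : Good (shf h' Nt 0) := good_shf hh' hNodd hNth'
  have hT1le : ∀ i, i ≤ r0 → ∀ z, Tf i z ≤ 1 := by
    intro i hi z
    rcases Nat.lt_or_ge i r0 with h3 | h3
    · have := hTQ i h3 z
      omega
    · have h4 : i = r0 := le_antisymm hi h3
      rw [h4, hTfr]
      exact Nat.zero_le _
  have key := path_rec (KW := IPow K M) (N := Nt) (spW := spow sp M) (x := x) (y := y) hx hy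
    (a := a) (r0 := r0) hr0odd
    (fun i z => Tf i (fun k => shf (a + 1) Nt 0 (z k)))
    (fun i => pull (shf (a + 1) Nt 0) (Q i))
    (fun z => hTf0 _) (fun z => hTfr _)
    (fun i hi => ok_pull hgood (hQ i hi))
    (fun i hi z => by
      show Tf i _ + ind (pull (shf (a + 1) Nt 0) (Q i)) z + Tf (i + 1) _ = 1
      rw [ind_pull]
      exact hTQ i hi _)
    (CT := ((2 * (a + 1) + 1 : ℕ) : ℝ) ^ a) (f0 := f0)
    (G := M * (C0 * cm sp) * Lam ^ M)
    (H := M * (C0 * cm sp * rho ^ cm sp) * (rho * Z))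
    (by positivity) (by positivity) (by positivity) hf0
    (fun i hi => by
      have h5 := rep_points (K := Fin a) (N := 2 * (a + 1) + 1) (by omega) (fun _ => false)
        (x := 1) (y := 1) le_rfl le_rfl (Tf i) (hT1le i hi)
      have h6 := (rep_plain x y h5).pull hx hy hgood
      refine h6.mono (le_of_eq ?_)
      simp)
    ((rep_plain x y hY).pull hx hy hgood')
    (fun p w => (bsum (vv sp h P1 P2 R Nt p) M w : ℤ)) (T : ℤ) (R := R)
    (fun p q hpq hq w => by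
      rcases hpq.lt_or_eq with h5 | h5
      · exact_mod_cast bsum_mono (vv_mono hR ho1 ho2 h1 h2 h5 hq) M w
      · rw [h5])
    (fun p hp => cost_gen hh hR hNodd hNt ho1 ho2 h1 h2 hx hy hr hLam hC0 (hL1.trans hl1)
      (hL2.trans hl2) M (T : ℤ) (Nat.lt_succ_self p) hp)
    (fun p q hpq hq hpar => cost_same hh hR hNodd hNt ho1 ho2 h1 h2 hx hy hr hLam1 hLam2 hC0
      hL1 hL2 M T hZ hT1 hT2 hpq hq hpar)
    k 0 (by rw [zero_add])
  refine key.congr ?_
  intro w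
  have e0 : bsum (vv sp h P1 P2 R Nt 0) M (fun k => w (Sum.inr k)) = 0 := by
    rw [bsum_const (c := 0) (fun z => by simp [vv, vz]) M, zero_mul]
  have eR : bsum (vv sp h P1 P2 R Nt R) M (fun k => w (Sum.inr k)) = cm sp * M := by
    have hR0 : R ≠ 0 := by
      rcases hR with ⟨c, hc⟩
      omega
    exact bsum_const (c := cm sp) (fun z => by simp [vv, vz, hR0]) M _
  show (if ((bsum (vv sp h P1 P2 R Nt 0) M (fun k => w (Sum.inr k)) : ℕ) : ℤ) < (T : ℤ) ∧
    (T : ℤ) ≤ ((bsum (vv sp h P1 P2 R Nt (0 + r0 ^ k)) M (fun k => w (Sum.inr k)) : ℕ) : ℤ)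
    then 1 else 0) = 1
  rw [zero_add, ← hRdef, e0, eR, if_pos]
  constructor
  · exact_mod_cast hT
  · exact_mod_cast hTM

/-- the step -/
theorem stage_step {al q : ℝ} (hal : 2 < al) (hq : 1 < q)
    (hU : ∀ eps : ℝ, 0 < eps → ∃ h D : ℕ, 1 ≤ h ∧ ∀ d, D ≤ d →
      Rep (K := Fin d) (N := 2 * h + 1) (fun _ => false) 1 1 (fun _ => 1)
        (((1 + eps) * al) ^ d)) {Ks r : ℕ} (hS : Stage al q Ks r) : Stage al q Ks (r + 1) := by
  intro eta heta
  have he1 : 0 < eta / 2 := by linarith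
  obtain ⟨K, hK, sp, h, hh, hm, hP⟩ := hS (eta / 2) he1
  set e1 : ℝ := eta / 2 with he1def
  set m : ℕ := cm sp with hmdef
  set n : ℕ := cn sp with hndef
  have hal1 : 1 ≤ al := by linarith
  have hq0 : 0 < q := by linarith
  -- block costs
  let bc : ℕ → ℕ → ℕ → ℝ := fun s i j => ((1 + e1) * lam q s i j) ^ m * al ^ n
  have hbc1 : ∀ s i j, 1 ≤ bc s i j := by
    intro s i j
    have h1 := lam_one_le hq s i j
    have h2 : 1 ≤ (1 + e1) * lam q s i j := by nlinarith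
    exact one_le_mul_of_one_le_of_one_le (one_le_pow₀ h2) (one_le_pow₀ hal1)
  set Lam : ℝ := ∑ i ∈ Finset.range (Ks + 2), ∑ j ∈ Finset.range (Ks + 2), bc r i j with hLamdef
  have hLam : ∀ i j, i ≤ Ks + 1 → j ≤ Ks + 1 → bc r i j ≤ Lam := by
    intro i j hi hj
    have h1 : bc r i j ≤ ∑ j ∈ Finset.range (Ks + 2), bc r i j :=
      Finset.single_le_sum (f := fun j => bc r i j)
        (fun j _ => by linarith [hbc1 r i j]) (Finset.mem_range.2 (by omega))
    refine h1.trans ?_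
    exact Finset.single_le_sum (f := fun i => ∑ j ∈ Finset.range (Ks + 2), bc r i j)
        (fun i _ => Finset.sum_nonneg (fun j _ => by linarith [hbc1 r i j]))
        (Finset.mem_range.2 (by omega))
  have hLam1 : 1 ≤ Lam := (hbc1 r 0 0).trans (hLam 0 0 (by omega) (by omega))
  set ga : ℝ := (2 + al) / 2 with hgadef
  have hga2 : 2 < ga := by rw [hgadef]; linarith
  have hgaal : ga < al := by rw [hgadef]; linarith
  obtain ⟨A, hA⟩ := exists_A (ga := ga) (al := al) (Lam := Lam) (by linarith) hgaal (by linarith)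
  obtain ⟨eps, heps, hepsm⟩ := exists_eps he1 (show e1 < eta by rw [he1def]; linarith) A m hm
  obtain ⟨h', D, hh', hUd⟩ := hU eps heps
  obtain ⟨a, ha1, haD, ha2⟩ := exists_gamma hga2 D
  set r0 : ℕ := 2 ^ (a + 1) - 1 with hr0
  have hr0r : (r0 : ℝ) ≤ ga ^ a := by
    refine le_trans ?_ ha2
    rw [hr0]
    have : ((2 ^ (a + 1) - 1 : ℕ) : ℝ) ≤ ((2 ^ (a + 1) : ℕ) : ℝ) :=
      Nat.cast_le.2 (Nat.sub_le _ _)
    simpa using this
  set f0 : ℝ := ((1 + eps) * al) ^ a with hf0def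
  have hf0 : (r0 : ℝ) ≤ f0 := by
    refine hr0r.trans (pow_le_pow_left₀ (by linarith) ?_ a)
    nlinarith
  set C0 : ℝ := ((4 * h + 1 : ℕ) : ℝ) ^ Fintype.card K * (q ^ (4 * Ks)) ^ Fintype.card K with hC0def
  set rho : ℝ := q ^ 2 with hrhodef
  have hrho : 1 < rho := one_lt_pow₀ hq (by norm_num)
  set CT : ℝ := ((2 * (a + 1) + 1 : ℕ) : ℝ) ^ a with hCTdef
  set th : ℝ := (1 + eta) ^ m / ((1 + eps) ^ A * (1 + e1) ^ m) with hthdef
  have hth : 1 < th := by
    rw [hthdef, one_lt_div (by positivity)]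
    exact hepsm
  obtain ⟨L, hL1, hL⟩ := exists_big (c1 := a * (C0 * m))
    (c2 := A * (r0 * CT) * (a * (C0 * m * rho ^ m) * rho)) hth
  set M : ℕ := a * L with hMdef
  set k : ℕ := A * L with hkdef
  have hM1 : 1 ≤ M := by rw [hMdef]; exact Nat.mul_pos ha1 hL1
  clear_value M k
  have aux : ∀ c l1 l2 s : ℝ, ((c * l1) ^ m * s) * ((c * l2) ^ m * s) =
      (c ^ 2 * (l1 * l2)) ^ m * s ^ 2 := by intros; ring
  have aux2 : ∀ c q l s : ℝ, (q ^ 2) ^ m * ((c * l) ^ m * s) ^ 2 =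
      (c ^ 2 * (q ^ 2 * l ^ 2)) ^ m * s ^ 2 := by intros; ring
  refine ⟨IPow (Fin a) k ⊕ IPow K M, inferInstance,
    Sum.elim (spow (fun _ : Fin a => false) k) (spow sp M),
    h * (2 ^ (a + 1) - 1) ^ k + h + (a + 1) + h', by omega, ?_, ?_⟩
  · rw [cm_sum, cm_spow sp M]
    have : 1 ≤ cm sp * M := Nat.mul_pos hm hM1
    omega
  intro i j hij
  have hcmnew : cm (Sum.elim (spow (fun _ : Fin a => false) k) (spow sp M)) = m * M := by
    rw [cm_sum, cm_spow, cm_spow]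
    simp [cm, hmdef]
  have hcnnew : cn (Sum.elim (spow (fun _ : Fin a => false) k) (spow sp M)) = a * k + n * M := by
    rw [cn_sum, cn_spow, cn_spow]
    simp [cn, hndef]
  rw [hcmnew, hcnnew]
  -- the two partitions
  obtain ⟨P1, ho1, h1, hw1⟩ := hP (i + 1) j (by omega)
  obtain ⟨P2, ho2, h2, hw2⟩ := hP i (j + 1) (by omega)
  set Z : ℝ := (bc (r + 1) i j) ^ M with hZdef
  have hb1 := hbc1 (r + 1) i j
  have hZ1 : 1 ≤ Z := one_le_pow₀ hb1
  have e1pos : 0 < 1 + e1 := by linarith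
  have lam0 : ∀ s i j, 0 < lam q s i j := fun s i j =>
    lt_of_lt_of_le one_pos (lam_one_le hq s i j)
  have k1 : bc r (i + 1) j ≤ rho ^ m * bc (r + 1) i j := by
    show ((1 + e1) * lam q r (i + 1) j) ^ m * al ^ n ≤
      rho ^ m * (((1 + e1) * lam q (r + 1) i j) ^ m * al ^ n)
    rw [← mul_assoc, ← mul_pow]
    apply mul_le_mul_of_nonneg_right _ (by positivity)
    apply pow_le_pow_left₀ (by have := lam0 r (i + 1) j; positivity)
    calc (1 + e1) * lam q r (i + 1) j ≤ (1 + e1) * (q ^ 2 * lam q (r + 1) i j) :=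
          mul_le_mul_of_nonneg_left (lam_le1 hq r i j) e1pos.le
      _ = rho * ((1 + e1) * lam q (r + 1) i j) := by rw [hrhodef]; ring
  have k2 : bc r i (j + 1) ≤ rho ^ m * bc (r + 1) i j := by
    show ((1 + e1) * lam q r i (j + 1)) ^ m * al ^ n ≤
      rho ^ m * (((1 + e1) * lam q (r + 1) i j) ^ m * al ^ n)
    rw [← mul_assoc, ← mul_pow]
    apply mul_le_mul_of_nonneg_right _ (by positivity)
    apply pow_le_pow_left₀ (by have := lam0 r i (j + 1); positivity)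
    calc (1 + e1) * lam q r i (j + 1) ≤ (1 + e1) * (q ^ 2 * lam q (r + 1) i j) :=
          mul_le_mul_of_nonneg_left (lam_le2 hq r i j) e1pos.le
      _ = rho * ((1 + e1) * lam q (r + 1) i j) := by rw [hrhodef]; ring
  have k3 : bc r (i + 1) j * bc r i (j + 1) ≤ rho ^ m * bc (r + 1) i j ^ 2 := by
    show (((1 + e1) * lam q r (i + 1) j) ^ m * al ^ n) *
        (((1 + e1) * lam q r i (j + 1)) ^ m * al ^ n) ≤
      rho ^ m * (((1 + e1) * lam q (r + 1) i j) ^ m * al ^ n) ^ 2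
    have e : (((1 + e1) * lam q r (i + 1) j) ^ m * al ^ n) *
        (((1 + e1) * lam q r i (j + 1)) ^ m * al ^ n) =
        ((1 + e1) ^ 2 * (lam q r (i + 1) j * lam q r i (j + 1))) ^ m * (al ^ n) ^ 2 := aux _ _ _ _
    have e' : rho ^ m * (((1 + e1) * lam q (r + 1) i j) ^ m * al ^ n) ^ 2 =
        ((1 + e1) ^ 2 * (q ^ 2 * lam q (r + 1) i j ^ 2)) ^ m * (al ^ n) ^ 2 := aux2 _ _ _ _
    rw [e, e']
    apply mul_le_mul_of_nonneg_right _ (by positivity)
    apply pow_le_pow_left₀ (by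
      have := lam0 r i (j + 1)
      have := lam0 r (i + 1) j
      positivity)
    exact mul_le_mul_of_nonneg_left (lam_mul hq r i j) (by positivity)
  have hbp1 := hbc1 r (i + 1) j
  have hbp2 := hbc1 r i (j + 1)
  obtain ⟨T, hT1, hTM, hTa, hTb⟩ := exists_threshold (rho := rho)
    (X1 := bc r (i + 1) j ^ M) (X2 := bc r i (j + 1) ^ M) (Z := Z) hrho
    (by positivity) (by positivity) (by linarith) (n := m * M) (Nat.mul_pos hm hM1)
    (by
      rw [hZdef, pow_mul, ← mul_pow]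
      exact pow_le_pow_left₀ (by linarith) k1 M)
    (by
      rw [hZdef, pow_mul, ← mul_pow]
      exact pow_le_pow_left₀ (by linarith) k2 M)
    (by
      rw [hZdef, pow_mul, ← mul_pow]
      calc (bc r (i + 1) j * bc r i (j + 1)) ^ M ≤ (rho ^ m * bc (r + 1) i j ^ 2) ^ M :=
            pow_le_pow_left₀ (by positivity) k3 M
        _ = (rho ^ m) ^ M * (bc (r + 1) i j ^ M) ^ 2 := by ring)
  have hi : i ≤ Ks := by omega
  have hj : j ≤ Ks := by omega
  have hx : 1 ≤ q ^ (2 * i) := one_le_pow₀ hq.le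
  have hy : 1 ≤ q ^ (2 * j) := one_le_pow₀ hq.le
  have hxy : (q ^ (2 * i) * q ^ (2 * j)) ≤ q ^ (4 * Ks) := by
    rw [← pow_add]
    exact pow_le_pow_right₀ hq.le (by omega)
  have hw1' : (P1.map (fun B => (q ^ (2 * i) * rho) ^ ca sp B * (q ^ (2 * j)) ^ cb sp B)).sum ≤
      bc r (i + 1) j := by
    have e : q ^ (2 * i) * rho = q ^ (2 * (i + 1)) := by rw [hrhodef]; ring
    rw [e]
    exact hw1
  have hw2' : (P2.map (fun B => (q ^ (2 * i)) ^ ca sp B * (q ^ (2 * j) * rho) ^ cb sp B)).sum ≤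
      bc r i (j + 1) := by
    have e : q ^ (2 * j) * rho = q ^ (2 * (j + 1)) := by rw [hrhodef]; ring
    rw [e]
    exact hw2
  have hC0 : ((4 * h + 1 : ℕ) : ℝ) ^ Fintype.card K *
      (q ^ (2 * i) * q ^ (2 * j)) ^ Fintype.card K ≤ C0 := by
    rw [hC0def]
    apply mul_le_mul_of_nonneg_left _ (by positivity)
    exact pow_le_pow_left₀ (by positivity) hxy _
  have hC00 : 0 ≤ C0 := by rw [hC0def]; positivity
  have key := build hh ho1 ho2 h1 h2 hx hy hrho.le hbp1 hbp2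
    (hLam (i + 1) j (by omega) (by omega)) (hLam i (j + 1) (by omega) (by omega)) hC0 hw1' hw2'
    M T k a h' hT1 hTM (by linarith) hTa hTb hh' (hUd a haD) hf0 rfl
  refine key.mono ?_
  -- the final estimate
  have hE : 1 ≤ (1 + eps) ^ A := one_le_pow₀ (by linarith)
  have t1 : (r0 : ℝ) ^ k ≤ (ga ^ A) ^ M := by
    calc (r0 : ℝ) ^ k ≤ (ga ^ a) ^ k := pow_le_pow_left₀ (by positivity) hr0r k
      _ = (ga ^ A) ^ M := by rw [← pow_mul, ← pow_mul, hkdef, hMdef]; ring_nf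
  have t2 : f0 ^ k = ((1 + eps) ^ A) ^ M * (al ^ A) ^ M := by
    rw [hf0def, mul_pow, mul_pow, ← pow_mul, ← pow_mul, ← pow_mul, ← pow_mul, hkdef, hMdef]
    congr 2 <;> ring
  have t3 : (r0 : ℝ) ^ k * (M * (C0 * m) * Lam ^ M) ≤
      (((1 + eps) ^ A) ^ M * (al ^ A) ^ M * Z) * (a * (C0 * m) * L) := by
    have u1 : (r0 : ℝ) ^ k * Lam ^ M ≤ (al ^ A) ^ M := by
      calc (r0 : ℝ) ^ k * Lam ^ M ≤ (ga ^ A) ^ M * Lam ^ M :=
            mul_le_mul_of_nonneg_right t1 (by positivity)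
        _ = (Lam * ga ^ A) ^ M := by rw [← mul_pow, mul_comm]
        _ ≤ (al ^ A) ^ M := pow_le_pow_left₀ (by
            have : 0 < ga := by linarith
            positivity) hA M
    have u2 : (al ^ A) ^ M ≤ ((1 + eps) ^ A) ^ M * (al ^ A) ^ M * Z := by
      have v1 : 1 ≤ ((1 + eps) ^ A) ^ M := one_le_pow₀ hE
      have v2 : 0 < (al ^ A) ^ M := by positivity
      have v3 : (al ^ A) ^ M ≤ ((1 + eps) ^ A) ^ M * (al ^ A) ^ M := by nlinarith
      have v4 : 0 < ((1 + eps) ^ A) ^ M * (al ^ A) ^ M := by positivity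
      nlinarith
    have u3 : (M : ℝ) = a * L := by rw [hMdef]; push_cast; ring
    calc (r0 : ℝ) ^ k * (M * (C0 * m) * Lam ^ M) = ((r0 : ℝ) ^ k * Lam ^ M) * (M * (C0 * m)) := by
          ring
      _ ≤ (((1 + eps) ^ A) ^ M * (al ^ A) ^ M * Z) * (M * (C0 * m)) :=
          mul_le_mul_of_nonneg_right (u1.trans u2) (by positivity)
      _ = (((1 + eps) ^ A) ^ M * (al ^ A) ^ M * Z) * (a * (C0 * m) * L) := by rw [u3]; ring
  have t4 : (k : ℝ) * (r0 * CT) * f0 ^ k * (M * (C0 * m * rho ^ m) * (rho * Z)) =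
      (((1 + eps) ^ A) ^ M * (al ^ A) ^ M * Z) *
        (A * (r0 * CT) * (a * (C0 * m * rho ^ m) * rho) * L ^ 2) := by
    rw [t2]
    have u3 : (M : ℝ) = a * L := by rw [hMdef]; push_cast; ring
    have u4 : (k : ℝ) = A * L := by rw [hkdef]; push_cast; ring
    rw [u3, u4]
    ring
  have t5 : th ^ L ≤ th ^ M := by
    apply pow_le_pow_right₀ hth.le
    rw [hMdef]
    exact Nat.le_mul_of_pos_left L ha1
  have t6 : (((1 + eps) ^ A) ^ M * (al ^ A) ^ M * Z) * th ^ M =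
      ((1 + eta) * lam q (r + 1) i j) ^ (m * M) * al ^ (a * k + n * M) := by
    have u5 : a * k = A * M := by rw [hkdef, hMdef]; ring
    have p1 : (1 + eps) ^ A ≠ 0 := by positivity
    have p2 : (1 + e1) ^ m ≠ 0 := by positivity
    have aux3 : ∀ b c d e : ℝ, b ^ M * c ^ M * d ^ M * e ^ M = (b * c * d * e) ^ M := by
      intro b c d e
      rw [mul_pow, mul_pow, mul_pow]
    have v : (1 + eps) ^ A * al ^ A * bc (r + 1) i j * th =
        ((1 + eta) * lam q (r + 1) i j) ^ m * al ^ (A + n) := by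
      rw [hthdef]
      show (1 + eps) ^ A * al ^ A * (((1 + e1) * lam q (r + 1) i j) ^ m * al ^ n) *
        ((1 + eta) ^ m / ((1 + eps) ^ A * (1 + e1) ^ m)) = _
      rw [mul_pow, mul_pow, pow_add]
      field_simp
    calc (((1 + eps) ^ A) ^ M * (al ^ A) ^ M * Z) * th ^ M =
          ((1 + eps) ^ A * al ^ A * bc (r + 1) i j * th) ^ M := by
            rw [hZdef]
            exact aux3 _ _ _ _
      _ = (((1 + eta) * lam q (r + 1) i j) ^ m * al ^ (A + n)) ^ M := by rw [v]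
      _ = _ := by rw [u5, mul_pow, ← pow_mul, ← pow_mul, add_mul A n M]
  have hpos : 0 ≤ ((1 + eps) ^ A) ^ M * (al ^ A) ^ M * Z := by positivity
  calc (r0 : ℝ) ^ k * (M * (C0 * m) * Lam ^ M) +
        k * (r0 * CT) * f0 ^ k * (M * (C0 * m * rho ^ m) * (rho * Z))
      ≤ (((1 + eps) ^ A) ^ M * (al ^ A) ^ M * Z) * (a * (C0 * m) * L) +
        (((1 + eps) ^ A) ^ M * (al ^ A) ^ M * Z) *
        (A * (r0 * CT) * (a * (C0 * m * rho ^ m) * rho) * L ^ 2) := by
          rw [t4]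
          exact add_le_add_left t3 _
    _ = (((1 + eps) ^ A) ^ M * (al ^ A) ^ M * Z) * (a * (C0 * m) * L +
        A * (r0 * CT) * (a * (C0 * m * rho ^ m) * rho) * L ^ 2) := by ring
    _ ≤ (((1 + eps) ^ A) ^ M * (al ^ A) ^ M * Z) * th ^ M :=
        mul_le_mul_of_nonneg_left (hL.trans t5) hpos
    _ = _ := t6

end F95
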