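import Pool.Agent.W_f95cc0_h94.Level

set_option autoImplicit false

namespace F95

/-- TASK. Telescoping. Induction on M: with first block w0 and rest w', U' = sum of u over w',
V' = sum of v over w' (U' ≤ V'),
[u(w0)+U' < T ≤ v(w0)+V'] = [v(w0)+U' < T ≤ v(w0)+V'] + [u(w0)+U' < T ≤ v(w0)+U'];
the first summand is the sum over b in Lv of (b.1) x [U' < T-b.2 ≤ V'] (induction hypothesis),
the second is the sum over tau in Icc 1 m of [u(w0) < tau ≤ v(w0)] * [U' = T - tau] (hC and
rep_level for Lu). -/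
theorem rep_tele {K : Type} [Fintype K] {N : ℕ} {sp : K → Bool} {u v : (K → Fin N) → ℕ}
    {Lu Lv : List ((K → Finset (Fin N)) × ℕ)} (hu : Lev sp u Lu) (hv : Lev sp v Lv)
    (huv : ∀ w, u w ≤ v w) {m : ℕ} (hvm : ∀ w, v w ≤ m) {x y t Lam C0 : ℝ} (hx : 0 ≤ x)
    (hy : 0 ≤ y) (ht : 0 < t) (hLam : 0 < Lam) (hC0 : 0 ≤ C0)
    (hLu : (Lu.map (fun b => x ^ ca sp b.1 * y ^ cb sp b.1 * t ^ b.2)).sum ≤ Lam)
    (hLv : (Lv.map (fun b => x ^ ca sp b.1 * y ^ cb sp b.1 * t ^ b.2)).sum ≤ Lam)
    (hC : ∀ tau : ℕ, Rep sp x y (fun w => if u w < tau ∧ tau ≤ v w then 1 else 0) C0)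
    (M : ℕ) (T : ℤ) :
    Rep (spow sp M) x y
      (fun w => if (bsum u M w : ℤ) < T ∧ T ≤ (bsum v M w : ℤ) then 1 else 0)
      (M * (C0 * ∑ tau ∈ Finset.Icc 1 m, t ^ tau) * t ^ (-T) * (Lam ^ M / Lam)) := by
  induction M generalizing T with
  | zero =>
    refine (rep_zero (c := ((0 : ℕ) : ℝ) * (C0 * ∑ tau ∈ Finset.Icc 1 m, t ^ tau) * t ^ (-T) *
      (Lam ^ 0 / Lam)) (by simp)).congr ?_
    intro w
    rw [if_neg]
    rintro ⟨h1, h2⟩
    have e1 : (bsum u 0 w : ℤ) = 0 := rfl
    have e2 : (bsum v 0 w : ℤ) = 0 := rfl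
    rw [e1] at h1
    rw [e2] at h2
    omega
  | succ M ih =>
    set S : ℝ := C0 * ∑ tau ∈ Finset.Icc 1 m, t ^ tau with hS
    have hS0 : 0 ≤ S := mul_nonneg hC0 (Finset.sum_nonneg fun tau _ => by positivity)
    have keyA := rep_list_sum (sp := Sum.elim sp (spow sp M)) (x := x) (y := y) Lv
      (fun b (w : K ⊕ IPow K M → Fin N) => ind b.1 (fun k => w (Sum.inl k)) *
        (if (bsum u M (fun k => w (Sum.inr k)) : ℤ) < T - b.2 ∧
          T - b.2 ≤ (bsum v M (fun k => w (Sum.inr k)) : ℤ) then 1 else 0))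
      (fun b => (x ^ ca sp b.1 * y ^ cb sp b.1) *
        (M * S * t ^ (-(T - b.2)) * (Lam ^ M / Lam)))
      (fun b hb => Rep.tensor hx hy (rep_box (hv.ok b hb)) (ih (T - b.2)))
    have keyB := rep_finset_sum (sp := Sum.elim sp (spow sp M)) (x := x) (y := y)
      (Finset.Icc 1 m)
      (fun tau (w : K ⊕ IPow K M → Fin N) =>
        (if u (fun k => w (Sum.inl k)) < tau ∧ tau ≤ v (fun k => w (Sum.inl k)) then 1 else 0) *
        (if (bsum u M (fun k => w (Sum.inr k)) : ℤ) = T - tau then 1 else 0))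
      (fun tau => C0 * (t ^ (-(T - (tau : ℤ))) * Lam ^ M))
      (fun tau _ => Rep.tensor hx hy (hC tau) (rep_level hu hx hy ht hLu M (T - tau)))
    have hbs : ∀ w : IPow K M → Fin N, bsum u M w ≤ bsum v M w := by
      clear ih keyA keyB
      induction M with
      | zero => intro w; exact le_rfl
      | succ M ihM =>
        intro w
        exact Nat.add_le_add (huv _) (ihM _)
    refine Rep.mono (Rep.congr (keyA.add keyB) ?_) ?_
    · intro w
      rw [lev_expand hv (fun n => if (bsum u M (fun k => w (Sum.inr k)) : ℤ) < T - n ∧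
          T - n ≤ (bsum v M (fun k => w (Sum.inr k)) : ℤ) then 1 else 0)]
      have e1 : (bsum u (M + 1) w : ℤ) = (u (fun k => w (Sum.inl k)) : ℤ) +
          (bsum u M (fun k => w (Sum.inr k)) : ℤ) := by
        simp [bsum]
      have e2 : (bsum v (M + 1) w : ℤ) = (v (fun k => w (Sum.inl k)) : ℤ) +
          (bsum v M (fun k => w (Sum.inr k)) : ℤ) := by
        simp [bsum]
      rw [e1, e2]
      have a1 := hbs (fun k => w (Sum.inr k))
      have a2 := huv (fun k => w (Sum.inl k))
      have a3 := hvm (fun k => w (Sum.inl k))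
      generalize bsum u M (fun k => w (Sum.inr k)) = U at a1 ⊢
      generalize bsum v M (fun k => w (Sum.inr k)) = V at a1 ⊢
      generalize u (fun k => w (Sum.inl k)) = u0 at a2 ⊢
      generalize v (fun k => w (Sum.inl k)) = v0 at a2 a3 ⊢
      have hsum : (∑ tau ∈ Finset.Icc 1 m, (if u0 < tau ∧ tau ≤ v0 then 1 else 0) *
          (if (U : ℤ) = T - (tau : ℤ) then 1 else 0)) =
          if (u0 : ℤ) + U < T ∧ T ≤ (v0 : ℤ) + U then 1 else 0 := by
        by_cases hT : (u0 : ℤ) + U < T ∧ T ≤ (v0 : ℤ) + U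
        · rw [if_pos hT]
          obtain ⟨tau, htau⟩ := Int.eq_ofNat_of_zero_le (show 0 ≤ T - U by omega)
          rw [Finset.sum_eq_single tau]
          · rw [if_pos, if_pos]
            · omega
            · constructor <;> omega
          · intro b _ hb
            have : ¬ (U : ℤ) = T - (b : ℤ) := by
              intro h'
              apply hb
              omega
            rw [if_neg this, mul_zero]
          · intro h'
            exact absurd (Finset.mem_Icc.mpr ⟨by omega, by omega⟩) h'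
        · rw [if_neg hT]
          apply Finset.sum_eq_zero
          intro tau _
          by_cases h' : u0 < tau ∧ tau ≤ v0
          · have : ¬ (U : ℤ) = T - (tau : ℤ) := by
              intro h''
              apply hT
              constructor <;> omega
            rw [if_neg this, mul_zero]
          · rw [if_neg h', zero_mul]
      rw [hsum]
      split_ifs <;> omega
    · have h2 : (Lv.map (fun b => (x ^ ca sp b.1 * y ^ cb sp b.1) *
          (M * S * t ^ (-(T - (b.2 : ℤ))) * (Lam ^ M / Lam)))) =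
          Lv.map (fun b => (x ^ ca sp b.1 * y ^ cb sp b.1 * t ^ b.2) *
            (M * S * t ^ (-T) * (Lam ^ M / Lam))) := by
        apply List.map_congr_left
        intro b _
        have : t ^ (-(T - (b.2 : ℤ))) = t ^ (-T) * t ^ b.2 := by
          rw [← zpow_natCast, ← zpow_add₀ ht.ne']
          congr 1
          ring
        rw [this]
        ring
      have h3 : ∑ tau ∈ Finset.Icc 1 m, C0 * (t ^ (-(T - (tau : ℤ))) * Lam ^ M) =
          S * t ^ (-T) * Lam ^ M := by
        rw [hS, Finset.mul_sum, Finset.sum_mul, Finset.sum_mul]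
        apply Finset.sum_congr rfl
        intro tau _
        have : t ^ (-(T - (tau : ℤ))) = t ^ (-T) * t ^ tau := by
          rw [← zpow_natCast, ← zpow_add₀ ht.ne']
          congr 1
          ring
        rw [this]
        ring
      rw [h2, List.sum_map_mul_right, h3]
      have h4 : (Lv.map (fun b => x ^ ca sp b.1 * y ^ cb sp b.1 * t ^ b.2)).sum *
          (M * S * t ^ (-T) * (Lam ^ M / Lam)) ≤ Lam * (M * S * t ^ (-T) * (Lam ^ M / Lam)) := by
        apply mul_le_mul_of_nonneg_right hLv
        positivity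
      calc _ ≤ Lam * (M * S * t ^ (-T) * (Lam ^ M / Lam)) + S * t ^ (-T) * Lam ^ M := by
            exact add_le_add h4 le_rfl
        _ = ((M + 1 : ℕ) : ℝ) * S * t ^ (-T) * (Lam ^ (M + 1) / Lam) := by
            push_cast
            field_simp
            ring

end F95
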